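import Pool.Agent.H74.Tri.KC
import Pool.Agent.H11.Tri.Init

set_option autoImplicit false

/-! MP_2e6055, module TOP (helper74): NE, Irr, Det. -/

namespace Pool.Agent.H74.Tri

open Pool.Agent.H7.UC

theorem ne : NE := by
  intro W ω c hW p hp hl hr n
  induction n with
  | zero => exact ⟨hl, hr⟩
  | succ n ih =>
    have hB := hp.orb n
    have hh : ph (orb ω p n) ∉ W := by
      intro h
      have h1 := hW _ ih.1 ⟨_, h, adjF_symm (adj_hl (orb ω p n))⟩
      have h2 := hW _ ih.2 ⟨_, h, adjF_symm (adj_hr (orb ω p n))⟩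
      rw [← h2, hB.1, hB.2] at h1
      exact absurd h1 (by simp)
    rcases next_cases ω p n with ⟨h1, h2⟩ | ⟨h1, h2⟩
    · rw [h1, h2]; exact ⟨hh, ih.2⟩
    · rw [h1, h2]; exact ⟨ih.1, hh⟩

theorem lr : LR := lr_of Pool.Agent.H98.Tri.int1
  (Pool.Agent.H98.Tri.int2 Pool.Agent.H63.UC.d1 Pool.Agent.H63.UC.d1b) ne
  Pool.Agent.H11.Tri.arcC

/-- black crossing, started from the virtual left side -/
theorem cr_iff {m n : ℕ} (hm : 1 ≤ m) {ω : Fc → Bool} (hB : BC m n ω) : CR m n ω ↔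
    ∃ x v, x ∉ box m n ∧ x.1 < 0 ∧ v ∈ box m n ∧ v.1 = (m : ℤ) - 1 ∧
      Jn {a | ω a = true} x v := by
  have mb := @Pool.Agent.H11.Tri.mem_box m n
  constructor
  · rintro ⟨u, v, hu, hv, hu0, hvm, hub, huv⟩
    have hx : ((-1 : ℤ), u.2) ∉ box m n := by
      rw [mb]; simp
    refine ⟨(-1, u.2), v, hx, by simp, hv, hvm, ?_⟩
    have h1 : adjF ((-1 : ℤ), u.2) u := by
      rw [adjF_iff]; left; exact ⟨by simp [hu0], rfl⟩
    refine (Jn.single (S := {a | ω a = true}) hub h1).trans (huv.mono ?_)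
    intro a ha
    exact ha.2
  · rintro ⟨x, v, hx, hx0, hv, hvm, hxv⟩
    -- last face with negative column
    have key : ∀ w, Jn {a | ω a = true} x w → (w.1 < 0 ∧ w ∉ box m n) ∨
        (∃ u, u ∈ box m n ∧ u.1 = 0 ∧ ω u = true ∧ w ∈ box m n ∧
          Jn {a | a ∈ box m n ∧ ω a = true} u w) := by
      intro w hw
      induction hw with
      | refl => exact Or.inl ⟨hx0, hx⟩
      | @tail a b h1 h2 ih =>
        have hbb : ω b = true := h2.1
        by_cases hbox : b ∈ box m n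
        · rcases ih with ⟨ih1, ih2⟩ | ⟨u, h3, h4, h5, h6, h7⟩
          · right
            refine ⟨b, hbox, ?_, hbb, hbox, Jn.refl _⟩
            have h3 := (adjF_iff a b).1 h2.2
            have h4 := mb.1 hbox
            omega
          · exact Or.inr ⟨u, h3, h4, h5, hbox, h7.step ⟨hbox, hbb⟩ h2.2⟩
        · left
          have h3 := hB b hbox
          rw [hbb] at h3
          have h4 : b.1 < 0 := by simpa using h3.symm
          exact ⟨h4, hbox⟩
    rcases key v hxv with ⟨h, _⟩ | ⟨u, h1, h2, h3, _, h4⟩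
    · omega
    · exact ⟨u, v, h1, hv, h2, hvm, h3, h4⟩

/-- rerouting a path of `A` outside `Z` -/
theorem reroute {A Z : Set Fc} (hj : ∀ f g, f ∉ Z → g ∉ Z → tch Z f → tch Z g → f ∈ A → g ∈ A →
    Jn {a | a ∉ Z ∧ a ∈ A} f g) {x v : Fc} (hx : x ∉ Z) (hxA : x ∈ A) (hv : v ∉ Z)
    (h : Jn A x v) : Jn {a | a ∉ Z ∧ a ∈ A} x v := by
  have key : ∀ w, Jn A x w → (w ∉ Z ∧ w ∈ A ∧ Jn {a | a ∉ Z ∧ a ∈ A} x w) ∨
      (w ∈ Z ∧ ∃ g, g ∉ Z ∧ g ∈ A ∧ tch Z g ∧ Jn {a | a ∉ Z ∧ a ∈ A} x g) := by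
    intro w hw
    induction hw with
    | refl => exact Or.inl ⟨hx, hxA, Jn.refl _⟩
    | @tail a b h1 h2 ih =>
      rcases ih with ⟨i1, i2, i3⟩ | ⟨i1, g, i2, i3, i4, i5⟩
      · by_cases hb : b ∈ Z
        · exact Or.inr ⟨hb, a, i1, i2, ⟨b, hb, h2.2⟩, i3⟩
        · exact Or.inl ⟨hb, h2.1, i3.step ⟨hb, h2.1⟩ h2.2⟩
      · by_cases hb : b ∈ Z
        · exact Or.inr ⟨hb, g, i2, i3, i4, i5⟩
        · left
          refine ⟨hb, h2.1, i5.trans ?_⟩
          exact hj g b i2 hb i4 ⟨a, i1, adjF_symm h2.2⟩ i3 h2.1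
  rcases key v h with h1 | h1
  · exact h1.2.2
  · exact absurd h1.1 hv

theorem irr_aux {m n : ℕ} {ω ω' : Fc → Bool} (hm : 1 ≤ m) (hB : BC m n ω) (hB' : BC m n ω')
    {Z : Set Fc} (hZ : ∀ f ∈ Z, f ∈ box m n ∧ f.1 ≠ (m : ℤ) - 1) (he : ∀ f, f ∉ Z → ω f = ω' f)
    (hj : ∀ f g, f ∉ Z → g ∉ Z → tch Z f → tch Z g → ω f = true → ω g = true →
      Jn {a | a ∉ Z ∧ ω a = true} f g) (h : CR m n ω) : CR m n ω' := by
  rw [cr_iff hm hB] at h
  rw [cr_iff hm hB']
  obtain ⟨x, v, h1, h2, h3, h4, h5⟩ := h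
  refine ⟨x, v, h1, h2, h3, h4, ?_⟩
  have hxZ : x ∉ Z := fun h => h1 (hZ x h).1
  have hvZ : v ∉ Z := fun h => (hZ v h).2 h4
  have hxA : x ∈ {a | ω a = true} := by
    show ω x = true
    rw [hB x h1]; simpa using h2
  have h6 := reroute (A := {a | ω a = true}) (Z := Z) hj hxZ hxA hvZ h5
  refine h6.mono ?_
  rintro a ⟨h7, h8⟩
  show ω' a = true
  rw [← he a h7]
  exact h8

theorem irr : Irr := by
  intro m n ω ω' hm hn hB hB' Z hZ he hj
  constructor
  · exact irr_aux hm hB hB' hZ he hj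
  · refine irr_aux hm hB' hB hZ (fun f hf => (he f hf).symm) ?_
    intro f g hf hg h1 h2 h3 h4
    have h5 := hj f g hf hg h1 h2 (by rw [he f hf]; exact h3) (by rw [he g hg]; exact h4)
    refine h5.mono ?_
    rintro a ⟨h6, h7⟩
    exact ⟨h6, by rw [← he a h6]; exact h7⟩

/-- the black revealed faces are joined to the start -/
theorem rev_black {ω : Fc → Bool} {p : Pos} (hp : Bi ω p) (n : ℕ) :
    Jn {a | a ∈ Rev ω p n ∧ ω a = true} (pl p) (pl (orb ω p n)) := by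
  induction n with
  | zero => exact Jn.refl _
  | succ n ih =>
    have ih' : Jn {a | a ∈ Rev ω p (n + 1) ∧ ω a = true} (pl p) (pl (orb ω p n)) := by
      refine ih.mono ?_
      rintro a ⟨h1, h2⟩
      exact ⟨Rev.mono (Nat.le_succ n) h1, h2⟩
    rcases next_cases ω p n with ⟨h1, _⟩ | ⟨h1, _⟩
    · have h2 : pl (orb ω p (n + 1)) ∈ {a | a ∈ Rev ω p (n + 1) ∧ ω a = true} :=
        ⟨⟨n + 1, le_rfl, Or.inl rfl⟩, (hp.orb (n + 1)).1⟩
      refine ih'.step h2 ?_
      rw [h1]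
      exact adjF_symm (adj_hl _)
    · rw [h1]; exact ih'

theorem rev_black' {ω : Fc → Bool} {p : Pos} (hp : Bi ω p) {n : ℕ} {f : Fc}
    (hf : f ∈ Rev ω p n) (hb : ω f = true) : Jn {a | a ∈ Rev ω p n ∧ ω a = true} (pl p) f := by
  obtain ⟨i, hi, h⟩ := hf
  rcases h with h | h
  · rw [h]
    refine (rev_black hp i).mono ?_
    rintro a ⟨h1, h2⟩
    exact ⟨Rev.mono hi h1, h2⟩
  · rw [h, (hp.orb i).2] at hb
    exact absurd hb (by simp)

theorem det_aux {m n : ℕ} {ω : Fc → Bool} (hm : 1 ≤ m) (hn : 1 ≤ n) (hB : BC m n ω) {N : ℕ}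
    (hN : ExitAt (box m n) ω p0 N) : CR m n ω ↔
      ∃ v ∈ Rev ω p0 N, v ∈ box m n ∧ v.1 = (m : ℤ) - 1 ∧ ω v = true := by
  classical
  have mb := @Pool.Agent.H11.Tri.mem_box m n
  obtain ⟨hSt, hT⟩ := Pool.Agent.H11.Tri.init m n ω hm hn hB
  have hl0 : pl p0 = (-1, 0) := rfl
  constructor
  · intro h
    rw [cr_iff hm hB] at h
    obtain ⟨x, v, h1, h2, h3, h4, h5⟩ := h
    have hxb : ω x = true := by rw [hB x h1]; simpa using h2
    have hvb : ω v = true := Jn.mem h5 hxb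
    refine ⟨v, ?_, h3, h4, hvb⟩
    by_contra hvR
    set B := (box m n).filter (fun a => a ∉ Rev ω p0 N) with hBdef
    have hvB : v ∈ B := Finset.mem_filter.2 ⟨h3, hvR⟩
    set W := comp B v with hW
    have hWB : ∀ a ∈ W, a ∈ box m n ∧ a ∉ Rev ω p0 N := fun a ha =>
      Finset.mem_filter.1 (comp_sub _ _ ha)
    have hvW : v ∈ W := mem_comp_self hvB
    have hmono := Pool.Agent.H98.Tri.int2 Pool.Agent.H63.UC.d1 Pool.Agent.H63.UC.d1b
      (box m n) ω hSt p0 N hT hN W (fun a ha => (hWB a ha).1) (fun a ha => (hWB a ha).2)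
      (fun a ha b hb => comp_conn hvB ha hb) (by
        rintro a ha haW ⟨g, hg, hga⟩
        by_contra hn
        exact haW (comp_adj (by exact_mod_cast hg) (Finset.mem_filter.2 ⟨ha, hn⟩) (adjF_symm hga)))
    -- the right virtual neighbour of `v`
    have hr : (v.1 + 1, v.2) ∉ box m n := by
      rw [mb]; simp only; omega
    have hrW : ((v.1 + 1, v.2) : Fc) ∉ W := fun h => hr (hWB _ h).1
    have hrw : ω (v.1 + 1, v.2) = false := by
      rw [hB _ hr]
      have := (mb.1 h3).1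
      simp only [decide_eq_false_iff_not, not_lt]
      omega
    have hrt : tch (↑W : Set Fc) (v.1 + 1, v.2) := by
      refine ⟨v, by exact_mod_cast hvW, ?_⟩
      rw [adjF_iff]; right; left; exact ⟨by simp, rfl⟩
    have hxW : x ∉ (↑W : Set Fc) := fun h => h1 (hWB x (by exact_mod_cast h)).1
    -- the path enters `W` through a black face
    obtain ⟨a, b, h6, h7, h8, h9, h10, _⟩ := Jn.exit (A := {a | a ∉ (↑W : Set Fc)}) h5 hxW
      (fun h => h (by exact_mod_cast hvW))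
    have hab : ω a = true := by
      have h11 : Jn {a | ω a = true} x a := h6.mono (fun c hc => hc.1)
      exact Jn.mem h11 hxb
    have h11 := hmono a (v.1 + 1, v.2) (by exact_mod_cast h7) hrW
      ⟨b, by
        have : ¬ ¬ b ∈ (↑W : Set Fc) := h9
        exact not_not.1 this, h10⟩ hrt
    rw [hab, hrw] at h11
    exact absurd h11 (by simp)
  · rintro ⟨v, h1, h2, h3, h4⟩
    rw [cr_iff hm hB]
    refine ⟨pl p0, v, hT.2.1, by rw [hl0]; simp, h2, h3, ?_⟩
    exact (rev_black' hT.2.2.2 h1 h4).mono (fun a ha => ha.2)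

theorem orb_congr {ω ω' : Fc → Bool} {p : Pos} {N : ℕ} (h : ∀ i < N, ω (ph (orb ω p i)) =
    ω' (ph (orb ω p i))) : ∀ i ≤ N, orb ω' p i = orb ω p i := by
  intro i
  induction i with
  | zero => intro _; rfl
  | succ i ih =>
    intro hi
    rw [orb_succ, orb_succ, ih (by omega)]
    unfold stp
    rw [h i (by omega)]

theorem det : Det := by
  intro m n ω ω' hm hn hB hB' N hN hR
  have horb := orb_congr (ω := ω) (ω' := ω') (p := p0) (N := N + 1) (by
    intro i hi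
    by_cases h : ph (orb ω p0 i) ∈ box m n
    · rcases Nat.lt_or_ge i N with h1 | h1
      · exact hR _ ⟨i + 1, by omega, ph_next ω p0 i⟩
      · -- at the exit the face ahead is outside
        have hi' : i = N := by omega
        subst hi'
        exfalso
        have h2 := hN.2.2
        rcases next_cases ω p0 i with ⟨h3, _⟩ | ⟨_, h3⟩
        · exact h2.2.1 (by rw [h3]; exact h)
        · exact h2.2.2.1 (by rw [h3]; exact h)
    · rw [hB _ h, hB' _ h])
  have hN' : ExitAt (box m n) ω' p0 N := by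
    refine ⟨hN.1, fun i h1 h2 => ?_, ?_⟩
    · rw [horb i (by omega)]; exact hN.2.1 i h1 h2
    · have h2 := hN.2.2
      have h3 := ((Pool.Agent.H11.Tri.init m n ω' hm hn hB').2.2.2.2).orb (N + 1)
      rw [horb (N + 1) le_rfl] at h3 ⊢
      exact ⟨h2.1, h2.2.1, h2.2.2.1, h3⟩
  have hRev : Rev ω' p0 N = Rev ω p0 N := by
    ext f
    constructor
    · rintro ⟨i, hi, h⟩
      rw [horb i (by omega)] at h
      exact ⟨i, hi, h⟩
    · rintro ⟨i, hi, h⟩
      refine ⟨i, hi, ?_⟩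
      rw [horb i (by omega)]
      exact h
  rw [det_aux hm hn hB hN, det_aux hm hn hB' hN', hRev]
  constructor
  · rintro ⟨v, h1, h2, h3, h4⟩
    exact ⟨v, h1, h2, h3, by rw [← hR v h1]; exact h4⟩
  · rintro ⟨v, h1, h2, h3, h4⟩
    exact ⟨v, h1, h2, h3, by rw [hR v h1]; exact h4⟩

end Pool.Agent.H74.Tri
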