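import Pool.Agent.H74.Tri.Peel
import Pool.Agent.H11.Tri.Init

set_option autoImplicit false

/-! MP_2e6055 (helper74): configurations on `Fin m × Fin n` as colourings of all faces. -/

namespace Pool.Agent.H74.Tri

open Pool.Agent.H7.UC

variable {m n : ℕ}

/-- the face of a site -/
def em (x : Fin m × Fin n) : Fc := ((x.1.val : ℤ), (x.2.val : ℤ))

theorem em_inj {x y : Fin m × Fin n} (h : em x = em y) : x = y := by
  unfold em at h
  have h1 := congrArg Prod.fst h
  have h2 := congrArg Prod.snd h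
  simp only [Nat.cast_inj] at h1 h2
  exact Prod.ext (Fin.ext h1) (Fin.ext h2)

theorem mem_box' {f : Fc} : f ∈ box m n ↔ 0 ≤ f.1 ∧ f.1 < m ∧ 0 ≤ f.2 ∧ f.2 < n :=
  Pool.Agent.H11.Tri.mem_box

theorem em_mem (x : Fin m × Fin n) : em x ∈ box m n := by
  rw [mem_box']
  have h1 := x.1.isLt
  have h2 := x.2.isLt
  unfold em
  simp only
  omega

/-- the site of a face of the box -/
def toV (m n : ℕ) (f : Fc) (h : f ∈ box m n) : Fin m × Fin n :=
  (⟨f.1.toNat, by rw [mem_box'] at h; omega⟩, ⟨f.2.toNat, by rw [mem_box'] at h; omega⟩)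

theorem em_toV {f : Fc} (h : f ∈ box m n) : em (toV m n f h) = f := by
  have h' := mem_box'.1 h
  unfold em toV
  simp only
  exact Prod.ext (Int.toNat_of_nonneg h'.1) (Int.toNat_of_nonneg h'.2.2.1)

theorem toV_em (x : Fin m × Fin n) (h : em x ∈ box m n) : toV m n (em x) h = x :=
  em_inj (em_toV h)

theorem exists_em {f : Fc} (h : f ∈ box m n) : ∃ x : Fin m × Fin n, em x = f := ⟨_, em_toV h⟩

open Classical in
/-- the colouring of all faces: boundary condition left black, other sides white -/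
noncomputable def ext (m n : ℕ) (ω : Fin m × Fin n → Bool) (f : Fc) : Bool :=
  if h : f ∈ box m n then ω (toV m n f h) else decide (f.1 < 0)

theorem ext_em (ω : Fin m × Fin n → Bool) (x : Fin m × Fin n) : ext m n ω (em x) = ω x := by
  unfold ext
  rw [dif_pos (em_mem x), toV_em]

theorem ext_out (ω : Fin m × Fin n → Bool) {f : Fc} (h : f ∉ box m n) :
    ext m n ω f = decide (f.1 < 0) := by
  unfold ext
  rw [dif_neg h]

theorem ext_bc (ω : Fin m × Fin n → Bool) : BC m n (ext m n ω) := fun _ h => ext_out ω h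

theorem ext_eq {ω ω' : Fin m × Fin n → Bool} {f : Fc} (h : ∀ x, em x = f → ω x = ω' x) :
    ext m n ω f = ext m n ω' f := by
  by_cases hf : f ∈ box m n
  · obtain ⟨x, rfl⟩ := exists_em hf
    rw [ext_em, ext_em]
    exact h x rfl
  · rw [ext_out _ hf, ext_out _ hf]

end Pool.Agent.H74.Tri
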