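import Pool.Agent.H74.Tri.Main
import Pool.Agent.H74.Tri.MIrr
import Pool.Agent.H89.Per.Rect
import Pool.Agent.H11.Tri.Block

set_option autoImplicit false

/-! MP_2e6055 (helper74), module GEO: the attempts of the main exploration satisfy helper89's
hypotheses. -/

namespace Pool.Agent.H74.Tri

open Pool.Agent.H7.UC Pool.Agent.H89.Per

/-! ### Blocking sets and condition (H6) -/

/-- `c` blocks the annulus: every path of faces from the inner square to the outside meets `c` -/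
def Bls (p : Fc) (w : ℕ) (c : Set Fc) : Prop := ∀ u v : Fc,
  (|u.1 - p.1| < (w : ℤ) ∧ |u.2 - p.2| < (w : ℤ)) →
  (3 * (w : ℤ) < |v.1 - p.1| ∨ 3 * (w : ℤ) < |v.2 - p.2|) → ¬ Jn {a | a ∉ c} u v

/-- a successful annulus contains a blocking set of black faces -/
theorem bls_ann {p : Fc} {w : ℕ} {Ω : Fc → Bool} (h : ANN p w Ω) :
    Bls p w {z | z ∈ annS p w ∧ Ω z = true} := by
  intro u v hu hv hj
  have hc : ∀ {x y : ℤ} {a b : ℕ} {x' y' : ℤ}, HC x y a b Ω → x' = x + a - 1 → y' = y + b - 1 →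
      Pool.Agent.H11.Tri.hcr x x' y y' Ω := by
    intro x y a b x' y' h hx hy
    obtain ⟨u, v, h1, h2, h3, h4, h5, h6⟩ := h
    have e : ∀ z : Fc, z ∈ blk x y a b ↔ (x ≤ z.1 ∧ z.1 ≤ x' ∧ y ≤ z.2 ∧ z.2 ≤ y') := by
      intro z
      unfold blk
      rw [Set.mem_ofPred_eq]
      omega
    refine ⟨u, v, h3, by omega, (e u).1 h1, h5, h6.mono ?_⟩
    rintro z ⟨hz1, hz2⟩
    exact ⟨(e z).1 hz1, hz2⟩
  have vc : ∀ {x y : ℤ} {a b : ℕ} {x' y' : ℤ}, VC x y a b Ω → x' = x + a - 1 → y' = y + b - 1 →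
      Pool.Agent.H11.Tri.vcr x x' y y' Ω := by
    intro x y a b x' y' h hx hy
    obtain ⟨u, v, h1, h2, h3, h4, h5, h6⟩ := h
    have e : ∀ z : Fc, z ∈ blk x y a b ↔ (x ≤ z.1 ∧ z.1 ≤ x' ∧ y ≤ z.2 ∧ z.2 ≤ y') := by
      intro z
      unfold blk
      rw [Set.mem_ofPred_eq]
      omega
    refine ⟨u, v, h3, by omega, (e u).1 h1, h5, h6.mono ?_⟩
    rintro z ⟨hz1, hz2⟩
    exact ⟨(e z).1 hz1, hz2⟩
  obtain ⟨h1, h2, h3, h4⟩ := h
  obtain ⟨z, g1, ⟨g2, g3⟩, g4, g5⟩ := Pool.Agent.H11.Tri.block' (w := (w : ℤ)) (Ω := Ω)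
    (hc h1 (by push_cast; ring) (by push_cast; ring)) (hc h2 (by push_cast; ring) (by push_cast; ring))
    (vc h3 (by push_cast; ring) (by push_cast; ring)) (vc h4 (by push_cast; ring) (by push_cast; ring))
    hj hu hv
  refine g1 ⟨?_, g5⟩
  unfold annS
  rw [Set.mem_ofPred_eq]
  rw [abs_le] at g2 g3
  refine ⟨⟨⟨by linarith [g2.1], by linarith [g2.2]⟩, by linarith [g3.1], by linarith [g3.2]⟩, ?_⟩
  rcases g4 with g | g
  · left
    rcases abs_cases (z.1 - p.1) with ⟨e, _⟩ | ⟨e, _⟩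
    · right; linarith
    · left; linarith
  · right
    rcases abs_cases (z.2 - p.2) with ⟨e, _⟩ | ⟨e, _⟩
    · right; linarith
    · left; linarith

/-- (H6): after peeling the pieces of a blocking set attached to the black side, the component of `f0`
has no face of the right column. -/
def H6 (m : ℕ) (p : Fc) (w : ℕ) (D : Finset Fc) (Ω : Fc → Bool) (f0 : Fc) : Prop :=
  ∀ c : Set Fc, c ⊆ annS p w → Bls p w c → ∀ f ∈ comp (D \ KC D Ω c) f0, f.1 ≠ (m : ℤ) - 1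

/-- (H6) depends on the colours of the faces touching `D` only -/
theorem H6_congr {m : ℕ} {p : Fc} {w : ℕ} {D : Finset Fc} {Ω Ω' : Fc → Bool} {f0 : Fc}
    (h : ∀ f, f ∉ D → tch ↑D f → Ω f = Ω' f) (h6 : H6 m p w D Ω f0) : H6 m p w D Ω' f0 := by
  intro c hc hb
  rw [← KC_congr h (fun _ _ => Iff.rfl)]
  exact h6 c hc hb

/-- being a state depends on the colours off `D` only -/
theorem St_congr {D : Finset Fc} {Ω Ω' : Fc → Bool} (h : ∀ f, f ∉ D → Ω f = Ω' f) (hS : St D Ω) :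
    St D Ω' := by
  have hchg : ∀ v, chg D Ω' v → chg D Ω v := by
    rintro v ⟨k, h1, h2, h3, h4⟩
    refine ⟨k, h1, h2, h3, ?_⟩
    rw [h _ h2, h _ h3]
    exact h4
  refine ⟨hS.dom, fun a b c ha hb hc => hS.two a b c (hchg a ha) (hchg b hb) (hchg c hc), ?_⟩
  intro f g hf hg h1 h2 h3
  have h4 := hS.cc f g hf hg h1 h2 (by rw [h f hf, h g hg]; exact h3)
  refine h4.mono ?_
  rintro a ⟨ha, hb⟩
  exact ⟨ha, by rw [← h a ha, ← h f hf]; exact hb⟩

/-- (H6) from a run `mm` of unexplored faces which is next to a black face and is surrounded by the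
annulus: the component of the tip face in `D - mm` has no face of the right column. -/
theorem H6_of_gate {m : ℕ} {p : Fc} {w : ℕ} {D : Finset Fc} {Ω : Fc → Bool} {q : Pos} (hD : St D Ω)
    (hq : IsTip D Ω q) {mm : Set Fc} (hmD : ∀ f ∈ mm, f ∈ D)
    (hm : ∀ f ∈ mm, ∀ g ∈ mm, Jn mm f g) {g x : Fc} (hg : g ∈ mm) (hx : x ∉ D)
    (hgx : adjF g x) (hxb : Ω x = true)
    (hin : ∀ f ∈ mm, |f.1 - p.1| < (w : ℤ) ∧ |f.2 - p.2| < (w : ℤ))
    (hout : 3 * (w : ℤ) < |(ph q).1 - p.1| ∨ 3 * (w : ℤ) < |(ph q).2 - p.2|)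
    (hr : ∀ f, Jn {a | a ∈ D ∧ a ∉ mm} (ph q) f → f.1 ≠ (m : ℤ) - 1) : H6 m p w D Ω (ph q) := by
  classical
  intro c hc hb f hf
  have hanC : ∀ a : Fc, a ∈ annS p w → (w : ℤ) ≤ |a.1 - p.1| ∨ (w : ℤ) ≤ |a.2 - p.2| := by
    intro a ha
    unfold annS at ha
    rw [Set.mem_ofPred_eq] at ha
    rcases ha.2 with (h | h) | (h | h)
    · left; linarith [neg_abs_le (a.1 - p.1)]
    · left; linarith [le_abs_self (a.1 - p.1)]
    · right; linarith [neg_abs_le (a.2 - p.2)]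
    · right; linarith [le_abs_self (a.2 - p.2)]
  have hanO : ∀ a : Fc, a ∈ annS p w → |a.1 - p.1| ≤ 3 * (w : ℤ) ∧ |a.2 - p.2| ≤ 3 * (w : ℤ) := by
    intro a ha
    unfold annS at ha
    rw [Set.mem_ofPred_eq] at ha
    rw [abs_le, abs_le]
    refine ⟨⟨by linarith [ha.1.1.1], by linarith [ha.1.1.2]⟩, by linarith [ha.1.2.1],
      by linarith [ha.1.2.2]⟩
  -- the colouring with `c` black
  set Ω' : Fc → Bool := fun f => if f ∈ D then decide (f ∈ c) else Ω f with hΩ'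
  have hoff : ∀ f, f ∉ D → Ω f = Ω' f := by
    intro f hf
    rw [hΩ']
    simp only
    rw [if_neg hf]
  have hD' : St D Ω' := St_congr hoff hD
  have hq' : IsTip D Ω' q := by
    refine ⟨hq.1, hq.2.1, hq.2.2.1, ?_, ?_⟩
    · rw [← hoff _ hq.2.1]; exact hq.2.2.2.1
    · rw [← hoff _ hq.2.2.1]; exact hq.2.2.2.2
  have hK : KC D Ω c = KC D Ω' c := KC_congr (fun f hf _ => hoff f hf) (fun _ _ => Iff.rfl)
  rw [hK] at hf
  refine hr f ?_
  have hqc : ph q ∉ c := by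
    intro h
    have h1 := hanO _ (hc h)
    rcases hout with h2 | h2
    · linarith [h1.1]
    · linarith [h1.2]
  have hmc : ∀ f ∈ mm, f ∉ c := by
    intro f hf h
    have h1 := hin f hf
    rcases hanC _ (hc h) with h2 | h2
    · linarith [h1.1]
    · linarith [h1.2]
  have hsep : ¬ Jn {a | a ∉ c} (ph q) g := by
    intro h
    exact hb g (ph q) (hin g hg) hout (h.symm hqc)
  exact gate_sub hD' hq' (fun a ha hac => by
    rw [hΩ']
    simp only
    rw [if_pos ha]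
    simpa using hac) hmD hm hmc hg hx hgx (by rw [← hoff x hx]; exact hxb) hqc hsep f hf

/-! ### The attempts -/

variable {m n : ℕ} {Lab : Type}

/-- data of the labels: centre and width of the annulus, the square `Q`, the blocked sites `Bl` and the
admissibility of a launch (a property of the component of the tip face, its outer colours and the tip) -/
structure LD (m n : ℕ) (Lab : Type) : Type where
  p : Lab → Fc
  w : Lab → ℕ
  Q : Lab → Finset (Fin m × Fin n)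
  Bl : Lab → Finset (Fin m × Fin n)
  Ad : Lab → Finset Fc → (Fc → Bool) → Pos → Prop

/-- the geometric hypotheses -/
structure LD.Ok (L : LD m n Lab) : Prop where
  /-- the annulus is disjoint from the blocked sites -/
  dj : ∀ κ, ∀ x ∈ L.Bl κ, em x ∉ annS (L.p κ) (L.w κ)
  /-- the blocked sites are connected -/
  conn : ∀ κ, ∀ x ∈ L.Bl κ, ∀ y ∈ L.Bl κ, Jn {f | ∃ z ∈ L.Bl κ, em z = f} (em x) (em y)
  /-- labels with a common site of the squares are nested -/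
  nest : ∀ κ1 κ2 v, v ∈ L.Q κ1 → v ∈ L.Q κ2 → L.Bl κ1 ⊆ L.Bl κ2 ∨
    (∀ x, em x ∈ annS (L.p κ2) (L.w κ2) → x ∈ L.Bl κ1)
  own : ∀ κ, L.Q κ ⊆ L.Bl κ
  ne : ∀ κ, (L.Q κ).Nonempty
  /-- admissibility is a property of the state -/
  loc : ∀ (κ : Lab) (D : Finset Fc) (Ω Ω' : Fc → Bool) (q : Pos),
    (∀ f, f ∉ D → tch ↑D f → Ω f = Ω' f) → L.Ad κ D Ω q → L.Ad κ D Ω' q
  h6 : ∀ κ D Ω q, D ⊆ box m n → St D Ω → IsTip D Ω q → (∀ x ∈ L.Bl κ, em x ∈ D) →
    L.Ad κ D Ω q → H6 m (L.p κ) (L.w κ) D Ω (ph q)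

/-- unexplored faces of a state of the main exploration -/
noncomputable def unS (ρ : Fin m × Fin n → Option Bool) : Finset Fc := by
  classical exact (box m n).filter (fun f => ∀ x, em x = f → ρ x = none)

/-- colours of a state of the main exploration -/
noncomputable def colS (ρ : Fin m × Fin n → Option Bool) : Fc → Bool :=
  ext m n (fun x => (ρ x).getD false)

/-- the attempts launched at a history -/
noncomputable def LD.tr [Fintype Lab] (L : LD m n Lab) : List (MS m n) → List Lab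
  | [] => []
  | s :: _ => by
      classical exact (Finset.univ.filter (fun κ => (∃ x ∈ L.Bl κ, em x = ph s.1) ∧
        (∀ x ∈ L.Bl κ, s.2 x = none) ∧
        L.Ad κ (comp (unS s.2) (ph s.1)) (colS s.2) s.1)).toList

theorem unS_rho (ω : Fin m × Fin n → Bool) (t : ℕ) : unS (rho ω t) = un ω t := by
  classical
  ext f
  unfold unS
  rw [Finset.mem_filter, mem_un]
  refine and_congr_right (fun hf => ?_)
  obtain ⟨x, rfl⟩ := exists_em hf
  constructor
  · intro h h1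
    have := h x rfl
    rw [rho_some h1] at this
    exact absurd this (by simp)
  · intro h y hy
    rw [em_inj hy]
    exact rho_none h

theorem colS_rho {ω : Fin m × Fin n → Bool} {t : ℕ} {f : Fc} (h : f ∉ un ω t) :
    colS (rho ω t) f = ext m n ω f := by
  refine ext_eq (fun x hx => ?_)
  have h1 : em x ∈ Rev (ext m n ω) p0 t := by
    by_contra h1
    exact h (mem_un.2 ⟨hx ▸ em_mem x, hx ▸ h1⟩)
  rw [rho_some h1]
  rfl

/-- faces touching a component of the unexplored faces are explored -/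
theorem tch_comp {B : Finset Fc} {z f : Fc} (h : f ∉ comp B z)
    (ht : tch (↑(comp B z) : Set Fc) f) : f ∉ B := by
  obtain ⟨g, h1, h2⟩ := ht
  exact fun h3 => h (comp_adj (by exact_mod_cast h1) h3 (adjF_symm h2))

theorem mem_tr [Fintype Lab] {L : LD m n Lab}
    (hloc : ∀ (κ : Lab) (D : Finset Fc) (Ω Ω' : Fc → Bool) (q : Pos),
      (∀ f, f ∉ D → tch ↑D f → Ω f = Ω' f) → L.Ad κ D Ω q → L.Ad κ D Ω' q)
    {ω : Fin m × Fin n → Bool} {t : ℕ} {κ : Lab} : κ ∈ L.tr (stL ω t) ↔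
      (∃ x ∈ L.Bl κ, em x = ph (orb (ext m n ω) p0 t)) ∧
      (∀ x ∈ L.Bl κ, em x ∉ Rev (ext m n ω) p0 t) ∧
      L.Ad κ (comp (un ω t) (ph (orb (ext m n ω) p0 t))) (ext m n ω) (orb (ext m n ω) p0 t) := by
  classical
  obtain ⟨l, hl⟩ := stL_cons ω t
  rw [hl]
  unfold LD.tr
  rw [Finset.mem_toList, Finset.mem_filter]
  show _ ∧ ((∃ x ∈ L.Bl κ, em x = ph (orb (ext m n ω) p0 t)) ∧ (∀ x ∈ L.Bl κ, rho ω t x = none) ∧
    L.Ad κ (comp (unS (rho ω t)) (ph (orb (ext m n ω) p0 t))) (colS (rho ω t))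
      (orb (ext m n ω) p0 t)) ↔ _
  rw [unS_rho]
  have h1 : (∀ x ∈ L.Bl κ, rho ω t x = none) ↔ ∀ x ∈ L.Bl κ, em x ∉ Rev (ext m n ω) p0 t := by
    refine forall_congr' (fun x => imp_congr_right (fun _ => ?_))
    constructor
    · intro h h1
      rw [rho_some h1] at h
      exact absurd h (by simp)
    · exact rho_none
  have h2 : L.Ad κ (comp (un ω t) (ph (orb (ext m n ω) p0 t))) (colS (rho ω t))
      (orb (ext m n ω) p0 t) ↔ L.Ad κ (comp (un ω t) (ph (orb (ext m n ω) p0 t))) (ext m n ω)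
      (orb (ext m n ω) p0 t) := by
    constructor
    · exact hloc _ _ _ _ _ (fun f hf ht => colS_rho (tch_comp hf ht))
    · exact hloc _ _ _ _ _ (fun f hf ht => (colS_rho (tch_comp hf ht)).symm)
  rw [h1, h2]
  simp

/-- the data of helper89 -/
noncomputable def LD.att [Fintype Lab] (L : LD m n Lab) (τ : Lab → DT (Fin m × Fin n)) :
    Att (Fin m × Fin n) Lab (mainE m n) where
  tr := L.tr
  A := fun κ => annF m n (L.p κ) (L.w κ)
  Q := L.Q
  Bl := L.Bl
  g := fun κ ω => ANN (L.p κ) (L.w κ) (ext m n ω)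
  τ := τ

theorem mem_annF' {p : Fc} {w : ℕ} {x : Fin m × Fin n} :
    x ∈ annF m n p w ↔ em x ∈ annS p w := mem_annF

/-- colours of the mixed configuration on unexplored faces -/
theorem ext_mix {ω η : Fin m × Fin n → Bool} {t : ℕ} {h : List (MS m n)}
    (hh : (mainE m n).hist ω t = some h) {f : Fc} (hf : f ∈ un ω t) :
    ext m n (mix ((mainE m n).expl h) ω η) f = ext m n ω f := by
  refine ext_eq (fun x hx => ?_)
  unfold mix
  rw [if_neg]
  intro h1
  exact (mem_un.1 hf).2 (hx ▸ (mem_expl' hh).1 h1)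

/-- the launch face is explored after the launch -/
theorem launched {ω : Fin m × Fin n → Bool} {t' t : ℕ} {x : Fin m × Fin n}
    (hx : em x = ph (orb (ext m n ω) p0 t')) (h : t' < t) : em x ∈ Rev (ext m n ω) p0 t :=
  Rev.mono h (Rev_succ_iff.2 (Or.inr hx))

/-- the main exploration runs until the exit from the box -/
theorem not_stopd_of_exit {ω : Fin m × Fin n → Bool} (hm : 1 ≤ m) (hn : 1 ≤ n) {N : ℕ}
    (hN : ExitAt (box m n) (ext m n ω) p0 N) : ∀ t ≤ N, ¬ stopd ω t := by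
  intro t ht hs
  rcases Nat.eq_zero_or_pos t with h | h
  · subst h
    exact hs.1 (Pool.Agent.H11.Tri.init m n _ hm hn (ext_bc ω)).2.1
  · have h1 := (inE_pe _ _).1 (hN.2.1 t h ht)
    rcases h1 with h1 | h1
    · exact hs.2.1 h1
    · exact hs.2.2 h1

/-- what the main exploration asks before the time `N` determines the crossing -/
theorem main_det (hm : 1 ≤ m) (hn : 1 ≤ n) {N : ℕ} {ω ω' : Fin m × Fin n → Bool}
    (hN : ∃ N0 ≤ N, ExitAt (box m n) (ext m n ω) p0 N0)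
    (h : ∀ t < N, ∀ y, (mainE m n).ask ω t = some y → ω' y = ω y) : crF m n ω' ↔ crF m n ω := by
  obtain ⟨N0, hN0, hex⟩ := hN
  refine (det m n (ext m n ω) (ext m n ω') hm hn (ext_bc ω) (ext_bc ω') N0 hex ?_).symm
  intro f hf
  refine ext_eq (fun x hx => ?_)
  subst hx
  obtain ⟨t', ht', h1, h2⟩ := exists_first hf (em_not_zero _ x)
  refine (h t' (by omega) x (ask_iff.2 ⟨fun s hs => ?_, h1.symm, h2⟩)).symm
  exact not_stopd_of_exit hm hn hex s (by omega)

/-- a bound for all the exit times -/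
theorem exists_Nmn (hm : 1 ≤ m) (hn : 1 ≤ n) : ∃ N0 : ℕ, ∀ ω : Fin m × Fin n → Bool,
    ∃ N ≤ N0, ExitAt (box m n) (ext m n ω) p0 N := by
  classical
  have h : ∀ ω : Fin m × Fin n → Bool, ∃ N, ExitAt (box m n) (ext m n ω) p0 N := fun ω =>
    Pool.Agent.H98.Tri.int1 (box m n) _ p0 (Pool.Agent.H11.Tri.init m n _ hm hn (ext_bc ω)).2
  choose N hN using h
  refine ⟨Finset.univ.sup N, fun ω => ⟨N ω, Finset.le_sup (Finset.mem_univ _), hN ω⟩⟩

/-- the blocked sites are in the peeled component of the tip face -/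
theorem bl_in_comp {L : LD m n Lab} (hL : L.Ok) {κ : Lab} {B : Finset Fc} {q : Pos} {c : Set Fc}
    (hB : ∀ x ∈ L.Bl κ, em x ∈ B) {y : Fin m × Fin n} (hy : y ∈ L.Bl κ) (hyq : em y = ph q)
    (hc : ∀ x ∈ L.Bl κ, em x ∉ c) :
    (∀ x ∈ L.Bl κ, em x ∈ comp B (ph q)) ∧ ∀ (D : Finset Fc) (Ω : Fc → Bool),
      (∀ x ∈ L.Bl κ, em x ∈ D) → ∀ x ∈ L.Bl κ, em x ∈ comp (D \ KC D Ω c) (ph q) := by
  have key : ∀ W : Finset Fc, (∀ x ∈ L.Bl κ, em x ∈ W) → ∀ x ∈ L.Bl κ, em x ∈ comp W (ph q) := by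
    intro W hW x hx
    refine mem_comp.2 ⟨hW x hx, ?_⟩
    rw [← hyq]
    refine (hL.conn κ y hy x hx).mono ?_
    rintro f ⟨z, hz, rfl⟩
    exact hW z hz
  refine ⟨key B hB, fun D Ω hD => key _ (fun x hx => Finset.mem_sdiff.2 ⟨hD x hx, fun h => ?_⟩)⟩
  exact hc x hx (mem_KC.1 h).2.1

/-- **GEO.** -/
theorem geo_hyp [Fintype Lab] {L : LD m n Lab} (hL : L.Ok) (hm : 1 ≤ m) (hn : 1 ≤ n)
    {τ : Lab → DT (Fin m × Fin n)}
    (hτ : ∀ κ, Decides (τ κ) (fun ω => ANN (L.p κ) (L.w κ) (ext m n ω)))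
    (ho : ∀ κ, Once (annF m n (L.p κ) (L.w κ)) (τ κ)) {N : ℕ}
    (hN : ∀ ω : Fin m × Fin n → Bool, ∃ N0 ≤ N, ExitAt (box m n) (ext m n ω) p0 N0) :
    (L.att τ).Hyp (crF m n) N where
  dec := hτ
  once := ho
  geo := by
    intro ω η t h κ hh hκ hg x hx hxe
    obtain ⟨hns, rfl⟩ := hist_iff.1 hh
    obtain ⟨⟨y, hy, hyq⟩, hfree, hAd⟩ := (mem_tr hL.loc).1 hκ
    set Ω := ext m n ω with hΩ
    set q := orb Ω p0 t with hq
    set D := comp (un ω t) (ph q) with hD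
    have hBun : ∀ x ∈ L.Bl κ, em x ∈ un ω t := fun x hx => mem_un.2 ⟨em_mem x, hfree x hx⟩
    have hqun : ph q ∈ un ω t := hyq ▸ hBun y hy
    have hStD : St D Ω := St_un hm hn ω t _ hqun
    have hqT : IsTip D Ω q := tip_un hm hn ω t hqun
    set c : Set Fc := {z | z ∈ annS (L.p κ) (L.w κ) ∧
      ext m n (mix ((mainE m n).expl (stL ω t)) ω η) z = true} with hc
    have hcB : ∀ x ∈ L.Bl κ, em x ∉ c := fun x hx h => hL.dj κ x hx h.1
    obtain ⟨hBD, hBZ⟩ := bl_in_comp hL hBun hy hyq hcB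
    have hDun : ∀ a ∈ D, a ∈ un ω t := fun a ha => comp_sub _ _ ha
    have hDbox : D ⊆ box m n := fun a ha => (mem_un.1 (hDun a ha)).1
    have hcD : ∀ f ∈ D, f ∈ c → Ω f = true := by
      intro f hf hfc
      have h1 := hfc.2
      rw [ext_mix hh (hDun f hf)] at h1
      exact h1
    set Z := comp (D \ KC D Ω c) (ph q) with hZ
    have hqc : ph q ∉ KC D Ω c := by
      intro h
      rw [← hyq] at h
      exact hcB y hy (mem_KC.1 h).2.1
    have hStZ : St Z Ω := St_KC hStD hcD hqT.1 hqc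
    have hZD : ∀ a ∈ Z, a ∈ D := fun a ha => (Finset.mem_sdiff.1 (comp_sub _ _ ha)).1
    have hright : ∀ f ∈ Z, f.1 ≠ (m : ℤ) - 1 :=
      hL.h6 κ D Ω q hDbox hStD hqT hBD hAd c (fun z hz => hz.1) (bls_ann hg)
    have hxZ : em x ∈ Z := hBZ D Ω hBD x hx
    have key : ∀ u : Fin m × Fin n → Bool, (∀ z, z ≠ x → u z = ω z) →
        (crF m n ω ↔ crF m n u) := by
      intro u hu
      refine irr m n Ω (ext m n u) hm hn (ext_bc _) (ext_bc _) ↑Z ?_ ?_ ?_
      · intro f hf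
        have hf' : f ∈ Z := by exact_mod_cast hf
        exact ⟨hDbox (hZD f hf'), hright f hf'⟩
      · intro f hf
        refine ext_eq (fun z hz => (hu z ?_).symm)
        rintro rfl
        exact hf (by rw [← hz]; exact_mod_cast hxZ)
      · intro f g hf hg h1 h2 h3 h4
        have h5 := hStZ.cc f g (fun h => hf (by exact_mod_cast h)) (fun h => hg (by exact_mod_cast h))
          h1 h2 (by rw [h3, h4])
        refine h5.mono ?_
        rintro a ⟨ha, hb⟩
        exact ⟨fun h => ha (by exact_mod_cast h), by rw [hb]; exact h3⟩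
    refine (key _ (fun z hz => ?_)).symm.trans (key _ (fun z hz => ?_))
    · unfold Function.update; rw [dif_neg hz]
    · unfold Function.update; rw [dif_neg hz]
  det := fun ω ω' h => main_det hm hn (hN ω) h
  inj := main_inj
  disj := by
    intro ω t' t h' h κ1 κ2 v htt hh' hh h1 h2 hv1 hv2 x hx1 hx2
    obtain ⟨_, rfl⟩ := hist_iff.1 hh'
    obtain ⟨_, rfl⟩ := hist_iff.1 hh
    obtain ⟨⟨y, hy, hyq⟩, _, _⟩ := (mem_tr hL.loc).1 h1
    obtain ⟨_, hfree, _⟩ := (mem_tr hL.loc).1 h2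
    have hx1' : em x ∈ annS (L.p κ1) (L.w κ1) := mem_annF'.1 hx1
    have hx2' : em x ∈ annS (L.p κ2) (L.w κ2) := mem_annF'.1 hx2
    rcases hL.nest κ1 κ2 v hv1 hv2 with h3 | h3
    · exact hfree y (h3 hy) (launched hyq htt)
    · exact hL.dj κ1 x (h3 x hx2') hx1'
  enc := by
    intro ω η t' t h' h κ1 κ2 v htt hh' hh h1 h2 hv1 hv2 _ x hx _
    obtain ⟨_, rfl⟩ := hist_iff.1 hh'
    obtain ⟨_, rfl⟩ := hist_iff.1 hh
    obtain ⟨⟨y, hy, hyq⟩, _, _⟩ := (mem_tr hL.loc).1 h1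
    obtain ⟨_, hfree, _⟩ := (mem_tr hL.loc).1 h2
    have hx' : em x ∈ annS (L.p κ2) (L.w κ2) := mem_annF'.1 hx
    rcases hL.nest κ1 κ2 v hv1 hv2 with h3 | h3
    · exact absurd (launched hyq htt) (hfree y (h3 hy))
    · exact h3 x hx'
  own := hL.own
  ne := hL.ne

end Pool.Agent.H74.Tri
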