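import Pool.Agent.H74.Tri.Hex

set_option autoImplicit false

/-! MP_2e6055, topology of exploration on the triangular lattice (helper74), 3: states, interface.
Colours: `true` = black, `false` = white.  `ω : Fc → Bool` is always a colouring of ALL faces
(off the box: the boundary condition). -/

namespace Pool.Agent.H74.Tri

open Pool.Agent.H7.UC

/-- colour change on the boundary of `U` -/
def chg (U : Finset Fc) (ω : Fc → Bool) (v : Vx) : Prop :=
  ∃ k, fc v k ∈ U ∧ fc v (k + 1) ∉ U ∧ fc v (k + 2) ∉ U ∧ ω (fc v (k + 1)) ≠ ω (fc v (k + 2))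

/-- a state: a domain with at most two colour changes of the faces touching it; the touching faces of
one colour are joined by faces of this colour outside -/
structure St (U : Finset Fc) (ω : Fc → Bool) : Prop where
  dom : IsDom U
  two : ∀ a b c, chg U ω a → chg U ω b → chg U ω c → a = b ∨ a = c ∨ b = c
  cc : ∀ f g, f ∉ U → g ∉ U → tch ↑U f → tch ↑U g → ω f = ω g →
    Jn {a | a ∉ U ∧ ω a = ω f} f g

/-- position of an interface: it has just traversed the edge `ed v k` and stands at its end `v`;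
left face `fc v (k+1)`, right face `fc v (k+2)`, face ahead `fc v k` -/
abbrev Pos := Vx × Fin 3

/-- left face -/
def pl (p : Pos) : Fc := fc p.1 (p.2 + 1)
/-- right face -/
def pr (p : Pos) : Fc := fc p.1 (p.2 + 2)
/-- face ahead -/
def ph (p : Pos) : Fc := fc p.1 p.2
/-- the traversed edge -/
def pe (p : Pos) : Ed := ed p.1 p.2
/-- the face behind (third face at the other end of the edge) -/
def pb (p : Pos) : Fc := fc (nb p.1 p.2) p.2

/-- left black, right white -/
def Bi (ω : Fc → Bool) (p : Pos) : Prop := ω (pl p) = true ∧ ω (pr p) = false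

/-- one step of the interface -/
def stp (ω : Fc → Bool) (p : Pos) : Pos :=
  if ω (ph p) = true then (nb p.1 (p.2 + 1), p.2 + 1) else (nb p.1 (p.2 + 2), p.2 + 2)

/-- the interface from `p` -/
def orb (ω : Fc → Bool) (p : Pos) (n : ℕ) : Pos := (stp ω)^[n] p

/-- the interface enters `U` at `p` -/
def IsTip (U : Finset Fc) (ω : Fc → Bool) (p : Pos) : Prop :=
  ph p ∈ U ∧ pl p ∉ U ∧ pr p ∉ U ∧ Bi ω p

/-- the interface has left `U` at `p` -/
def IsExit (U : Finset Fc) (ω : Fc → Bool) (p : Pos) : Prop :=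
  pb p ∈ U ∧ pl p ∉ U ∧ pr p ∉ U ∧ Bi ω p

/-- the faces touched by the first `n + 1` edges of the interface -/
def Rev (ω : Fc → Bool) (p : Pos) (n : ℕ) : Set Fc :=
  {f | ∃ i, i ≤ n ∧ (f = pl (orb ω p i) ∨ f = pr (orb ω p i))}

/-- `n` is the exit time of `U` from the tip `p` -/
def ExitAt (U : Finset Fc) (ω : Fc → Bool) (p : Pos) (n : ℕ) : Prop :=
  1 ≤ n ∧ (∀ i, 1 ≤ i → i ≤ n → inE U (pe (orb ω p i))) ∧ IsExit U ω (orb ω p (n + 1))

theorem orb_zero (ω : Fc → Bool) (p : Pos) : orb ω p 0 = p := rfl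

theorem orb_succ (ω : Fc → Bool) (p : Pos) (n : ℕ) : orb ω p (n + 1) = stp ω (orb ω p n) := by
  unfold orb
  rw [Function.iterate_succ_apply']

theorem orb_add (ω : Fc → Bool) (p : Pos) (m n : ℕ) : orb ω p (m + n) = orb ω (orb ω p m) n := by
  unfold orb
  rw [add_comm, Function.iterate_add_apply]

theorem stp_black {ω : Fc → Bool} {p : Pos} (h : ω (ph p) = true) :
    pl (stp ω p) = ph p ∧ pr (stp ω p) = pr p := by
  unfold stp
  rw [if_pos h]
  obtain ⟨v, k⟩ := p
  refine ⟨?_, ?_⟩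
  · show fc (nb v (k + 1)) (k + 1 + 1) = fc v k
    rw [fc_nb1]
    congr 1
    fin_cases k <;> rfl
  · show fc (nb v (k + 1)) (k + 1 + 2) = fc v (k + 2)
    rw [fc_nb2]
    congr 1
    fin_cases k <;> rfl

theorem stp_white {ω : Fc → Bool} {p : Pos} (h : ω (ph p) = false) :
    pl (stp ω p) = pl p ∧ pr (stp ω p) = ph p := by
  unfold stp
  rw [if_neg (by simp [h])]
  obtain ⟨v, k⟩ := p
  refine ⟨?_, ?_⟩
  · show fc (nb v (k + 2)) (k + 2 + 1) = fc v (k + 1)
    rw [fc_nb1]
    congr 1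
    fin_cases k <;> rfl
  · show fc (nb v (k + 2)) (k + 2 + 2) = fc v k
    rw [fc_nb2]
    congr 1
    fin_cases k <;> rfl

theorem Bi.stp {ω : Fc → Bool} {p : Pos} (h : Bi ω p) : Bi ω (stp ω p) := by
  cases hp : ω (ph p)
  · obtain ⟨h1, h2⟩ := stp_white hp
    exact ⟨by rw [h1]; exact h.1, by rw [h2]; exact hp⟩
  · obtain ⟨h1, h2⟩ := stp_black hp
    exact ⟨by rw [h1]; exact hp, by rw [h2]; exact h.2⟩

theorem Bi.orb {ω : Fc → Bool} {p : Pos} (h : Bi ω p) (n : ℕ) : Bi ω (orb ω p n) := by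
  induction n with
  | zero => exact h
  | succ n ih => rw [orb_succ]; exact ih.stp

theorem pe_faces (p : Pos) : (lf (pe p) = pl p ∧ rf (pe p) = pr p) ∨
    (lf (pe p) = pr p ∧ rf (pe p) = pl p) := ed_faces p.1 p.2

theorem inE_pe (U : Finset Fc) (p : Pos) : inE U (pe p) ↔ pl p ∈ U ∨ pr p ∈ U :=
  inE_iff_ed U p.1 p.2

theorem adj_lr (p : Pos) : adjF (pl p) (pr p) := adjF_fc _ (by
  intro h
  have : ∀ k : Fin 3, k + 1 ≠ k + 2 := by decide
  exact this _ h)

theorem adj_hl (p : Pos) : adjF (ph p) (pl p) := adjF_fc _ (by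
  intro h
  have : ∀ k : Fin 3, k ≠ k + 1 := by decide
  exact this _ h)

theorem adj_hr (p : Pos) : adjF (ph p) (pr p) := adjF_fc _ (by
  intro h
  have : ∀ k : Fin 3, k ≠ k + 2 := by decide
  exact this _ h)

/-- the previous position is determined by the colour of the face behind -/
theorem stp_pred {ω : Fc → Bool} {p : Pos} (h : Bi ω p) : ω (pb (stp ω p)) = ω (ph p) ∧
    p = (nb (stp ω p).1 (stp ω p).2,
      if ω (pb (stp ω p)) = true then (stp ω p).2 + 2 else (stp ω p).2 + 1) := by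
  obtain ⟨v, k⟩ := p
  have e1 : ∀ k : Fin 3, k + 1 + 2 = k := by decide
  have e2 : ∀ k : Fin 3, k + 2 + 1 = k := by decide
  cases hp : ω (ph (v, k))
  · have hs : stp ω (v, k) = (nb v (k + 2), k + 2) := by
      unfold stp; rw [if_neg (by simp [hp])]
    have hb : pb (stp ω (v, k)) = pr (v, k) := by
      rw [hs]; show fc (nb (nb v (k + 2)) (k + 2)) (k + 2) = _; rw [nb_nb]; rfl
    rw [hb, h.2]
    refine ⟨rfl, ?_⟩
    rw [hs]
    simp only [nb_nb, e2]
    simp
  · have hs : stp ω (v, k) = (nb v (k + 1), k + 1) := by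
      unfold stp; rw [if_pos hp]
    have hb : pb (stp ω (v, k)) = pl (v, k) := by
      rw [hs]; show fc (nb (nb v (k + 1)) (k + 1)) (k + 1) = _; rw [nb_nb]; rfl
    rw [hb, h.1]
    refine ⟨rfl, ?_⟩
    rw [hs]
    simp only [nb_nb, e1]
    simp

theorem stp_inj {ω : Fc → Bool} {p q : Pos} (hp : Bi ω p) (hq : Bi ω q) (h : stp ω p = stp ω q) :
    p = q := by
  rw [(stp_pred hp).2, (stp_pred hq).2, h]

theorem orb_inj {ω : Fc → Bool} {p q : Pos} (hp : Bi ω p) (hq : Bi ω q) {n : ℕ}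
    (h : orb ω p n = orb ω q n) : p = q := by
  induction n with
  | zero => exact h
  | succ n ih =>
    rw [orb_succ, orb_succ] at h
    exact ih (stp_inj (hp.orb n) (hq.orb n) h)

end Pool.Agent.H74.Tri
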