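import Pool.Agent.H74.Tri.Iface
import Pool.Agent.H63.UC.MD1

set_option autoImplicit false

/-! MP_2e6055, module TOP (helper74): Peel and PeelK. -/

namespace Pool.Agent.H74.Tri

open Pool.Agent.H7.UC

/-- the other face of an edge at the hexagon `s` -/
theorem bd_eg (σ : Set Fc) (s : Fc) (m : Fin 6) :
    bd σ (eg s m) = ind σ s + ind σ (nbr s m) := by
  unfold bd
  rcases eg_faces s m with ⟨h1, h2⟩ | ⟨h1, h2⟩
  · rw [h1, h2]
  · rw [h1, h2, add_comm]

/-- the cut lemma: a chain `A` in `U` with ends in `U'` takes the same value on all edges between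
`s` and the outside of `U`. -/
theorem cut1 {U : Finset Fc} (hU : IsDom U) {U' : Finset Fc} (h' : U' ⊆ U) {s : Fc}
    (hs' : s ∉ U') {m1 m2 : Fin 6} (hy1 : nbr s m1 ∉ U) (hy2 : nbr s m2 ∉ U)
    {A : Ed → ZMod 2} (hA : ∀ e, A e ≠ 0 → inE U e) {p q : Vx}
    (hdv : ∀ v, dv A v = ind ({p} : Set Vx) v + ind ({q} : Set Vx) v) (hP : Rp U' p q)
    (h1 : A (eg s m1) = 1) (h2 : A (eg s m2) = 0) : False := by
  obtain ⟨P, hP1, hP2⟩ := hP
  have hPs : ∀ m, nbr s m ∉ U → P (eg s m) = 0 := by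
    intro m hm
    by_contra hn
    have := hP1 _ hn
    rw [inE_eg] at this
    rcases this with h | h
    · exact hs' h
    · exact hm (h' h)
  obtain ⟨σ, hσ, hx⟩ := Pool.Agent.H63.UC.d1 U hU (fun e => A e + P e)
    (by
      intro e he
      by_contra hn
      have e1 : A e = 0 := by by_contra h; exact hn (hA e h)
      have e2 : P e = 0 := by
        by_contra h
        exact hn ((hP1 e h).imp (fun h => h' h) (fun h => h' h))
      exact he (by show A e + P e = 0; rw [e1, e2, add_zero]))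
    (by
      intro v
      rw [dv_add, hdv, hP2]
      exact two_zmod _)
  have a1 := hx (eg s m1)
  have a2 := hx (eg s m2)
  have b1 : ind (↑σ : Set Fc) (nbr s m1) = 0 := ind_not (fun h => hy1 (hσ (by exact_mod_cast h)))
  have b2 : ind (↑σ : Set Fc) (nbr s m2) = 0 := ind_not (fun h => hy2 (hσ (by exact_mod_cast h)))
  rw [bd_eg, hPs m1 hy1, h1, b1] at a1
  rw [bd_eg, hPs m2 hy2, h2, b2] at a2
  rw [← a2] at a1
  exact absurd a1 (by decide)

/-- arc from the vertex `a` to the vertex `b - 1` -/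
def TT (a b x : Fin 6) : ZMod 2 := if 0 < (x - a).val ∧ (x - a).val < (b - a).val then 1 else 0

theorem TT_sum : ∀ a b x : Fin 6, a ≠ b → TT a b x + TT a b (x + 1) =
    (if x = a then 1 else 0) + (if x = b - 1 then 1 else 0) := by
  unfold TT
  decide

theorem TT_dv (s : Fc) {a b : Fin 6} (hab : a ≠ b) (v : Vx) : dv (arc s (TT a b)) v =
    ind ({vtx s a} : Set Vx) v + ind ({vtx s (b - 1)} : Set Vx) v := by
  rw [arc_dv]
  have : ∀ m : Fin 6, (TT a b m + TT a b (m + 1)) * ind ({vtx s m} : Set Vx) v =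
      (if m = a then ind ({vtx s m} : Set Vx) v else 0) +
      (if m = b - 1 then ind ({vtx s m} : Set Vx) v else 0) := by
    intro m
    rw [TT_sum a b m hab]
    split_ifs <;> ring
  rw [Finset.sum_congr rfl fun m _ => this m, Finset.sum_add_distrib]
  simp

/-- contiguity -/
theorem contigG {U : Finset Fc} (hU : IsDom U) {U' : Finset Fc} (h' : U' ⊆ U) {s z : Fc} (hs : s ∈ U)
    (hs' : s ∉ U') (hz : z ∈ U') (hc : ∀ f ∈ U', Jn (↑U' : Set Fc) z f) {a b j1 j2 : Fin 6}
    (hab : a ≠ b) (ha : nbr s a ∈ U') (hb : nbr s b ∈ U') (h1 : nbr s j1 ∉ U) (h2 : nbr s j2 ∉ U)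
    (t1 : TT a b j1 = 1) (t2 : TT a b j2 = 0) : False := by
  refine cut1 hU h' hs' h1 h2 (A := arc s (TT a b)) (fun e he => arc_supp hs _ e he)
    (TT_dv s hab) ?_ (by rw [arc_eg]; exact t1) (by rw [arc_eg]; exact t2)
  refine Rp.conn hz hc ⟨kx a + 1, ?_⟩ ⟨kx (b - 1) + 2, ?_⟩
  · rw [(vtx_fc s a).2.1]; exact ha
  · rw [(vtx_fc s (b - 1)).2.2]
    have : ∀ b : Fin 6, b - 1 + 1 = b := by decide
    rw [this]; exact hb

theorem TT_AB : ∀ m m' : Fin 6, m ≠ m' → m + 1 ≠ m' → TT m m' (m + 1) = 1 ∧ TT m m' (m' + 1) = 0 := by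
  unfold TT
  decide

theorem TT_BA : ∀ m m' : Fin 6, m ≠ m' → m + 1 ≠ m' → TT (m + 1) (m' + 1) m' = 1 ∧
    TT (m + 1) (m' + 1) m = 0 := by
  unfold TT
  decide

/-- boundary edges with outer face of colour `d` -/
noncomputable def cd (U : Finset Fc) (ω : Fc → Bool) (d : Bool) (e : Ed) : ZMod 2 := by
  classical exact
  (if lf e ∈ U ∧ rf e ∉ U ∧ ω (rf e) = d then 1 else 0) +
  (if rf e ∈ U ∧ lf e ∉ U ∧ ω (lf e) = d then 1 else 0)

theorem cd_supp {U : Finset Fc} {ω : Fc → Bool} {d : Bool} {e : Ed} (h : cd U ω d e ≠ 0) :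
    inE U e := by
  classical
  by_contra hn
  unfold inE at hn
  push Not at hn
  apply h
  unfold cd
  rw [if_neg (fun h => hn.1 h.1), if_neg (fun h => hn.2 h.1), add_zero]

theorem cd_ed (U : Finset Fc) (ω : Fc → Bool) (d : Bool) (v : Vx) (k : Fin 3) [DecidablePred (· ∈ U)] :
    cd U ω d (ed v k) =
    (if fc v (k + 1) ∈ U ∧ fc v (k + 2) ∉ U ∧ ω (fc v (k + 2)) = d then 1 else 0) +
    (if fc v (k + 2) ∈ U ∧ fc v (k + 1) ∉ U ∧ ω (fc v (k + 1)) = d then 1 else 0) := by
  classical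
  unfold cd
  rcases ed_faces v k with ⟨h1, h2⟩ | ⟨h1, h2⟩
  · rw [h1, h2]
    congr
  · rw [h1, h2, add_comm]
    congr

theorem cd_eg_out {U : Finset Fc} {ω : Fc → Bool} {d : Bool} {s : Fc} (hs : s ∈ U) {m : Fin 6}
    (hm : nbr s m ∉ U) : cd U ω d (eg s m) = if ω (nbr s m) = d then 1 else 0 := by
  classical
  unfold cd
  rcases eg_faces s m with ⟨h1, h2⟩ | ⟨h1, h2⟩
  · rw [h1, h2]; simp [hs, hm]
  · rw [h1, h2]; simp [hs, hm]

theorem cd_bool : ∀ p0 p1 p2 q0 q1 q2 : Bool,
    (((if p1 = true ∧ ¬ p2 = true ∧ q2 = true then (1 : ZMod 2) else 0) +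
      (if p2 = true ∧ ¬ p1 = true ∧ q1 = true then 1 else 0)) +
     ((if p2 = true ∧ ¬ p0 = true ∧ q0 = true then 1 else 0) +
      (if p0 = true ∧ ¬ p2 = true ∧ q2 = true then 1 else 0)) +
     ((if p0 = true ∧ ¬ p1 = true ∧ q1 = true then 1 else 0) +
      (if p1 = true ∧ ¬ p0 = true ∧ q0 = true then 1 else 0))) =
    if (p0 = true ∧ ¬ p1 = true ∧ ¬ p2 = true ∧ q1 ≠ q2) ∨
       (p1 = true ∧ ¬ p2 = true ∧ ¬ p0 = true ∧ q2 ≠ q0) ∨
       (p2 = true ∧ ¬ p0 = true ∧ ¬ p1 = true ∧ q0 ≠ q1) then 1 else 0 := by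
  decide

theorem chg_iff (U : Finset Fc) (ω : Fc → Bool) (v : Vx) : chg U ω v ↔
    ((fc v 0 ∈ U ∧ fc v 1 ∉ U ∧ fc v 2 ∉ U ∧ ω (fc v 1) ≠ ω (fc v 2)) ∨
     (fc v 1 ∈ U ∧ fc v 2 ∉ U ∧ fc v 0 ∉ U ∧ ω (fc v 2) ≠ ω (fc v 0)) ∨
     (fc v 2 ∈ U ∧ fc v 0 ∉ U ∧ fc v 1 ∉ U ∧ ω (fc v 0) ≠ ω (fc v 1))) := by
  constructor
  · rintro ⟨k, h⟩
    fin_cases k
    · exact Or.inl h
    · exact Or.inr (Or.inl h)
    · exact Or.inr (Or.inr h)
  · rintro (h | h | h)
    · exact ⟨0, h⟩
    · exact ⟨1, h⟩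
    · exact ⟨2, h⟩

theorem bool_eq_ne (a b d : Bool) : (decide (a = d) ≠ decide (b = d)) ↔ a ≠ b := by
  cases a <;> cases b <;> cases d <;> simp

theorem cd_dv (U : Finset Fc) (ω : Fc → Bool) (d : Bool) (v : Vx) [Decidable (chg U ω v)] :
    dv (cd U ω d) v = if chg U ω v then 1 else 0 := by
  classical
  have h := cd_bool (decide (fc v 0 ∈ U)) (decide (fc v 1 ∈ U)) (decide (fc v 2 ∈ U))
    (decide (ω (fc v 0) = d)) (decide (ω (fc v 1) = d)) (decide (ω (fc v 2) = d))
  have e1 : (0 : Fin 3) + 1 = 1 := rfl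
  have e2 : (0 : Fin 3) + 2 = 2 := rfl
  have e3 : (1 : Fin 3) + 1 = 2 := rfl
  have e4 : (1 : Fin 3) + 2 = 0 := rfl
  have e5 : (2 : Fin 3) + 1 = 0 := rfl
  have e6 : (2 : Fin 3) + 2 = 1 := rfl
  unfold dv
  rw [cd_ed, cd_ed, cd_ed, e1, e2, e3, e4, e5, e6]
  simp only [decide_eq_true_eq, bool_eq_ne] at h
  rw [h]
  by_cases hc : chg U ω v
  · rw [if_pos hc, if_pos ((chg_iff U ω v).1 hc)]
  · rw [if_neg hc, if_neg (fun h => hc ((chg_iff U ω v).2 h))]

/-- the number of colour changes is even -/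
theorem even_chg (U : Finset Fc) (ω : Fc → Bool) [DecidablePred (chg U ω)] :
    Even ((verts U).filter (chg U ω)).card := by
  have h := sum_dv (U := U) (x := cd U ω true) (fun e he => cd_supp he)
  rw [Finset.sum_congr rfl (fun v _ => cd_dv U ω true v)] at h
  rw [← Finset.sum_filter, Finset.sum_const, nsmul_eq_mul, mul_one] at h
  exact (ZMod.natCast_eq_zero_iff_even).1 h

theorem chg_inV {U : Finset Fc} {ω : Fc → Bool} {v : Vx} (h : chg U ω v) : inV U v := by
  obtain ⟨k, h, _⟩ := h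
  exact ⟨k, h⟩

theorem peel : Peel := by
  classical
  intro U ω hU s hs x hx hsx hωx z hz hzs
  set U' := comp (U \ {s}) z with hU'
  have hzU : z ∈ U \ {s} := by simp [hz, hzs]
  have hsub : U' ⊆ U := fun f hf => (Finset.mem_sdiff.1 (comp_sub _ _ hf)).1
  have hs' : s ∉ U' := fun h => by
    have := (Finset.mem_sdiff.1 (comp_sub _ _ h)).2
    simp at this
  have hz' : z ∈ U' := mem_comp_self hzU
  have hc' : ∀ f ∈ U', Jn (↑U' : Set Fc) z f := fun f hf => comp_jn hf
  have hclos : ∀ f g, f ∈ U' → g ∈ U → g ≠ s → adjF f g → g ∈ U' := by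
    intro f g hf hg hgs h
    exact comp_adj hf (by simp [hg, hgs]) h
  obtain ⟨mx, hmx⟩ := adjF_nbr hsx
  subst hmx
  -- classification of the changes
  set EAB : Vx → Prop := fun v => ∃ m, v = vtx s m ∧ nbr s m ∈ U' ∧ nbr s (m + 1) ∉ U ∧
    ω (nbr s (m + 1)) ≠ ω s with hEAB
  set EBA : Vx → Prop := fun v => ∃ m, v = vtx s m ∧ nbr s (m + 1) ∈ U' ∧ nbr s m ∉ U ∧
    ω (nbr s m) ≠ ω s with hEBA
  have e12 : ∀ k : Fin 3, k + 1 + 1 = k + 2 := by decide
  have e13 : ∀ k : Fin 3, k + 1 + 2 = k := by decide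
  have e21 : ∀ k : Fin 3, k + 2 + 1 = k := by decide
  have e22 : ∀ k : Fin 3, k + 2 + 2 = k + 1 := by decide
  have k01 : ∀ k : Fin 3, k ≠ k + 1 := by decide
  have k02 : ∀ k : Fin 3, k ≠ k + 2 := by decide
  have class1 : ∀ v, chg U' ω v → (chg U ω v ∧ inV U' v) ∨ EAB v ∨ EBA v := by
    rintro v ⟨k, h1, h2, h3, h4⟩
    by_cases g1 : fc v (k + 1) = s
    · -- g = s
      have h5 : fc v (k + 2) ∉ U := by
        intro h
        refine h3 (hclos _ _ h1 h ?_ (adjF_fc v (k02 k)))
        intro h6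
        have := (fc_inj v (k + 1) (k + 2)).1 (g1.trans h6.symm)
        have : ∀ k : Fin 3, k + 1 ≠ k + 2 := by decide
        exact this _ (by assumption)
      obtain ⟨m, hm1, hm2⟩ := eq_vtx v (k + 1)
      rw [g1] at hm1
      have a1 := (vtx_fc s m).2.1
      have a2 := (vtx_fc s m).2.2
      rw [← hm1, ← hm2, e12] at a1
      rw [← hm1, ← hm2, e13] at a2
      refine Or.inr (Or.inr ⟨m, hm1, by rw [← a2]; exact h1, by rw [← a1]; exact h5, ?_⟩)
      rw [← a1, ← g1]
      exact h4.symm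
    · have h5 : fc v (k + 1) ∉ U := fun h => h2 (hclos _ _ h1 h g1 (adjF_fc v (k01 k)))
      by_cases g2 : fc v (k + 2) = s
      · obtain ⟨m, hm1, hm2⟩ := eq_vtx v (k + 2)
        rw [g2] at hm1
        have a1 := (vtx_fc s m).2.1
        have a2 := (vtx_fc s m).2.2
        rw [← hm1, ← hm2, e21] at a1
        rw [← hm1, ← hm2, e22] at a2
        refine Or.inr (Or.inl ⟨m, hm1, by rw [← a1]; exact h1, by rw [← a2]; exact h5, ?_⟩)
        rw [← a2, ← g2]
        exact h4
      · have h6 : fc v (k + 2) ∉ U := fun h => h3 (hclos _ _ h1 h g2 (adjF_fc v (k02 k)))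
        exact Or.inl ⟨⟨k, hsub h1, h5, h6, h4⟩, ⟨k, h1⟩⟩
  have uAB : ∀ v w, EAB v → EAB w → v = w := by
    rintro v w ⟨m, rfl, h1, h2, h3⟩ ⟨m', rfl, h1', h2', h3'⟩
    by_contra hne
    have hmm : m ≠ m' := fun h => hne (by rw [h])
    have hmm1 : m + 1 ≠ m' := fun h => h2 (by rw [h]; exact hsub h1')
    obtain ⟨t1, t2⟩ := TT_AB m m' hmm hmm1
    exact contigG hU.dom hsub hs hs' hz' hc' hmm h1 h1' h2 h2' t1 t2
  have uBA : ∀ v w, EBA v → EBA w → v = w := by
    rintro v w ⟨m, rfl, h1, h2, h3⟩ ⟨m', rfl, h1', h2', h3'⟩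
    by_contra hne
    have hmm : m ≠ m' := fun h => hne (by rw [h])
    have hmm1 : m + 1 ≠ m' := fun h => h2' (by rw [← h]; exact hsub h1)
    obtain ⟨t1, t2⟩ := TT_BA m m' hmm hmm1
    have hmm2 : m + 1 ≠ m' + 1 := fun h => hmm (by simpa using h)
    exact contigG hU.dom hsub hs hs' hz' hc' hmm2 h1 h1' h2' h2 t1 t2
  -- if `s` touches the other colour outside, not two changes of `U` are on `U'`
  have other : ∀ m, nbr s m ∉ U → ω (nbr s m) ≠ ω s → ∀ a b, chg U ω a → inV U' a → chg U ω b →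
      inV U' b → a = b := by
    intro m hm hωm a b ha ha' hb hb'
    by_contra hab
    refine cut1 hU.dom hsub hs' hm hx (A := cd U ω (ω (nbr s m))) (fun e he => cd_supp he)
      (p := a) (q := b) ?_ (Rp.conn hz' hc' ha' hb') ?_ ?_
    · intro v
      rw [cd_dv]
      by_cases hv : chg U ω v
      · rw [if_pos hv]
        rcases hU.two v a b hv ha hb with h | h | h
        · rw [h, ind_mem (by simp), ind_not (by simpa using hab), add_zero]
        · rw [h, ind_not (by simpa using (Ne.symm hab)), ind_mem (by simp), zero_add]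
        · exact absurd h hab
      · rw [if_neg hv, ind_not (by rintro rfl; exact hv ha), ind_not (by rintro rfl; exact hv hb),
          add_zero]
    · rw [cd_eg_out hs hm, if_pos rfl]
    · rw [cd_eg_out hs hx, if_neg]
      rw [← hωx]
      exact hωm.symm
  refine ⟨isDom_comp hU.dom {s} ?_ hz (by simpa using hzs), ?_, ?_⟩
  · intro f hf
    rw [Finset.mem_singleton] at hf
    subst hf
    exact ⟨f, Jn.refl _, _, hx, hsx⟩
  · -- two
    have hev := even_chg U' ω
    have hcard : ((verts U').filter (chg U' ω)).card ≤ 3 := by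
      have hsplit : (verts U').filter (chg U' ω) ⊆
          (((verts U').filter (chg U' ω)).filter (fun v => chg U ω v ∧ inV U' v)) ∪
          ((((verts U').filter (chg U' ω)).filter EAB) ∪
          (((verts U').filter (chg U' ω)).filter EBA)) := by
        intro v hv
        rcases class1 v (Finset.mem_filter.1 hv).2 with h | h | h
        · exact Finset.mem_union_left _ (Finset.mem_filter.2 ⟨hv, h⟩)
        · exact Finset.mem_union_right _ (Finset.mem_union_left _ (Finset.mem_filter.2 ⟨hv, h⟩))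
        · exact Finset.mem_union_right _ (Finset.mem_union_right _ (Finset.mem_filter.2 ⟨hv, h⟩))
      have c1 : (((verts U').filter (chg U' ω)).filter EAB).card ≤ 1 :=
        Finset.card_le_one.2 fun v hv w hw => uAB v w (Finset.mem_filter.1 hv).2
          (Finset.mem_filter.1 hw).2
      have c2 : (((verts U').filter (chg U' ω)).filter EBA).card ≤ 1 :=
        Finset.card_le_one.2 fun v hv w hw => uBA v w (Finset.mem_filter.1 hv).2
          (Finset.mem_filter.1 hw).2
      have c3 : (((verts U').filter (chg U' ω)).filter (fun v => chg U ω v ∧ inV U' v)).card ≤ 2 := by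
        by_contra hlt
        push Not at hlt
        obtain ⟨a, ha, b, hb, c, hc, hab, hac, hbc⟩ := Finset.two_lt_card.1 hlt
        rcases hU.two a b c (Finset.mem_filter.1 ha).2.1 (Finset.mem_filter.1 hb).2.1
          (Finset.mem_filter.1 hc).2.1 with h | h | h
        · exact hab h
        · exact hac h
        · exact hbc h
      have c4 := Finset.card_le_card hsplit
      have c5 := Finset.card_union_le
        (((verts U').filter (chg U' ω)).filter (fun v => chg U ω v ∧ inV U' v))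
        ((((verts U').filter (chg U' ω)).filter EAB) ∪
          (((verts U').filter (chg U' ω)).filter EBA))
      have c6 := Finset.card_union_le (((verts U').filter (chg U' ω)).filter EAB)
          (((verts U').filter (chg U' ω)).filter EBA)
      by_cases hE : ∃ v, EAB v ∨ EBA v
      · obtain ⟨v, hv⟩ := hE
        have hm : ∃ m, nbr s m ∉ U ∧ ω (nbr s m) ≠ ω s := by
          rcases hv with ⟨m, _, _, h2, h3⟩ | ⟨m, _, _, h2, h3⟩
          · exact ⟨m + 1, h2, h3⟩
          · exact ⟨m, h2, h3⟩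
        obtain ⟨m, hm1, hm2⟩ := hm
        have c7 : (((verts U').filter (chg U' ω)).filter
            (fun v => chg U ω v ∧ inV U' v)).card ≤ 1 :=
          Finset.card_le_one.2 fun v hv w hw => other m hm1 hm2 v w (Finset.mem_filter.1 hv).2.1
            (Finset.mem_filter.1 hv).2.2 (Finset.mem_filter.1 hw).2.1 (Finset.mem_filter.1 hw).2.2
        omega
      · push Not at hE
        have c8 : (((verts U').filter (chg U' ω)).filter EAB).card = 0 := by
          rw [Finset.card_eq_zero, Finset.filter_eq_empty_iff]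
          exact fun v _ => (hE v).1
        have c9 : (((verts U').filter (chg U' ω)).filter EBA).card = 0 := by
          rw [Finset.card_eq_zero, Finset.filter_eq_empty_iff]
          exact fun v _ => (hE v).2
        omega
    intro a b c ha hb hc
    by_contra hn
    push Not at hn
    have h3 : 2 < ((verts U').filter (chg U' ω)).card := by
      rw [Finset.two_lt_card]
      exact ⟨a, Finset.mem_filter.2 ⟨mem_verts.2 (chg_inV ha), ha⟩,
        b, Finset.mem_filter.2 ⟨mem_verts.2 (chg_inV hb), hb⟩,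
        c, Finset.mem_filter.2 ⟨mem_verts.2 (chg_inV hc), hc⟩, hn.1, hn.2.1, hn.2.2⟩
    have h4 : ((verts U').filter (chg U' ω)).card = 3 := by omega
    rw [h4] at hev
    exact absurd hev (by decide)
  · -- cc
    have out : ∀ f, f ∉ U' → tch ↑U' f → f ∉ U ∨ f = s := by
      rintro f hf ⟨g, hg, hgf⟩
      by_contra hn
      push Not at hn
      exact hf (hclos g f (by exact_mod_cast hg) hn.1 hn.2 (adjF_symm hgf))
    have touch : ∀ f, f ∉ U → tch ↑U' f → tch ↑U f := by
      rintro f _ ⟨g, hg, hgf⟩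
      exact ⟨g, by exact_mod_cast hsub (by exact_mod_cast hg), hgf⟩
    have base : ∀ f g, f ∉ U → g ∉ U → tch ↑U f → tch ↑U g → ω f = ω g →
        Jn {a | a ∉ U' ∧ ω a = ω f} f g := by
      intro f g hf hg h1 h2 h3
      refine (hU.cc f g hf hg h1 h2 h3).mono ?_
      intro a ha
      exact ⟨fun h => ha.1 (hsub h), ha.2⟩
    have xtch : tch (↑U : Set Fc) (nbr s mx) := ⟨s, by exact_mod_cast hs, adjF_symm hsx⟩
    intro f g hf hg h1 h2 h3
    rcases out f hf h1 with hf' | hf'
    · rcases out g hg h2 with hg' | hg'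
      · exact base f g hf' hg' (touch f hf' h1) (touch g hg' h2) h3
      · subst hg'
        refine (base f _ hf' hx (touch f hf' h1) xtch (h3.trans hωx)).step ⟨hs', h3.symm⟩
          (adjF_symm hsx)
    · subst hf'
      rcases out g hg h2 with hg' | hg'
      · refine (Jn.single (S := {a | a ∉ U' ∧ ω a = ω f}) ⟨fun h => hx (hsub h), hωx.symm⟩ hsx).trans ?_
        have := base _ g hx hg' xtch (touch g hg' h2) (hωx.symm.trans h3)
        rwa [← hωx] at this
      · subst hg'
        exact Jn.refl _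

theorem comp_comp {B K : Finset Fc} {z : Fc} (hz : z ∈ B) (hzK : z ∉ K) :
    comp (comp B z \ K) z = comp (B \ K) z := by
  have hz1 : z ∈ B \ K := Finset.mem_sdiff.2 ⟨hz, hzK⟩
  ext f
  constructor
  · intro hf
    exact comp_mono (Finset.sdiff_subset_sdiff (comp_sub _ _) (le_refl _)) z hf
  · intro hf
    refine sub_comp (W := ↑(comp (B \ K) z)) ?_ (fun g hg => comp_jn (by exact_mod_cast hg)) f
      (by exact_mod_cast hf)
    intro g hg
    have hg' : g ∈ comp (B \ K) z := by exact_mod_cast hg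
    have h1 := Finset.mem_sdiff.1 (comp_sub _ _ hg')
    rw [Finset.mem_coe, Finset.mem_sdiff]
    exact ⟨comp_mono Finset.sdiff_subset z hg', h1.2⟩

theorem peelK : PeelK := by
  classical
  have key : ∀ (N : ℕ) (U : Finset Fc) (ω : Fc → Bool), St U ω → ∀ (K : Finset Fc) (c : Bool),
      K.card ≤ N → K ⊆ U → (∀ f ∈ K, ω f = c) →
      (∀ f ∈ K, ∃ g, Jn (↑K : Set Fc) f g ∧ ∃ x, x ∉ U ∧ adjF g x ∧ ω x = c) →
      ∀ z ∈ U, z ∉ K → St (comp (U \ K) z) ω := by
    intro N
    induction N with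
    | zero =>
      intro U ω hU K c hN _ _ _ z hz _
      have hK : K = ∅ := Finset.card_eq_zero.1 (by omega)
      subst hK
      have : comp (U \ ∅) z = U := by
        ext f
        rw [Finset.sdiff_empty]
        exact ⟨fun h => comp_sub _ _ h, fun h => mem_comp.2 ⟨h, hU.dom.conn z hz f h⟩⟩
      rw [this]
      exact hU
    | succ N ih =>
      intro U ω hU K c hN hKU hKc hK z hz hzK
      by_cases hKe : K = ∅
      · subst hKe
        exact ih U ω hU ∅ c (by simp) (by simp) (by simp) (by simp) z hz (by simp)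
      obtain ⟨f0, hf0⟩ := Finset.nonempty_iff_ne_empty.2 hKe
      obtain ⟨s, hfs, x, hx, hsx, hxc⟩ := hK f0 hf0
      have hsK : s ∈ K := by
        have := hfs.mem (by exact_mod_cast hf0)
        exact_mod_cast this
      have hzs : z ≠ s := fun h => hzK (h ▸ hsK)
      have h1 := peel U ω hU s (hKU hsK) x hx hsx (by rw [hKc s hsK, hxc]) z hz hzs
      set W := comp (U \ {s}) z with hW
      have hzW : z ∈ W := mem_comp_self (by simp [hz, hzs])
      have hWU : ∀ f ∈ W, f ∈ U ∧ f ≠ s := by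
        intro f hf
        have := Finset.mem_sdiff.1 (comp_sub _ _ hf)
        simpa using this
      have hKW : (K ∩ W).card ≤ N := by
        have : K ∩ W ⊂ K := by
          refine ⟨Finset.inter_subset_left, fun h => ?_⟩
          exact (hWU s (Finset.mem_inter.1 (h hsK)).2).2 rfl
        have := Finset.card_lt_card this
        omega
      have h2 := ih W ω h1 (K ∩ W) c hKW Finset.inter_subset_right
        (fun f hf => hKc f (Finset.mem_inter.1 hf).1) ?_ z hzW
        (fun h => hzK (Finset.mem_inter.1 h).1)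
      · have e1 : W \ (K ∩ W) = W \ K := by
          ext f; simp only [Finset.mem_sdiff, Finset.mem_inter]; tauto
        have e2 : (U \ {s}) \ K = U \ K := by
          ext f
          simp only [Finset.mem_sdiff, Finset.mem_singleton]
          constructor
          · rintro ⟨⟨h1, _⟩, h2⟩; exact ⟨h1, h2⟩
          · rintro ⟨h1, h2⟩; exact ⟨⟨h1, fun h => h2 (h ▸ hsK)⟩, h2⟩
        rw [e1, hW, comp_comp (by simp [hz, hzs]) hzK, e2] at h2
        exact h2
      · intro f hf
        obtain ⟨hfK, hfW⟩ := Finset.mem_inter.1 hf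
        obtain ⟨g, hfg, y, hy, hgy, hyc⟩ := hK f hfK
        by_cases hall : g ∈ (↑W : Set Fc) ∧ Jn (↑K ∩ ↑W : Set Fc) f g
        · refine ⟨g, ?_, y, fun h => hy (hWU y h).1, hgy, hyc⟩
          rw [Finset.coe_inter]
          exact hall.2
        · have key : ∀ g, Jn (↑K : Set Fc) f g → (Jn (↑K ∩ ↑W : Set Fc) f g ∧ g ∈ (↑W : Set Fc)) ∨
              ∃ a b, Jn (↑K ∩ ↑W : Set Fc) f a ∧ b ∈ (↑K : Set Fc) ∧ b ∉ (↑W : Set Fc) ∧ adjF a b := by
            intro g h
            induction h with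
            | refl => exact Or.inl ⟨Jn.refl _, by exact_mod_cast hfW⟩
            | @tail a b h1 h2 ih =>
              rcases ih with ⟨ih1, ih2⟩ | ih
              · by_cases hb : b ∈ (↑W : Set Fc)
                · exact Or.inl ⟨ih1.step ⟨h2.1, hb⟩ h2.2, hb⟩
                · exact Or.inr ⟨a, b, ih1, h2.1, hb, h2.2⟩
              · exact Or.inr ih
          rcases key g hfg with ⟨h3, h4⟩ | ⟨a, b, h3, h4, h5, h6⟩
          · exact absurd ⟨h4, h3⟩ hall
          · refine ⟨a, by rw [Finset.coe_inter]; exact h3, b, by exact_mod_cast h5, h6,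
              hKc b (by exact_mod_cast h4)⟩
  intro U ω hU K c hKU hKc hK z hz hzK
  exact key K.card U ω hU K c le_rfl hKU hKc hK z hz hzK

end Pool.Agent.H74.Tri
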