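import Pool.Agent.H7.UC.Iface

set_option autoImplicit false

/-! MP_2e6055, topology of exploration on the triangular lattice (helper74), 1: adjacency,
components, domains obtained by removing faces. -/

namespace Pool.Agent.H74.Tri

open Pool.Agent.H7.UC

theorem adjF_iff (f g : Fc) : adjF f g ↔
    (g.1 = f.1 + 1 ∧ g.2 = f.2) ∨ (g.1 = f.1 - 1 ∧ g.2 = f.2) ∨
    (g.1 = f.1 ∧ g.2 = f.2 + 1) ∨ (g.1 = f.1 ∧ g.2 = f.2 - 1) ∨
    (g.1 = f.1 + 1 ∧ g.2 = f.2 - 1) ∨ (g.1 = f.1 - 1 ∧ g.2 = f.2 + 1) := by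
  obtain ⟨a, b⟩ := f
  obtain ⟨c, d⟩ := g
  constructor
  · rintro ⟨⟨i, j, k⟩, h⟩
    fin_cases k <;> simp [lf, rf, fc] at h <;> simp <;> omega
  · intro h
    simp only at h
    rcases h with ⟨h1, h2⟩ | ⟨h1, h2⟩ | ⟨h1, h2⟩ | ⟨h1, h2⟩ | ⟨h1, h2⟩ | ⟨h1, h2⟩
    · exact ⟨(a, b, 0), Or.inl (by simp [lf, rf, fc, h1, h2])⟩
    · exact ⟨(c, d, 0), Or.inr (by simp [lf, rf, fc, h1, h2])⟩
    · exact ⟨(a, b, 2), Or.inr (by simp [lf, rf, fc, h1, h2])⟩
    · exact ⟨(c, d, 2), Or.inl (by simp [lf, rf, fc, h1, h2])⟩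
    · exact ⟨(a, d, 1), Or.inr (by simp [lf, rf, fc, h1, h2])⟩
    · exact ⟨(c, b, 1), Or.inl (by simp [lf, rf, fc, h1, h2])⟩

theorem adjF_symm {f g : Fc} (h : adjF f g) : adjF g f := by
  obtain ⟨e, h⟩ := h
  exact ⟨e, h.symm⟩

theorem adjF_ne {f g : Fc} (h : adjF f g) : f ≠ g := by
  rw [adjF_iff] at h
  rintro rfl
  omega

/-- two different faces at a vertex are adjacent -/
theorem adjF_fc (v : Vx) {k l : Fin 3} (h : k ≠ l) : adjF (fc v k) (fc v l) := by
  rw [adjF_iff]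
  obtain ⟨i, j, b⟩ := v
  fin_cases k <;> fin_cases l <;> cases b <;> simp [fc] at h ⊢

theorem adjF_lr (e : Ed) : adjF (lf e) (rf e) := ⟨e, Or.inl ⟨rfl, rfl⟩⟩

/-- path of faces, all but the first in `S` -/
def Jn (S : Set Fc) (f g : Fc) : Prop := Relation.ReflTransGen (fun a b => b ∈ S ∧ adjF a b) f g

theorem Jn.refl {S : Set Fc} (f : Fc) : Jn S f f := Relation.ReflTransGen.refl

theorem Jn.trans {S : Set Fc} {f g h : Fc} (h1 : Jn S f g) (h2 : Jn S g h) : Jn S f h :=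
  Relation.ReflTransGen.trans h1 h2

theorem Jn.mem {S : Set Fc} {f g : Fc} (h : Jn S f g) (hf : f ∈ S) : g ∈ S := by
  rcases Relation.ReflTransGen.cases_tail h with h | ⟨c, _, h⟩
  · exact h ▸ hf
  · exact h.1

theorem Jn.step {S : Set Fc} {f g h : Fc} (h1 : Jn S f g) (h2 : h ∈ S) (h3 : adjF g h) :
    Jn S f h := Relation.ReflTransGen.tail h1 ⟨h2, h3⟩

theorem Jn.single {S : Set Fc} {f g : Fc} (h2 : g ∈ S) (h3 : adjF f g) : Jn S f g :=
  Relation.ReflTransGen.single ⟨h2, h3⟩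

theorem Jn.mono {S T : Set Fc} (hST : S ⊆ T) {f g : Fc} (h : Jn S f g) : Jn T f g := by
  induction h with
  | refl => exact Jn.refl _
  | tail _ h2 ih => exact ih.step (hST h2.1) h2.2

theorem Jn.symm {S : Set Fc} {f g : Fc} (hf : f ∈ S) (h : Jn S f g) : Jn S g f := by
  induction h with
  | refl => exact Jn.refl _
  | tail h1 h2 ih =>
    exact (Jn.single (Jn.mem h1 hf) (adjF_symm h2.2)).trans ih

/-- a path that starts in `A` and ends outside `A` has a step leaving `A` -/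
theorem Jn.exit {S A : Set Fc} {f g : Fc} (h : Jn S f g) (hf : f ∈ A) (hg : g ∉ A) :
    ∃ a b, Jn (S ∩ A) f a ∧ a ∈ A ∧ b ∈ S ∧ b ∉ A ∧ adjF a b ∧ Jn S b g := by
  have key : ∀ g, Jn S f g → (Jn (S ∩ A) f g ∧ g ∈ A) ∨
      ∃ a b, Jn (S ∩ A) f a ∧ a ∈ A ∧ b ∈ S ∧ b ∉ A ∧ adjF a b ∧ Jn S b g := by
    intro g h
    induction h with
    | refl => exact Or.inl ⟨Jn.refl _, hf⟩
    | @tail c d h1 h2 ih =>
      rcases ih with ⟨ih1, ih2⟩ | ⟨a, b, h3, h4, h5, h6, h7, h8⟩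
      · by_cases hd : d ∈ A
        · exact Or.inl ⟨ih1.step ⟨h2.1, hd⟩ h2.2, hd⟩
        · exact Or.inr ⟨c, d, ih1, ih2, h2.1, hd, h2.2, Jn.refl _⟩
      · exact Or.inr ⟨a, b, h3, h4, h5, h6, h7, h8.step h2.1 h2.2⟩
  rcases key g h with ⟨_, h⟩ | h
  · exact absurd h hg
  · exact h

/-- component of `z` in `U` -/
noncomputable def comp (U : Finset Fc) (z : Fc) : Finset Fc := by
  classical exact U.filter (fun f => Jn ↑U z f)

theorem mem_comp {U : Finset Fc} {z f : Fc} : f ∈ comp U z ↔ f ∈ U ∧ Jn ↑U z f := by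
  classical
  unfold comp
  rw [Finset.mem_filter]

theorem comp_sub (U : Finset Fc) (z : Fc) : comp U z ⊆ U := fun _ h => (mem_comp.1 h).1

theorem mem_comp_self {U : Finset Fc} {z : Fc} (h : z ∈ U) : z ∈ comp U z :=
  mem_comp.2 ⟨h, Jn.refl _⟩

theorem comp_adj {U : Finset Fc} {z f g : Fc} (hf : f ∈ comp U z) (hg : g ∈ U) (h : adjF f g) :
    g ∈ comp U z :=
  mem_comp.2 ⟨hg, (mem_comp.1 hf).2.step (by exact_mod_cast hg) h⟩

theorem comp_jn {U : Finset Fc} {z f : Fc} (hf : f ∈ comp U z) : Jn ↑(comp U z) z f := by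
  have h := (mem_comp.1 hf).2
  have key : ∀ f, Jn (↑U : Set Fc) z f → Jn ↑(comp U z) z f := by
    intro f h
    induction h with
    | refl => exact Jn.refl _
    | tail h1 h2 ih =>
      refine ih.step ?_ h2.2
      exact Finset.mem_coe.2 (mem_comp.2 ⟨by exact_mod_cast h2.1, Jn.step h1 h2.1 h2.2⟩)
  exact key f h

theorem comp_conn {U : Finset Fc} {z : Fc} (hz : z ∈ U) {f g : Fc} (hf : f ∈ comp U z)
    (hg : g ∈ comp U z) : Jn ↑(comp U z) f g :=
  ((comp_jn hf).symm (by exact_mod_cast mem_comp_self hz)).trans (comp_jn hg)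

theorem comp_mono {U V : Finset Fc} (h : U ⊆ V) (z : Fc) : comp U z ⊆ comp V z := by
  intro f hf
  rw [mem_comp] at hf ⊢
  exact ⟨h hf.1, hf.2.mono (by exact_mod_cast h)⟩

theorem comp_eq_of_mem {U : Finset Fc} {z w : Fc} (hz : z ∈ U) (hw : w ∈ comp U z) :
    comp U w = comp U z := by
  have h1 := (mem_comp.1 hw).2
  have h2 : Jn (↑U : Set Fc) w z := h1.symm (by exact_mod_cast hz)
  ext f
  rw [mem_comp, mem_comp]
  exact ⟨fun h => ⟨h.1, h1.trans h.2⟩, fun h => ⟨h.1, h2.trans h.2⟩⟩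

/-- a connected subset of `U` containing `z` is in the component -/
theorem sub_comp {U : Finset Fc} {z : Fc} {W : Set Fc} (hW : W ⊆ ↑U)
    (hc : ∀ f ∈ W, Jn W z f) : ∀ f ∈ W, f ∈ comp U z := fun f hf =>
  mem_comp.2 ⟨by exact_mod_cast hW hf, (hc f hf).mono hW⟩

/-- `f` is adjacent to `U` -/
def tch (U : Set Fc) (f : Fc) : Prop := ∃ g ∈ U, adjF f g

/-- Removing from a domain `U` a set `K` attached to the outside, every component is a domain. -/
theorem isDom_comp {U : Finset Fc} (hU : IsDom U) (K : Finset Fc)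
    (hK : ∀ f ∈ K, ∃ g, Jn (↑K : Set Fc) f g ∧ ∃ x, x ∉ U ∧ adjF g x) {z : Fc}
    (hz : z ∈ U) (hzK : z ∉ K) : IsDom (comp (U \ K) z) := by
  have hzU : z ∈ U \ K := Finset.mem_sdiff.2 ⟨hz, hzK⟩
  refine ⟨⟨z, mem_comp_self hzU⟩, fun f hf g hg => comp_conn hzU hf hg, ?_⟩
  -- every face outside the component is joined to the outside of `U`
  set W := comp (U \ K) z with hWdef
  obtain ⟨x0, hx0⟩ : ∃ x0, x0 ∉ U := Infinite.exists_notMem_finset U
  have hWU : ∀ f ∈ W, f ∈ U ∧ f ∉ K := fun f hf => Finset.mem_sdiff.1 (comp_sub _ _ hf)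
  have out : ∀ f, f ∉ U → Jn {a | a ∉ W} f x0 := by
    intro f hf
    refine Jn.mono ?_ (hU.cconn f hf x0 hx0)
    intro a ha haW
    exact ha (hWU a haW).1
  have inK : ∀ f, f ∈ K → Jn {a | a ∉ W} f x0 := by
    intro f hf
    obtain ⟨g, h1, x, hx, h2⟩ := hK f hf
    refine (Jn.mono ?_ h1).trans ((Jn.single ?_ h2).trans (out x hx))
    · intro a ha haW
      exact (hWU a haW).2 (by exact_mod_cast ha)
    · intro hxW
      exact hx (hWU x hxW).1
  have all : ∀ f, f ∉ W → Jn {a | a ∉ W} f x0 := by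
    intro f hf
    by_cases hfU : f ∈ U
    · by_cases hfK : f ∈ K
      · exact inK f hfK
      · -- another component
        have hfUK : f ∈ U \ K := Finset.mem_sdiff.2 ⟨hfU, hfK⟩
        have hp : Jn (↑U : Set Fc) f z := hU.conn f hfU z hz
        have hzn : z ∉ (↑(comp (U \ K) f) : Set Fc) := by
          intro h
          have h' : z ∈ comp (U \ K) f := by exact_mod_cast h
          have e : comp (U \ K) z = comp (U \ K) f := comp_eq_of_mem hfUK h'
          exact hf (by rw [hWdef, e]; exact mem_comp_self hfUK)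
        obtain ⟨a, b, h1, h2, h3, h4, h5, _⟩ :=
          hp.exit (A := ↑(comp (U \ K) f)) (by exact_mod_cast mem_comp_self hfUK) hzn
        have hbK : b ∈ K := by
          by_contra hb
          have h2' : a ∈ comp (U \ K) f := by exact_mod_cast h2
          have h3' : b ∈ U \ K := Finset.mem_sdiff.2 ⟨by exact_mod_cast h3, hb⟩
          exact h4 (by exact_mod_cast comp_adj h2' h3' h5)
        have hdis : ∀ c, c ∈ comp (U \ K) f → c ∉ W := by
          intro c hc hcW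
          have e1 := comp_eq_of_mem hfUK hc
          have e2 := comp_eq_of_mem hzU hcW
          exact hf (by rw [hWdef, ← e2, e1]; exact mem_comp_self hfUK)
        refine (Jn.mono ?_ h1).trans ((Jn.single ?_ h5).trans (inK b hbK))
        · intro c hc
          exact hdis c (by exact_mod_cast hc.2)
        · intro hbW
          exact (hWU b hbW).2 hbK
    · exact out f hfU
  intro f hf g hg
  exact (all f hf).trans ((all g hg).symm (by simpa using hg))

end Pool.Agent.H74.Tri
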