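import Pool.Agent.H74.Tri.Peel

set_option autoImplicit false

/-! MP_2e6055, module TOP (helper74): the LR lemma, from Int1, Int2, NE, ArcC. -/

namespace Pool.Agent.H74.Tri

open Pool.Agent.H7.UC

theorem Rev.mono {ω : Fc → Bool} {p : Pos} {m n : ℕ} (h : m ≤ n) : Rev ω p m ⊆ Rev ω p n := by
  rintro f ⟨i, hi, hf⟩
  exact ⟨i, hi.trans h, hf⟩

/-- the face ahead is a face of the next edge -/
theorem ph_next (ω : Fc → Bool) (p : Pos) (t : ℕ) :
    ph (orb ω p t) = pl (orb ω p (t + 1)) ∨ ph (orb ω p t) = pr (orb ω p (t + 1)) := by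
  rw [orb_succ]
  cases h : ω (ph (orb ω p t))
  · exact Or.inr (stp_white h).2.symm
  · exact Or.inl (stp_black h).1.symm

/-- each face of the next edge is the face ahead or touches it and was a face before -/
theorem next_cases (ω : Fc → Bool) (p : Pos) (t : ℕ) :
    (pl (orb ω p (t + 1)) = ph (orb ω p t) ∧ pr (orb ω p (t + 1)) = pr (orb ω p t)) ∨
    (pl (orb ω p (t + 1)) = pl (orb ω p t) ∧ pr (orb ω p (t + 1)) = ph (orb ω p t)) := by
  rw [orb_succ]
  cases h : ω (ph (orb ω p t))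
  · exact Or.inr (stp_white h)
  · exact Or.inl (stp_black h)

theorem IsTip.sub {U U1 : Finset Fc} {ω : Fc → Bool} {p : Pos} (h : IsTip U ω p) (hs : U1 ⊆ U)
    (h1 : ph p ∈ U1) : IsTip U1 ω p :=
  ⟨h1, fun h2 => h.2.1 (hs h2), fun h2 => h.2.2.1 (hs h2), h.2.2.2⟩

/-- After the exit from a state `U1` nothing unrevealed in `U1` is ever touched. -/
theorem after_exit (hI2 : Int2) (hNE : NE) {U1 : Finset Fc} {ω : Fc → Bool} (hU : St U1 ω) {p : Pos}
    {n1 : ℕ} (hp : IsTip U1 ω p) (hn : ExitAt U1 ω p n1) {f : Fc} (hf : f ∈ U1) {i : ℕ}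
    (hi : f = pl (orb ω p i) ∨ f = pr (orb ω p i)) : f ∈ Rev ω p n1 := by
  classical
  by_contra hfR
  set B := U1.filter (fun a => a ∉ Rev ω p n1) with hB
  have hfB : f ∈ B := Finset.mem_filter.2 ⟨hf, hfR⟩
  set W := comp B f with hW
  have hWB : ∀ a ∈ W, a ∈ U1 ∧ a ∉ Rev ω p n1 := fun a ha => Finset.mem_filter.1 (comp_sub _ _ ha)
  have hfW : f ∈ W := mem_comp_self hfB
  have hmono := hI2 U1 ω hU p n1 hp hn W (fun a ha => (hWB a ha).1) (fun a ha => (hWB a ha).2)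
    (fun a ha b hb => comp_conn hfB ha hb) (by
      rintro a ha haW ⟨g, hg, hga⟩
      by_contra hn
      exact haW (comp_adj (by exact_mod_cast hg) (Finset.mem_filter.2 ⟨ha, hn⟩) (adjF_symm hga)))
  have hc : ∃ c, ∀ a, a ∉ (↑W : Set Fc) → tch ↑W a → ω a = c := by
    by_cases h : ∃ a0, a0 ∉ W ∧ tch (↑W : Set Fc) a0
    · obtain ⟨a0, h1, h2⟩ := h
      exact ⟨ω a0, fun a ha hta => hmono a a0 (by exact_mod_cast ha) h1 hta h2⟩
    · exact ⟨true, fun a ha hta => absurd ⟨a, by exact_mod_cast ha, hta⟩ h⟩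
  obtain ⟨c, hc⟩ := hc
  have hl : pl (orb ω p n1) ∉ (↑W : Set Fc) := fun h =>
    (hWB _ (by exact_mod_cast h)).2 ⟨n1, le_rfl, Or.inl rfl⟩
  have hr : pr (orb ω p n1) ∉ (↑W : Set Fc) := fun h =>
    (hWB _ (by exact_mod_cast h)).2 ⟨n1, le_rfl, Or.inr rfl⟩
  by_cases hin : n1 ≤ i
  · have h1 := hNE ↑W ω c hc (orb ω p n1) (hp.2.2.2.orb n1) hl hr (i - n1)
    rw [← orb_add, Nat.add_sub_cancel' hin] at h1
    rcases hi with h | h
    · exact h1.1 (h ▸ (by exact_mod_cast hfW))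
    · exact h1.2 (h ▸ (by exact_mod_cast hfW))
  · exact hfR ⟨i, by omega, hi⟩

theorem lr_of (hI1 : Int1) (hI2 : Int2) (hNE : NE) (hArc : ArcC) : LR := by
  classical
  intro U ω hU Cb Cw hb hw p v e hp hv hvb he heb hew hvp hve hec t n hn htn hte f hvf i hi
  -- the black pieces of `Cb` attached to black outer faces
  set K := U.filter (fun a => a ∈ Cb ∧ ∃ g, Jn {b | b ∈ U ∧ b ∈ Cb} a g ∧
    ∃ x, x ∉ U ∧ adjF g x ∧ ω x = true) with hK
  have hKmem : ∀ a, a ∈ K ↔ a ∈ U ∧ a ∈ Cb ∧ ∃ g, Jn {b | b ∈ U ∧ b ∈ Cb} a g ∧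
    ∃ x, x ∉ U ∧ adjF g x ∧ ω x = true := fun a => Finset.mem_filter
  have hKU : K ⊆ U := Finset.filter_subset _ _
  have hKc : ∀ a ∈ K, ω a = true := fun a ha => hb a (hKU ha) ((hKmem a).1 ha).2.1
  have hKadj : ∀ a b, a ∈ U → a ∈ Cb → b ∈ K → adjF a b → a ∈ K := by
    intro a b ha haC hbK hab
    obtain ⟨h1, h2, g, h3, h4⟩ := (hKmem b).1 hbK
    have h5 : Jn {b | b ∈ U ∧ b ∈ Cb} a b := Jn.single ⟨h1, h2⟩ hab
    exact (hKmem a).2 ⟨ha, haC, g, h5.trans h3, h4⟩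
  have hKatt : ∀ a ∈ K, ∃ g, Jn (↑K : Set Fc) a g ∧ ∃ x, x ∉ U ∧ adjF g x ∧ ω x = true := by
    intro a ha
    obtain ⟨h1, h2, g, h3, h4⟩ := (hKmem a).1 ha
    refine ⟨g, ?_, h4⟩
    have key : ∀ b, Jn {b | b ∈ U ∧ b ∈ Cb} b g → Jn (↑K : Set Fc) b g := by
      intro b hbg
      induction hbg using Relation.ReflTransGen.head_induction_on with
      | refl => exact Jn.refl _
      | @head c d hcd hdg ih =>
        have hd : d ∈ K := (hKmem d).2 ⟨hcd.1.1, hcd.1.2, g, hdg, h4⟩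
        exact (Jn.single (by exact_mod_cast hd) hcd.2).trans ih
    exact key a h3
  have hvK : v ∉ K := fun h => hvb ((hKmem v).1 h).2.1
  have hU1 := peelK U ω hU K true hKU hKc hKatt v hv hvK
  set U1 := comp (U \ K) v with hU1def
  have hvUK : v ∈ U \ K := Finset.mem_sdiff.2 ⟨hv, hvK⟩
  have hU1U : ∀ a ∈ U1, a ∈ U ∧ a ∉ K := fun a ha => Finset.mem_sdiff.1 (comp_sub _ _ ha)
  have inU1 : ∀ a b, a ∈ U1 → Jn {b | b ∈ U ∧ b ∉ Cb} a b → b ∈ U1 := by
    intro a b ha hab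
    induction hab with
    | refl => exact ha
    | tail h1 h2 ih =>
      exact comp_adj ih (Finset.mem_sdiff.2 ⟨h2.1.1, fun h => h2.1.2 ((hKmem _).1 h).2.1⟩) h2.2
  have hvU1 : v ∈ U1 := mem_comp_self hvUK
  have hpU1 : ph p ∈ U1 := inU1 v _ hvU1 hvp
  have hfU1 : f ∈ U1 := inU1 v _ hvU1 hvf
  have hp1 : IsTip U1 ω p := hp.sub (fun a ha => (hU1U a ha).1) hpU1
  obtain ⟨n1, hn1⟩ := hI1 U1 ω p hp1
  by_cases heU1 : e ∈ U1
  · -- impossible
    exfalso
    set W := {a | Jn {b | b ∈ U ∧ b ∉ Cw} e a} with hWdef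
    have hWU : ∀ a ∈ W, a ∈ U ∧ a ∉ Cw := by
      intro a ha
      have : a ∈ {b | b ∈ U ∧ b ∉ Cw} := Jn.mem ha ⟨he, hew⟩
      exact this
    have hx : ∃ x, x ∉ W ∧ tch W x ∧ ω x = true := by
      by_contra hno
      push Not at hno
      have h1 := hNE W ω false (fun a ha hta => by
        have := hno a ha hta
        simpa using this) p hp.2.2.2 (fun h => hp.2.1 (hWU _ h).1) (fun h => hp.2.2.1 (hWU _ h).1)
        (t + 1)
      have heW : e ∈ W := Jn.refl _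
      rcases ph_next ω p t with h | h
      · rw [hte] at h; exact h1.1 (h ▸ heW)
      · rw [hte] at h; exact h1.2 (h ▸ heW)
    obtain ⟨x, hxW, ⟨w, hwW, hwx⟩, hxb⟩ := hx
    have hxU : x ∉ U := by
      intro hxU
      by_cases hxC : x ∈ Cw
      · have := hw x hxU hxC
        rw [hxb] at this
        exact absurd this (by simp)
      · exact hxW (Jn.step hwW ⟨hxU, hxC⟩ (adjF_symm hwx))
    have hew' : Jn {b | b ∈ U ∧ b ∉ Cb} e w := by
      have key : ∀ a, Jn {b | b ∈ U ∧ b ∉ Cw} e a → Jn {b | b ∈ U ∧ b ∉ Cb} e a := by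
        intro a ha
        induction ha with
        | refl => exact Jn.refl _
        | tail h1 h2 ih => exact ih.step ⟨h2.1.1, hec _ (Jn.step h1 h2.1 h2.2)⟩ h2.2
      exact key w hwW
    have hwU1 : w ∈ U1 := inU1 e w heU1 hew'
    have harc := hArc U1 ω hU1 p hp1 true (ph p) w hpU1 hwU1
      ⟨pl p, fun h => hp.2.1 (hU1U _ h).1, adj_hl p, hp.2.2.2.1⟩
      ⟨x, fun h => hxU (hU1U _ h).1, adjF_symm hwx, hxb⟩
    have harc' : Jn {b | b ∈ U ∧ b ∉ Cb} (ph p) w := by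
      refine harc.mono ?_
      rintro a ⟨ha, y, hy, hay, hyb⟩
      refine ⟨(hU1U a ha).1, fun haC => ?_⟩
      by_cases hyU : y ∈ U
      · by_cases hyK : y ∈ K
        · exact (hU1U a ha).2 (hKadj a y (hU1U a ha).1 haC hyK hay)
        · exact hy (comp_adj ha (Finset.mem_sdiff.2 ⟨hyU, hyK⟩) hay)
      · exact (hU1U a ha).2 ((hKmem a).2 ⟨(hU1U a ha).1, haC, a, Jn.refl _, y, hyU, hay, hyb⟩)
    exact hve ((hvp.trans harc').trans (hew'.symm ⟨he, heb⟩))
  · -- the exit from `U1` comes before `e`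
    have ht : n1 ≤ t := by
      by_contra hlt
      push Not at hlt
      have h1 := hn1.2.1 (t + 1) (by omega) (by omega)
      rw [inE_pe] at h1
      have heUK : e ∈ U \ K := Finset.mem_sdiff.2 ⟨he, fun h => heb ((hKmem e).1 h).2.1⟩
      rcases next_cases ω p t with ⟨h2, h3⟩ | ⟨h2, h3⟩
      · rw [h2, h3, hte] at h1
        rcases h1 with h1 | h1
        · exact heU1 h1
        · refine heU1 (comp_adj h1 heUK ?_)
          rw [← hte]
          exact adjF_symm (adj_hr _)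
      · rw [h2, h3, hte] at h1
        rcases h1 with h1 | h1
        · refine heU1 (comp_adj h1 heUK ?_)
          rw [← hte]
          exact adjF_symm (adj_hl _)
        · exact heU1 h1
    exact Rev.mono ht (after_exit hI2 hNE hU1 hp1 hn1 hfU1 hi)

end Pool.Agent.H74.Tri
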