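import Pool.Agent.H74.Tri.MLR
import Pool.Agent.H11.Tri.ArcC
import Pool.Agent.H98.Tri.Int

set_option autoImplicit false

/-! MP_2e6055 (helper74): the black pieces of a set `c` attached to the black side; the gate lemma. -/

namespace Pool.Agent.H74.Tri

open Pool.Agent.H7.UC

/-- faces of `c` in `D` joined inside `c` and `D` to a face next to a black face off `D` -/
noncomputable def KC (D : Finset Fc) (Ω : Fc → Bool) (c : Set Fc) : Finset Fc := by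
  classical exact D.filter (fun a => a ∈ c ∧ ∃ g, Jn {b | b ∈ D ∧ b ∈ c} a g ∧
    ∃ x, x ∉ D ∧ adjF g x ∧ Ω x = true)

theorem mem_KC {D : Finset Fc} {Ω : Fc → Bool} {c : Set Fc} {a : Fc} : a ∈ KC D Ω c ↔
    a ∈ D ∧ a ∈ c ∧ ∃ g, Jn {b | b ∈ D ∧ b ∈ c} a g ∧ ∃ x, x ∉ D ∧ adjF g x ∧ Ω x = true := by
  classical
  unfold KC
  rw [Finset.mem_filter]

theorem KC_sub (D : Finset Fc) (Ω : Fc → Bool) (c : Set Fc) : KC D Ω c ⊆ D := by
  intro a ha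
  exact (mem_KC.1 ha).1

theorem KC_adj {D : Finset Fc} {Ω : Fc → Bool} {c : Set Fc} {a b : Fc} (ha : a ∈ D) (hac : a ∈ c)
    (hb : b ∈ KC D Ω c) (hab : adjF a b) : a ∈ KC D Ω c := by
  obtain ⟨h1, h2, g, h3, h4⟩ := mem_KC.1 hb
  have h5 : Jn {b | b ∈ D ∧ b ∈ c} a b := Jn.single ⟨h1, h2⟩ hab
  exact mem_KC.2 ⟨ha, hac, g, h5.trans h3, h4⟩

theorem KC_att {D : Finset Fc} {Ω : Fc → Bool} {c : Set Fc} : ∀ a ∈ KC D Ω c,
    ∃ g, Jn (↑(KC D Ω c) : Set Fc) a g ∧ ∃ x, x ∉ D ∧ adjF g x ∧ Ω x = true := by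
  intro a ha
  obtain ⟨h1, h2, g, h3, h4⟩ := mem_KC.1 ha
  refine ⟨g, ?_, h4⟩
  have key : ∀ b, Jn {b | b ∈ D ∧ b ∈ c} b g → Jn (↑(KC D Ω c) : Set Fc) b g := by
    intro b hbg
    induction hbg using Relation.ReflTransGen.head_induction_on with
    | refl => exact Jn.refl _
    | @head x d hcd hdg ih =>
      have hd : d ∈ KC D Ω c := mem_KC.2 ⟨hcd.1.1, hcd.1.2, g, hdg, h4⟩
      exact (Jn.single (by exact_mod_cast hd) hcd.2).trans ih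
  exact key a h3

/-- the KC set depends on the colours of the faces touching `D` only -/
theorem KC_congr {D : Finset Fc} {Ω Ω' : Fc → Bool} {c c' : Set Fc}
    (h : ∀ f, f ∉ D → tch ↑D f → Ω f = Ω' f) (hc : ∀ f ∈ D, f ∈ c ↔ f ∈ c') :
    KC D Ω c = KC D Ω' c' := by
  have hset : {b | b ∈ D ∧ b ∈ c} = {b | b ∈ D ∧ b ∈ c'} := by
    ext b
    exact ⟨fun hb => ⟨hb.1, (hc b hb.1).1 hb.2⟩, fun hb => ⟨hb.1, (hc b hb.1).2 hb.2⟩⟩
  ext a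
  rw [mem_KC, mem_KC, hset]
  constructor
  · rintro ⟨h1, h2, g, h3, x, h4, h5, h6⟩
    refine ⟨h1, (hc a h1).1 h2, g, h3, x, h4, h5, ?_⟩
    have hg : g ∈ {b | b ∈ D ∧ b ∈ c'} := Jn.mem h3 ⟨h1, (hc a h1).1 h2⟩
    rw [← h x h4 ⟨g, by exact_mod_cast hg.1, adjF_symm h5⟩]
    exact h6
  · rintro ⟨h1, h2, g, h3, x, h4, h5, h6⟩
    refine ⟨h1, (hc a h1).2 h2, g, h3, x, h4, h5, ?_⟩
    have hg : g ∈ {b | b ∈ D ∧ b ∈ c'} := Jn.mem h3 ⟨h1, h2⟩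
    rw [h x h4 ⟨g, by exact_mod_cast hg.1, adjF_symm h5⟩]
    exact h6

/-- the state after peeling the attached pieces of a black set `c` -/
theorem St_KC {D : Finset Fc} {Ω : Fc → Bool} (hD : St D Ω) {c : Set Fc}
    (hc : ∀ f ∈ D, f ∈ c → Ω f = true) {z : Fc} (hz : z ∈ D) (hzK : z ∉ KC D Ω c) :
    St (comp (D \ KC D Ω c) z) Ω :=
  peelK D Ω hD _ true (KC_sub D Ω c)
    (fun f hf => hc f (KC_sub D Ω c hf) (mem_KC.1 hf).2.1) KC_att z hz hzK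

/-- GATE: `m` is connected in `D`, next to a black face off `D`, off `c` and separated from the tip
face by `c`: the peeled component of the tip does not meet `m`. -/
theorem gate {D : Finset Fc} {Ω : Fc → Bool} (hD : St D Ω) {p : Pos} (hp : IsTip D Ω p)
    {c : Set Fc} (hc : ∀ f ∈ D, f ∈ c → Ω f = true) {m : Set Fc} (hmD : ∀ f ∈ m, f ∈ D)
    (hm : ∀ f ∈ m, ∀ g ∈ m, Jn m f g) (hmc : ∀ f ∈ m, f ∉ c) {g x : Fc} (hg : g ∈ m) (hx : x ∉ D)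
    (hgx : adjF g x) (hxb : Ω x = true) (hpc : ph p ∉ c) (hsep : ¬ Jn {a | a ∉ c} (ph p) g) :
    ∀ f ∈ m, f ∉ comp (D \ KC D Ω c) (ph p) := by
  intro f hf hfZ
  set Z := comp (D \ KC D Ω c) (ph p) with hZ
  have hpK : ph p ∉ KC D Ω c := fun h => hpc (mem_KC.1 h).2.1
  have hpDK : ph p ∈ D \ KC D Ω c := Finset.mem_sdiff.2 ⟨hp.1, hpK⟩
  have hStZ : St Z Ω := St_KC hD hc hp.1 hpK
  have hZD : ∀ a ∈ Z, a ∈ D ∧ a ∉ KC D Ω c := fun a ha => Finset.mem_sdiff.1 (comp_sub _ _ ha)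
  have hpZ : ph p ∈ Z := mem_comp_self hpDK
  have hpT : IsTip Z Ω p := hp.sub (fun a ha => (hZD a ha).1) hpZ
  have hgZ : g ∈ Z := by
    have key : ∀ a, Jn m f a → a ∈ Z := by
      intro a ha
      induction ha with
      | refl => exact hfZ
      | tail h1 h2 ih =>
        exact comp_adj ih (Finset.mem_sdiff.2 ⟨hmD _ h2.1, fun h => hmc _ h2.1 (mem_KC.1 h).2.1⟩) h2.2
    exact key g (hm f hf g hg)
  have harc := Pool.Agent.H11.Tri.arcC Z Ω hStZ p hpT true (ph p) g hpZ hgZ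
    ⟨pl p, hpT.2.1, adj_hl p, hp.2.2.2.1⟩ ⟨x, fun h => hx (hZD x h).1, hgx, hxb⟩
  refine hsep (harc.mono ?_)
  rintro a ⟨haZ, y, hy, hay, hyb⟩ hac
  obtain ⟨haD, haK⟩ := hZD a haZ
  by_cases hyD : y ∈ D
  · by_cases hyK : y ∈ KC D Ω c
    · exact haK (KC_adj haD hac hyK hay)
    · exact hy (comp_adj haZ (Finset.mem_sdiff.2 ⟨hyD, hyK⟩) hay)
  · exact haK (mem_KC.2 ⟨haD, hac, a, Jn.refl _, y, hyD, hay, hyb⟩)

/-- consequence: the peeled component of the tip stays in the part of `D - m` of the tip -/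
theorem gate_sub {D : Finset Fc} {Ω : Fc → Bool} (hD : St D Ω) {p : Pos} (hp : IsTip D Ω p)
    {c : Set Fc} (hc : ∀ f ∈ D, f ∈ c → Ω f = true) {m : Set Fc} (hmD : ∀ f ∈ m, f ∈ D)
    (hm : ∀ f ∈ m, ∀ g ∈ m, Jn m f g) (hmc : ∀ f ∈ m, f ∉ c) {g x : Fc} (hg : g ∈ m) (hx : x ∉ D)
    (hgx : adjF g x) (hxb : Ω x = true) (hpc : ph p ∉ c) (hsep : ¬ Jn {a | a ∉ c} (ph p) g) :
    ∀ f ∈ comp (D \ KC D Ω c) (ph p), Jn {a | a ∈ D ∧ a ∉ m} (ph p) f := by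
  intro f hf
  have hgate := gate hD hp hc hmD hm hmc hg hx hgx hxb hpc hsep
  refine (comp_jn hf).mono ?_
  intro a ha
  have ha' : a ∈ comp (D \ KC D Ω c) (ph p) := by exact_mod_cast ha
  exact ⟨(Finset.mem_sdiff.1 (comp_sub _ _ ha')).1, fun h => hgate a h ha'⟩

end Pool.Agent.H74.Tri
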