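import Pool.Agent.H74.Tri.Ext
import Pool.Agent.H74.Tri.KC
import Pool.Agent.H89.Per.Alg2

set_option autoImplicit false

/-! MP_2e6055 (helper74): the main exploration as an instance of helper89's `Expl`. -/

namespace Pool.Agent.H74.Tri

open Pool.Agent.H7.UC Pool.Agent.H89.Per

variable {m n : ℕ}

theorem Rev_succ_iff {ω : Fc → Bool} {p : Pos} {t : ℕ} {f : Fc} :
    f ∈ Rev ω p (t + 1) ↔ f ∈ Rev ω p t ∨ f = ph (orb ω p t) := by
  constructor
  · rintro ⟨i, hi, hf⟩
    rcases Nat.lt_or_ge i (t + 1) with h | h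
    · exact Or.inl ⟨i, by omega, hf⟩
    · have hi' : i = t + 1 := by omega
      subst hi'
      rcases next_cases ω p t with ⟨h1, h2⟩ | ⟨h1, h2⟩
      · rw [h1, h2] at hf
        rcases hf with hf | hf
        · exact Or.inr hf
        · exact Or.inl ⟨t, le_rfl, Or.inr hf⟩
      · rw [h1, h2] at hf
        rcases hf with hf | hf
        · exact Or.inl ⟨t, le_rfl, Or.inl hf⟩
        · exact Or.inr hf
  · rintro (h | h)
    · exact Rev.mono (Nat.le_succ t) h
    · subst h
      exact ⟨t + 1, le_rfl, ph_next ω p t⟩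

theorem exists_first {ω : Fc → Bool} {p : Pos} {t : ℕ} {f : Fc} (h : f ∈ Rev ω p t)
    (h0 : f ∉ Rev ω p 0) : ∃ t' < t, ph (orb ω p t') = f ∧ f ∉ Rev ω p t' := by
  induction t with
  | zero => exact absurd h h0
  | succ t ih =>
    by_cases ht : f ∈ Rev ω p t
    · obtain ⟨t', h1, h2⟩ := ih ht
      exact ⟨t', by omega, h2⟩
    · rcases Rev_succ_iff.1 h with h1 | h1
      · exact absurd h1 ht
      · exact ⟨t, by omega, h1.symm, ht⟩

/-- step with the colour `c` of the face ahead -/
def stc (c : Bool) (p : Pos) : Pos :=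
  if c = true then (nb p.1 (p.2 + 1), p.2 + 1) else (nb p.1 (p.2 + 2), p.2 + 2)

theorem stp_stc (ω : Fc → Bool) (p : Pos) : stp ω p = stc (ω (ph p)) p := rfl

/-- states of the main exploration: the position and the revealed colours -/
abbrev MS (m n : ℕ) := Pos × (Fin m × Fin n → Option Bool)

/-- one action of the main exploration -/
noncomputable def mainAct (m n : ℕ) (s : MS m n) : Act (Fin m × Fin n) (MS m n) := by
  classical exact
  (if h : ph s.1 ∈ box m n then
    (match s.2 (toV m n (ph s.1) h) with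
    | none => Act.ask (toV m n (ph s.1) h)
        (fun b => (stc b s.1, Function.update s.2 (toV m n (ph s.1) h) (some b)))
    | some b => Act.go (stc b s.1, s.2))
  else if pl s.1 ∉ box m n ∧ pr s.1 ∉ box m n then Act.stop
  else Act.go (stc (decide ((ph s.1).1 < 0)) s.1, s.2))

/-- the main exploration -/
noncomputable def mainE (m n : ℕ) : Expl (Fin m × Fin n) :=
  ⟨MS m n, (p0, fun _ => none), mainAct m n⟩

/-- the revealed colours at time `t` -/
noncomputable def rho (ω : Fin m × Fin n → Bool) (t : ℕ) : Fin m × Fin n → Option Bool := by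
  classical exact fun x => if em x ∈ Rev (ext m n ω) p0 t then some (ω x) else none

theorem rho_none {ω : Fin m × Fin n → Bool} {t : ℕ} {x : Fin m × Fin n}
    (h : em x ∉ Rev (ext m n ω) p0 t) : rho ω t x = none := by
  unfold rho; exact if_neg h

theorem rho_some {ω : Fin m × Fin n → Bool} {t : ℕ} {x : Fin m × Fin n}
    (h : em x ∈ Rev (ext m n ω) p0 t) : rho ω t x = some (ω x) := by
  unfold rho; exact if_pos h

theorem p0_faces : pl p0 = (-1, 0) ∧ pr p0 = (0, -1) ∧ ph p0 = (0, 0) := by
  refine ⟨rfl, rfl, rfl⟩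

theorem em_not_zero (ω : Fc → Bool) (x : Fin m × Fin n) : em x ∉ Rev ω p0 0 := by
  rintro ⟨i, hi, h⟩
  have hi' : i = 0 := by omega
  subst hi'
  rw [orb_zero, p0_faces.1, p0_faces.2.1] at h
  have h1 := mem_box'.1 (em_mem x)
  rcases h with h | h
  · rw [h] at h1; simp at h1
  · rw [h] at h1; simp at h1

theorem rho_zero (ω : Fin m × Fin n → Bool) : rho ω 0 = fun _ => none := by
  funext x
  exact rho_none (em_not_zero _ x)

theorem rho_succ_out {ω : Fin m × Fin n → Bool} {t : ℕ}
    (h : ph (orb (ext m n ω) p0 t) ∉ box m n ∨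
      ph (orb (ext m n ω) p0 t) ∈ Rev (ext m n ω) p0 t) : rho ω (t + 1) = rho ω t := by
  funext x
  by_cases hx : em x ∈ Rev (ext m n ω) p0 t
  · rw [rho_some hx, rho_some (Rev.mono (Nat.le_succ t) hx)]
  · rw [rho_none hx, rho_none]
    intro h1
    rcases Rev_succ_iff.1 h1 with h2 | h2
    · exact hx h2
    · rcases h with h | h
      · exact h (h2 ▸ em_mem x)
      · exact hx (h2 ▸ h)

theorem rho_succ_in {ω : Fin m × Fin n → Bool} {t : ℕ} {y : Fin m × Fin n}
    (hy : em y = ph (orb (ext m n ω) p0 t)) :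
    rho ω (t + 1) = Function.update (rho ω t) y (some (ω y)) := by
  funext x
  by_cases hxy : x = y
  · subst hxy
    rw [Function.update_self, rho_some (Rev_succ_iff.2 (Or.inr hy))]
  · rw [Function.update_of_ne hxy]
    by_cases hx : em x ∈ Rev (ext m n ω) p0 t
    · rw [rho_some hx, rho_some (Rev.mono (Nat.le_succ t) hx)]
    · rw [rho_none hx, rho_none]
      intro h1
      rcases Rev_succ_iff.1 h1 with h2 | h2
      · exact hx h2
      · exact hxy (em_inj (h2.trans hy.symm))

/-- the state at time `t` -/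
noncomputable def sT (ω : Fin m × Fin n → Bool) (t : ℕ) : MS m n :=
  (orb (ext m n ω) p0 t, rho ω t)

/-- the main exploration stops at time `t` -/
def stopd (ω : Fin m × Fin n → Bool) (t : ℕ) : Prop :=
  ph (orb (ext m n ω) p0 t) ∉ box m n ∧ pl (orb (ext m n ω) p0 t) ∉ box m n ∧
    pr (orb (ext m n ω) p0 t) ∉ box m n

theorem act_stop {ω : Fin m × Fin n → Bool} {t : ℕ} (h : stopd ω t) :
    mainAct m n (sT ω t) = Act.stop := by
  unfold mainAct
  rw [dif_neg (show ¬ ph (sT ω t).1 ∈ box m n from h.1),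
    if_pos (show pl (sT ω t).1 ∉ box m n ∧ pr (sT ω t).1 ∉ box m n from h.2)]

theorem act_ask {ω : Fin m × Fin n → Bool} {t : ℕ} {x : Fin m × Fin n}
    (hx : em x = ph (orb (ext m n ω) p0 t)) (hr : em x ∉ Rev (ext m n ω) p0 t) :
    ∃ k, mainAct m n (sT ω t) = Act.ask x k ∧ k (ω x) = sT ω (t + 1) := by
  have hb : ph (orb (ext m n ω) p0 t) ∈ box m n := hx ▸ em_mem x
  have hv : toV m n (ph (orb (ext m n ω) p0 t)) hb = x := em_inj ((em_toV hb).trans hx.symm)
  refine ⟨fun b => (stc b (orb (ext m n ω) p0 t), Function.update (rho ω t) x (some b)), ?_, ?_⟩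
  · unfold mainAct
    rw [dif_pos (show ph (sT ω t).1 ∈ box m n from hb)]
    have h1 : (sT ω t).2 (toV m n (ph (sT ω t).1) hb) = none := by
      show rho ω t (toV m n (ph (orb (ext m n ω) p0 t)) hb) = none
      rw [hv]; exact rho_none hr
    rw [h1]
    show Act.ask (toV m n (ph (orb (ext m n ω) p0 t)) hb) _ = _
    simp only [sT, hv]
  · show (stc (ω x) (orb (ext m n ω) p0 t), Function.update (rho ω t) x (some (ω x))) = _
    unfold sT
    rw [orb_succ, stp_stc, ← hx, ext_em, rho_succ_in hx]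

theorem act_go {ω : Fin m × Fin n → Bool} {t : ℕ} (hs : ¬ stopd ω t)
    (hr : ph (orb (ext m n ω) p0 t) ∉ box m n ∨ ph (orb (ext m n ω) p0 t) ∈ Rev (ext m n ω) p0 t) :
    mainAct m n (sT ω t) = Act.go (sT ω (t + 1)) := by
  unfold mainAct
  by_cases hb : ph (orb (ext m n ω) p0 t) ∈ box m n
  · have hR : ph (orb (ext m n ω) p0 t) ∈ Rev (ext m n ω) p0 t := by
      rcases hr with h | h
      · exact absurd hb h
      · exact h
    rw [dif_pos (show ph (sT ω t).1 ∈ box m n from hb)]
    have h1 : (sT ω t).2 (toV m n (ph (sT ω t).1) hb) =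
        some (ω (toV m n (ph (orb (ext m n ω) p0 t)) hb)) := by
      show rho ω t (toV m n (ph (orb (ext m n ω) p0 t)) hb) = _
      exact rho_some (by rw [em_toV]; exact hR)
    rw [h1]
    show Act.go (stc _ (orb (ext m n ω) p0 t), rho ω t) = _
    unfold sT
    rw [orb_succ, stp_stc, rho_succ_out (Or.inr hR)]
    congr 3
    have := ext_em ω (toV m n (ph (orb (ext m n ω) p0 t)) hb)
    rw [em_toV] at this
    exact this.symm
  · rw [dif_neg (show ¬ ph (sT ω t).1 ∈ box m n from hb),
      if_neg (show ¬ (pl (sT ω t).1 ∉ box m n ∧ pr (sT ω t).1 ∉ box m n) from fun h => hs ⟨hb, h⟩)]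
    unfold sT
    rw [orb_succ, stp_stc, rho_succ_out (Or.inl hb), ext_out ω hb]

/-- the list of states up to time `t`, latest first -/
noncomputable def stL (ω : Fin m × Fin n → Bool) : ℕ → List (MS m n)
  | 0 => [sT ω 0]
  | t + 1 => sT ω (t + 1) :: stL ω t

theorem stL_cons (ω : Fin m × Fin n → Bool) (t : ℕ) : ∃ l, stL ω t = sT ω t :: l := by
  cases t with
  | zero => exact ⟨[], rfl⟩
  | succ t => exact ⟨_, rfl⟩

theorem hist_some {ω : Fin m × Fin n → Bool} {t : ℕ} (h : ∀ t' < t, ¬ stopd ω t') :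
    (mainE m n).hist ω t = some (stL ω t) := by
  induction t with
  | zero =>
    show some [((p0, fun _ => none) : MS m n)] = some [sT ω 0]
    unfold sT
    rw [rho_zero]
    rfl
  | succ t ih =>
    have h1 := ih (fun t' ht' => h t' (by omega))
    have h2 := h t (by omega)
    have e1 : (mainE m n).hist ω (t + 1) = ((mainE m n).hist ω t).bind ((mainE m n).stepH ω) := rfl
    rw [e1, h1]
    obtain ⟨l, hl⟩ := stL_cons ω t
    show (mainE m n).stepH ω (stL ω t) = some (sT ω (t + 1) :: stL ω t)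
    rw [hl]
    show ((mainAct m n (sT ω t)).nxt ω).map (fun s' => s' :: sT ω t :: l) =
      some (sT ω (t + 1) :: sT ω t :: l)
    by_cases hb : ph (orb (ext m n ω) p0 t) ∈ box m n ∧
        ph (orb (ext m n ω) p0 t) ∉ Rev (ext m n ω) p0 t
    · obtain ⟨x, hx⟩ := exists_em hb.1
      obtain ⟨k, h3, h4⟩ := act_ask (ω := ω) (t := t) hx (by rw [hx]; exact hb.2)
      rw [h3]
      show ((some (k (ω x))).map _) = _
      rw [h4]
      rfl
    · rw [act_go h2 (by
        by_contra hn
        push Not at hn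
        exact hb ⟨hn.1, hn.2⟩)]
      rfl

theorem hist_iff {ω : Fin m × Fin n → Bool} {t : ℕ} {h : List (MS m n)} :
    (mainE m n).hist ω t = some h ↔ (∀ t' < t, ¬ stopd ω t') ∧ h = stL ω t := by
  constructor
  · intro hh
    have key : ∀ t, (∃ h, (mainE m n).hist ω t = some h) → ∀ t' < t, ¬ stopd ω t' := by
      intro t
      induction t with
      | zero => intro _ t' ht'; exact absurd ht' (by omega)
      | succ t ih =>
        rintro ⟨h, hh⟩
        have e1 : (mainE m n).hist ω (t + 1) =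
          ((mainE m n).hist ω t).bind ((mainE m n).stepH ω) := rfl
        rw [e1] at hh
        obtain ⟨h0, h1, h2⟩ := Option.bind_eq_some_iff.1 hh
        have h3 := ih ⟨h0, h1⟩
        intro t' ht'
        rcases Nat.lt_succ_iff_lt_or_eq.1 ht' with h4 | h4
        · exact h3 t' h4
        · subst h4
          intro hs
          rw [hist_some h3] at h1
          have h5 : h0 = stL ω t' := (Option.some.inj h1).symm
          subst h5
          obtain ⟨l, hl⟩ := stL_cons ω t'
          rw [hl] at h2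
          have h6 : ((mainAct m n (sT ω t')).nxt ω).map (fun s' => s' :: sT ω t' :: l) = some h := h2
          rw [act_stop hs] at h6
          exact absurd h6 (by simp [Act.nxt])
    have h1 := key t ⟨h, hh⟩
    refine ⟨h1, ?_⟩
    rw [hist_some h1] at hh
    exact (Option.some.inj hh).symm
  · rintro ⟨h1, h2⟩
    rw [h2]
    exact hist_some h1

theorem ask_iff {ω : Fin m × Fin n → Bool} {t : ℕ} {x : Fin m × Fin n} :
    (mainE m n).ask ω t = some x ↔ (∀ t' < t, ¬ stopd ω t') ∧
      em x = ph (orb (ext m n ω) p0 t) ∧ em x ∉ Rev (ext m n ω) p0 t := by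
  unfold Expl.ask
  constructor
  · intro h
    obtain ⟨h0, h1, h2⟩ := Option.bind_eq_some_iff.1 h
    obtain ⟨h3, h4⟩ := hist_iff.1 h1
    subst h4
    obtain ⟨l, hl⟩ := stL_cons ω t
    rw [hl] at h2
    have h5 : (mainAct m n (sT ω t)).qry = some x := h2
    refine ⟨h3, ?_⟩
    by_cases hs : stopd ω t
    · rw [act_stop hs] at h5
      exact absurd h5 (by simp [Act.qry])
    by_cases hb : ph (orb (ext m n ω) p0 t) ∈ box m n ∧
        ph (orb (ext m n ω) p0 t) ∉ Rev (ext m n ω) p0 t
    · obtain ⟨y, hy⟩ := exists_em hb.1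
      obtain ⟨k, h6, _⟩ := act_ask (ω := ω) (t := t) hy (by rw [hy]; exact hb.2)
      rw [h6] at h5
      have h7 : y = x := Option.some.inj h5
      subst h7
      exact ⟨hy, by rw [hy]; exact hb.2⟩
    · rw [act_go hs (by
        by_contra hn
        push Not at hn
        exact hb ⟨hn.1, hn.2⟩)] at h5
      exact absurd h5 (by simp [Act.qry])
  · rintro ⟨h1, h2, h3⟩
    rw [hist_some h1]
    obtain ⟨l, hl⟩ := stL_cons ω t
    show (mainE m n).qH (stL ω t) = some x
    rw [hl]
    show (mainAct m n (sT ω t)).qry = some x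
    obtain ⟨k, h6, _⟩ := act_ask (ω := ω) (t := t) h2 h3
    rw [h6]
    rfl

/-- the explored sites -/
theorem mem_expl' {ω : Fin m × Fin n → Bool} {t : ℕ} {h : List (MS m n)}
    (hh : (mainE m n).hist ω t = some h) {x : Fin m × Fin n} :
    x ∈ (mainE m n).expl h ↔ em x ∈ Rev (ext m n ω) p0 t := by
  have hs := (hist_iff.1 hh).1
  rw [mem_expl (mainE m n) hh]
  constructor
  · rintro ⟨t', ht', h1⟩
    obtain ⟨_, h2, _⟩ := ask_iff.1 h1
    exact Rev.mono ht' (Rev_succ_iff.2 (Or.inr h2))
  · intro h1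
    obtain ⟨t', ht', h2, h3⟩ := exists_first h1 (em_not_zero _ x)
    exact ⟨t', ht', ask_iff.2 ⟨fun s hs' => hs s (by omega), h2.symm, h3⟩⟩

theorem main_inj (ω : Fin m × Fin n → Bool) (t t' : ℕ) (x : Fin m × Fin n)
    (h1 : (mainE m n).ask ω t = some x) (h2 : (mainE m n).ask ω t' = some x) : t = t' := by
  have key : ∀ a b, a < b → (mainE m n).ask ω a = some x → (mainE m n).ask ω b = some x → False := by
    intro a b hab ha hb
    obtain ⟨_, h3, _⟩ := ask_iff.1 ha
    obtain ⟨_, _, h4⟩ := ask_iff.1 hb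
    exact h4 (Rev.mono hab (Rev_succ_iff.2 (Or.inr h3)))
  rcases lt_trichotomy t t' with h | h | h
  · exact absurd (key t t' h h1 h2) id
  · exact h
  · exact absurd (key t' t h h2 h1) id

/-! ### The states along the main path -/

/-- the unexplored faces at time `t` -/
noncomputable def un (ω : Fin m × Fin n → Bool) (t : ℕ) : Finset Fc := by
  classical exact (box m n).filter (fun f => f ∉ Rev (ext m n ω) p0 t)

theorem mem_un {ω : Fin m × Fin n → Bool} {t : ℕ} {f : Fc} :
    f ∈ un ω t ↔ f ∈ box m n ∧ f ∉ Rev (ext m n ω) p0 t := by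
  classical
  unfold un
  rw [Finset.mem_filter]

theorem un_succ (ω : Fin m × Fin n → Bool) (t : ℕ) [DecidableEq Fc] :
    un ω (t + 1) = un ω t \ {ph (orb (ext m n ω) p0 t)} := by
  ext f
  rw [Finset.mem_sdiff, mem_un, mem_un, Finset.mem_singleton, Rev_succ_iff]
  tauto

theorem pl_un (ω : Fin m × Fin n → Bool) (t : ℕ) : pl (orb (ext m n ω) p0 t) ∉ un ω t ∧
    pr (orb (ext m n ω) p0 t) ∉ un ω t :=
  ⟨fun h => (mem_un.1 h).2 ⟨t, le_rfl, Or.inl rfl⟩, fun h => (mem_un.1 h).2 ⟨t, le_rfl, Or.inr rfl⟩⟩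

theorem bi_orb (hm : 1 ≤ m) (hn : 1 ≤ n) (ω : Fin m × Fin n → Bool) (t : ℕ) :
    Bi (ext m n ω) (orb (ext m n ω) p0 t) :=
  ((Pool.Agent.H11.Tri.init m n _ hm hn (ext_bc ω)).2.2.2.2).orb t

/-- every component of the unexplored faces is a state -/
theorem St_un (hm : 1 ≤ m) (hn : 1 ≤ n) (ω : Fin m × Fin n → Bool) (t : ℕ) :
    ∀ z ∈ un ω t, St (comp (un ω t) z) (ext m n ω) := by
  classical
  induction t with
  | zero =>
    intro z hz
    have h0 := Pool.Agent.H11.Tri.init m n (ext m n ω) hm hn (ext_bc ω)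
    have e : un ω 0 = box m n := by
      ext f
      rw [mem_un]
      constructor
      · exact fun h => h.1
      · intro h
        obtain ⟨x, rfl⟩ := exists_em h
        exact ⟨h, em_not_zero _ x⟩
    have e2 : comp (un ω 0) z = box m n := by
      rw [e] at hz ⊢
      ext f
      exact ⟨fun h => comp_sub _ _ h, fun h => mem_comp.2 ⟨h, h0.1.dom.conn z hz f h⟩⟩
    rw [e2]
    exact h0.1
  | succ t ih =>
    intro z hz
    rw [un_succ] at hz ⊢
    obtain ⟨hz1, hz2⟩ := Finset.mem_sdiff.1 hz
    rw [Finset.mem_singleton] at hz2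
    set s := ph (orb (ext m n ω) p0 t) with hs
    by_cases hsz : s ∈ comp (un ω t) z
    · -- the face is in the component of `z`
      have hSt := ih z hz1
      have hzD : z ∈ comp (un ω t) z := mem_comp_self hz1
      have hBi := bi_orb hm hn ω t
      have hpl : pl (orb (ext m n ω) p0 t) ∉ comp (un ω t) z := fun h =>
        (pl_un ω t).1 (comp_sub _ _ h)
      have hpr : pr (orb (ext m n ω) p0 t) ∉ comp (un ω t) z := fun h =>
        (pl_un ω t).2 (comp_sub _ _ h)
      have e := comp_comp (B := un ω t) (K := {s}) hz1 (by simpa using hz2)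
      rw [← e]
      cases hc : ext m n ω s
      · exact peel _ _ hSt s hsz _ hpr (adj_hr _) (by rw [hc, hBi.2]) z hzD hz2
      · exact peel _ _ hSt s hsz _ hpl (adj_hl _) (by rw [hc, hBi.1]) z hzD hz2
    · have e : comp (un ω t \ {s}) z = comp (un ω t) z := by
        ext f
        constructor
        · intro hf
          exact comp_mono Finset.sdiff_subset z hf
        · intro hf
          refine sub_comp (W := ↑(comp (un ω t) z)) ?_ (fun g hg => comp_jn (by exact_mod_cast hg)) f
            (by exact_mod_cast hf)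
          intro g hg
          have hg' : g ∈ comp (un ω t) z := by exact_mod_cast hg
          rw [Finset.mem_coe, Finset.mem_sdiff, Finset.mem_singleton]
          exact ⟨comp_sub _ _ hg', fun h => hsz (h ▸ hg')⟩
      rw [e]
      exact ih z hz1

/-- the position is the tip of the component of the face ahead -/
theorem tip_un (hm : 1 ≤ m) (hn : 1 ≤ n) (ω : Fin m × Fin n → Bool) (t : ℕ)
    (h : ph (orb (ext m n ω) p0 t) ∈ un ω t) :
    IsTip (comp (un ω t) (ph (orb (ext m n ω) p0 t))) (ext m n ω) (orb (ext m n ω) p0 t) :=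
  ⟨mem_comp_self h, fun h' => (pl_un ω t).1 (comp_sub _ _ h'),
    fun h' => (pl_un ω t).2 (comp_sub _ _ h'), bi_orb hm hn ω t⟩

end Pool.Agent.H74.Tri
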