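import Pool.Agent.H74.Tri.Chain
import Pool.Agent.H74.Tri.Geo

set_option autoImplicit false

/-! MP_2e6055 (helper74): the chain of a face along the main exploration. -/

namespace Pool.Agent.H74.Tri

open Pool.Agent.H7.UC Pool.Agent.H93.SM Pool.Agent.H75.Per

variable {m n : ℕ}

/-! ### Exit time -/

/-- `t` is before or at the exit of the main exploration from the box -/
def Run (ω : Fin m × Fin n → Bool) (t : ℕ) : Prop :=
  ∃ N, t ≤ N ∧ ExitAt (box m n) (ext m n ω) p0 N

theorem exit_unique {U : Finset Fc} {ω : Fc → Bool} {p : Pos} {N N' : ℕ} (h : ExitAt U ω p N)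
    (h' : ExitAt U ω p N') : N = N' := by
  have key : ∀ {a b : ℕ}, ExitAt U ω p a → ExitAt U ω p b → a < b → False := by
    intro a b ha hb hab
    have h1 := (inE_pe _ _).1 (hb.2.1 (a + 1) (by omega) hab)
    rcases h1 with h1 | h1
    · exact ha.2.2.2.1 h1
    · exact ha.2.2.2.2.1 h1
  rcases lt_trichotomy N N' with h1 | h1 | h1
  · exact absurd (key h h' h1) id
  · exact h1
  · exact absurd (key h' h h1) id

theorem exists_exit (hm : 1 ≤ m) (hn : 1 ≤ n) (ω : Fin m × Fin n → Bool) :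
    ∃ N, ExitAt (box m n) (ext m n ω) p0 N :=
  Pool.Agent.H98.Tri.int1 (box m n) _ p0 (Pool.Agent.H11.Tri.init m n _ hm hn (ext_bc ω)).2

/-! ### The component of a face along the exploration -/

variable {ω : Fin m × Fin n → Bool}

theorem comp_succ_in {t : ℕ} {z : Fc} (hz : z ∈ un ω (t + 1)) :
    comp (un ω (t + 1)) z = comp (comp (un ω t) z \ {ph (orb (ext m n ω) p0 t)}) z := by
  classical
  rw [un_succ] at hz ⊢
  obtain ⟨hz1, hz2⟩ := Finset.mem_sdiff.1 hz
  exact (comp_comp (B := un ω t) (K := {ph (orb (ext m n ω) p0 t)}) hz1 hz2).symm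

theorem comp_succ_out {t : ℕ} {z : Fc}
    (hs : ph (orb (ext m n ω) p0 t) ∉ comp (un ω t) z) :
    comp (un ω (t + 1)) z = comp (un ω t) z := by
  classical
  rw [un_succ]
  ext f
  constructor
  · intro hf
    exact comp_mono Finset.sdiff_subset z hf
  · intro hf
    refine sub_comp (W := ↑(comp (un ω t) z)) ?_ (fun g hg => comp_jn (by exact_mod_cast hg)) f
      (by exact_mod_cast hf)
    intro g hg
    have hg' : g ∈ comp (un ω t) z := by exact_mod_cast hg
    rw [Finset.mem_coe, Finset.mem_sdiff, Finset.mem_singleton]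
    exact ⟨comp_sub _ _ hg', fun h => hs (h ▸ hg')⟩

theorem un_anti {t t' : ℕ} (h : t ≤ t') : un ω t' ⊆ un ω t := by
  intro f hf
  obtain ⟨h1, h2⟩ := mem_un.1 hf
  exact mem_un.2 ⟨h1, fun h3 => h2 (Rev.mono h h3)⟩

/-- if the exploration is in the component, its position is the tip -/
theorem tip_comp (hm : 1 ≤ m) (hn : 1 ≤ n) {t : ℕ} {z : Fc} (hz : z ∈ un ω t)
    (hs : ph (orb (ext m n ω) p0 t) ∈ comp (un ω t) z) :
    IsTip (comp (un ω t) z) (ext m n ω) (orb (ext m n ω) p0 t) := by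
  have h1 := tip_un hm hn ω t (comp_sub _ _ hs)
  rw [comp_eq_of_mem hz hs] at h1
  exact h1

theorem tipF_of {U : Finset Fc} {Ω : Fc → Bool} {q : Pos} (hS : St U Ω) (h : IsTip U Ω q) :
    tipF U Ω = some (ph q) := by
  unfold tipF
  have hex : ∃ p, IsTip U Ω p := ⟨q, h⟩
  rw [dif_pos hex]
  rw [Pool.Agent.H98.Tri.tipU U Ω hS _ _ hex.choose_spec h]

theorem IsTip_congr {U : Finset Fc} {Ω Ω' : Fc → Bool} {q : Pos}
    (h : ∀ f, f ∉ U → tch ↑U f → Ω f = Ω' f) (hq : IsTip U Ω q) : IsTip U Ω' q := by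
  refine ⟨hq.1, hq.2.1, hq.2.2.1, ?_, ?_⟩
  · rw [← h _ hq.2.1 ⟨ph q, by exact_mod_cast hq.1, adjF_symm (adj_hl q)⟩]; exact hq.2.2.2.1
  · rw [← h _ hq.2.2.1 ⟨ph q, by exact_mod_cast hq.1, adjF_symm (adj_hr q)⟩]; exact hq.2.2.2.2

theorem tipF_congr {U : Finset Fc} {Ω Ω' : Fc → Bool}
    (h : ∀ f, f ∉ U → tch ↑U f → Ω f = Ω' f) : tipF U Ω = tipF U Ω' := by
  have e : IsTip U Ω = IsTip U Ω' := by
    funext q
    exact propext ⟨IsTip_congr h, IsTip_congr (fun f hf ht => (h f hf ht).symm)⟩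
  unfold tipF
  rw [e]

/-- (P2) If the component of `z` has a tip at the time `t`, then the exploration comes to this tip before
the exit, and the component has not changed by then. -/
theorem reach_tip (hm : 1 ≤ m) (hn : 1 ≤ n) {t N : ℕ} {z : Fc} (hz : z ∈ un ω t) (ht : t ≤ N)
    (hN : ExitAt (box m n) (ext m n ω) p0 N) {q : Pos}
    (hq : IsTip (comp (un ω t) z) (ext m n ω) q) :
    ∃ t', t ≤ t' ∧ t' < N ∧ orb (ext m n ω) p0 t' = q ∧ comp (un ω t') z = comp (un ω t) z ∧
      z ∈ un ω t' ∧ ∀ s, t ≤ s → s < t' → ph (orb (ext m n ω) p0 s) ∉ comp (un ω t) z := by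
  classical
  set W := comp (un ω t) z with hW
  set Ω := ext m n ω with hΩ
  have hinit := Pool.Agent.H11.Tri.init m n Ω hm hn (ext_bc ω)
  have hWun : ∀ f ∈ W, f ∈ un ω t := fun f hf => comp_sub _ _ hf
  -- some face of `W` is revealed before the exit
  have h1 : ∃ f ∈ W, f ∈ Rev Ω p0 N := by
    by_contra hno
    push Not at hno
    have h2 := Pool.Agent.H98.Tri.int2 Pool.Agent.H63.UC.d1 Pool.Agent.H63.UC.d1b
      (box m n) Ω hinit.1 p0 N hinit.2 hN W (fun f hf => (mem_un.1 (hWun f hf)).1) hno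
      (fun f hf g hg => comp_conn hz hf hg) (by
        intro f hf hfW hft
        have h3 := tch_comp hfW hft
        by_contra h4
        exact h3 (mem_un.2 ⟨hf, fun h5 => h4 (Rev.mono ht h5)⟩)) (pl q) (pr q) hq.2.1 hq.2.2.1
      ⟨ph q, by exact_mod_cast hq.1, adjF_symm (adj_hl q)⟩ ⟨ph q, by exact_mod_cast hq.1, adjF_symm (adj_hr q)⟩
    rw [hq.2.2.2.1, hq.2.2.2.2] at h2
    exact absurd h2 (by simp)
  obtain ⟨f, hfW, hfR⟩ := h1
  have hf0 : f ∉ Rev Ω p0 0 := fun h => (mem_un.1 (hWun f hfW)).2 (Rev.mono (Nat.zero_le _) h)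
  obtain ⟨i, hi, h3, _⟩ := exists_first hfR hf0
  have hti : t ≤ i := by
    by_contra hlt
    exact (mem_un.1 (hWun f hfW)).2 (Rev.mono (show i + 1 ≤ t by omega)
      (Rev_succ_iff.2 (Or.inr h3.symm)))
  have hex : ∃ i, t ≤ i ∧ ph (orb Ω p0 i) ∈ W := ⟨i, hti, h3 ▸ hfW⟩
  set t' := Nat.find hex with ht'
  obtain ⟨h4, h5⟩ := Nat.find_spec hex
  have hmin : ∀ s, t ≤ s → s < t' → ph (orb Ω p0 s) ∉ W := fun s hs hs' h =>
    Nat.find_min hex hs' ⟨hs, h⟩
  have hle : t' ≤ i := Nat.find_min' hex ⟨hti, h3 ▸ hfW⟩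
  have hconst : ∀ s, t ≤ s → s ≤ t' → comp (un ω s) z = W ∧ z ∈ un ω s := by
    intro s hs
    induction s, hs using Nat.le_induction with
    | base => intro _; exact ⟨rfl, hz⟩
    | succ s hs ih =>
      intro hs'
      obtain ⟨e1, e2⟩ := ih (by omega)
      have h6 := hmin s hs (by omega)
      have h7 : ph (orb Ω p0 s) ∉ comp (un ω s) z := by rw [e1]; exact h6
      refine ⟨(comp_succ_out h7).trans e1, ?_⟩
      rw [un_succ, Finset.mem_sdiff, Finset.mem_singleton]
      exact ⟨e2, fun h => h7 (h ▸ mem_comp_self e2)⟩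
  obtain ⟨e1, e2⟩ := hconst t' h4 le_rfl
  refine ⟨t', h4, by omega, ?_, e1, e2, hmin⟩
  have h8 := tip_comp hm hn e2 (by rw [e1]; exact h5)
  rw [e1] at h8
  have hSt := St_un hm hn ω t z hz
  exact Pool.Agent.H98.Tri.tipU W Ω hSt _ _ h8 hq

/-! ### The chain and the exploration -/

/-- properties of states which depend on the colours of the touching faces only -/
def Loc {β : Sort*} (X : Finset Fc → (Fc → Bool) → β) : Prop :=
  ∀ (U : Finset Fc) (Ω Ω' : Fc → Bool), (∀ f, f ∉ U → tch ↑U f → Ω f = Ω' f) → X U Ω = X U Ω'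

/-- **The chain driven by the configuration ends at the component of `z` at the time of the end.** -/
theorem crun_eq (hm : 1 ≤ m) (hn : 1 ≤ n) {β : Sort*} {stop : Finset Fc → (Fc → Bool) → Prop}
    {G : Finset Fc → (Fc → Bool) → β} (hs : Loc stop) (hG : Loc G) {N : ℕ}
    (hN : ExitAt (box m n) (ext m n ω) p0 N) {z : Fc} : ∀ (k : ℕ) (t : ℕ) (U : Finset Fc)
    (col : Fc → Bool) (hi : List Bool), t ≤ N → z ∈ un ω t → U = comp (un ω t) z →
    (∀ f, f ∉ U → tch ↑U f → col f = ext m n ω f) → U.card ≤ k →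
    ∃ t', t ≤ t' ∧ t' ≤ N ∧ z ∈ un ω t' ∧
      (stop (comp (un ω t') z) (ext m n ω) ∨ ph (orb (ext m n ω) p0 t') = z ∨ t' = N) ∧
      (∀ s, t ≤ s → s < t' → ¬ stop (comp (un ω s) z) (ext m n ω) ∧
        ph (orb (ext m n ω) p0 s) ≠ z) ∧
      G (crun z (fun U c _ => stop U c) (ext m n ω) k U col hi).1
        (crun z (fun U c _ => stop U c) (ext m n ω) k U col hi).2.1 =
        G (comp (un ω t') z) (ext m n ω) := by
  classical
  intro k
  induction k with
  | zero =>
    intro t U col hi _ hz hU _ hk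
    have h1 : z ∈ U := hU ▸ mem_comp_self hz
    have h2 : U = ∅ := Finset.card_eq_zero.1 (by omega)
    rw [h2] at h1
    exact absurd h1 (by simp)
  | succ k ih =>
    intro t U col hi htN hz hU hcol hk
    have hSt : St U (ext m n ω) := hU ▸ St_un hm hn ω t z hz
    have hTc : tipF U col = tipF U (ext m n ω) := tipF_congr hcol
    by_cases hst : stop U (ext m n ω)
    · -- stopped at once
      refine ⟨t, le_rfl, htN, hz, Or.inl (hU ▸ hst), fun s h1 h2 => absurd h2 (by omega), ?_⟩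
      have e : crun z (fun U c _ => stop U c) (ext m n ω) (k + 1) U col hi = (U, col, hi) := by
        cases hT : tipF U col with
        | none => exact crun_none hT
        | some s => exact crun_stop hT (Or.inl (by rw [hs U col _ hcol]; exact hst))
      rw [e, ← hU]
      exact hG U col _ hcol
    · have hst' : ¬ stop U col := by rw [hs U col _ hcol]; exact hst
      cases hT : tipF U col with
      | none =>
        -- no tip: the component is never entered
        have hnt : ∀ q, ¬ IsTip U (ext m n ω) q := by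
          intro q hq
          rw [hTc, tipF_of hSt hq] at hT
          exact absurd hT (by simp)
        have hconst : ∀ s, t ≤ s → comp (un ω s) z = U ∧ z ∈ un ω s := by
          intro s hs'
          induction s, hs' using Nat.le_induction with
          | base => exact ⟨hU.symm, hz⟩
          | succ s hs' ih' =>
            obtain ⟨e1, e2⟩ := ih'
            have h7 : ph (orb (ext m n ω) p0 s) ∉ comp (un ω s) z := by
              intro h
              have h8 := tip_comp hm hn e2 h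
              rw [e1] at h8
              exact hnt _ h8
            refine ⟨(comp_succ_out h7).trans e1, ?_⟩
            rw [un_succ, Finset.mem_sdiff, Finset.mem_singleton]
            exact ⟨e2, fun h => h7 (h ▸ mem_comp_self e2)⟩
        refine ⟨N, htN, le_rfl, (hconst N htN).2, Or.inr (Or.inr rfl), fun s h1 h2 => ?_, ?_⟩
        · refine ⟨by rw [(hconst s h1).1]; exact hst, fun h => ?_⟩
          have h9 := tip_comp hm hn (hconst s h1).2 (by
            rw [h]; exact mem_comp_self (hconst s h1).2)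
          rw [(hconst s h1).1] at h9
          exact hnt _ h9
        · rw [crun_none hT, (hconst N htN).1]
          exact hG U col _ hcol
      | some x =>
        obtain ⟨q, hq, hqx⟩ := tipF_spec (hTc ▸ hT)
        obtain ⟨t', h1, h2, h3, h4, h5, h6⟩ := reach_tip hm hn hz htN hN (hU ▸ hq)
        rw [← hU] at h4 h6
        have hpre : ∀ s, t ≤ s → s < t' → comp (un ω s) z = U ∧ z ∈ un ω s := by
          intro s hs'
          induction s, hs' using Nat.le_induction with
          | base => intro _; exact ⟨hU.symm, hz⟩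
          | succ s hs' ih' =>
            intro hlt
            obtain ⟨e1, e2⟩ := ih' (by omega)
            have h7 : ph (orb (ext m n ω) p0 s) ∉ comp (un ω s) z := by
              rw [e1]; exact h6 s hs' (by omega)
            refine ⟨(comp_succ_out h7).trans e1, ?_⟩
            rw [un_succ, Finset.mem_sdiff, Finset.mem_singleton]
            exact ⟨e2, fun h => h7 (h ▸ mem_comp_self e2)⟩
        have hpre' : ∀ s, t ≤ s → s < t' → ¬ stop (comp (un ω s) z) (ext m n ω) ∧
            ph (orb (ext m n ω) p0 s) ≠ z := by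
          intro s hs1 hs2
          obtain ⟨e1, e2⟩ := hpre s hs1 hs2
          refine ⟨by rw [e1]; exact hst, fun h => h6 s hs1 hs2 ?_⟩
          rw [h, ← e1]
          exact mem_comp_self e2
        have hphx : ph (orb (ext m n ω) p0 t') = x := by rw [h3]; exact hqx
        by_cases hxz : x = z
        · -- the face ahead is `z`
          refine ⟨t', h1, h2.le, h5, Or.inr (Or.inl (hphx.trans hxz)), hpre', ?_⟩
          rw [crun_stop hT (Or.inr hxz), h4]
          exact hG U col _ hcol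
        · -- one step of the chain
          have hxU : x ∈ U := tipF_mem hT
          have hzun : z ∈ un ω (t' + 1) := by
            rw [un_succ, Finset.mem_sdiff, Finset.mem_singleton]
            exact ⟨h5, fun h => hxz (by rw [h, hphx])⟩
          have hU' : comp (U \ {x}) z = comp (un ω (t' + 1)) z := by
            rw [comp_succ_in hzun, h4, hphx]
          have hcol' : ∀ f, f ∉ comp (U \ {x}) z → tch ↑(comp (U \ {x}) z) f →
              Function.update col x (ext m n ω x) f = ext m n ω f := by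
            intro f hf hft
            by_cases hfx : f = x
            · rw [hfx, Function.update_self]
            · rw [Function.update_of_ne hfx]
              have h8 := tch_comp hf hft
              have h9 : f ∉ U := fun h => h8 (Finset.mem_sdiff.2 ⟨h, by simpa using hfx⟩)
              refine hcol f h9 ?_
              obtain ⟨g, hg1, hg2⟩ := hft
              exact ⟨g, by
                have hg1' : g ∈ comp (U \ {x}) z := by exact_mod_cast hg1
                exact_mod_cast (Finset.mem_sdiff.1 (comp_sub _ _ hg1')).1, hg2⟩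
          have hcard : (comp (U \ {x}) z).card ≤ k := by
            have := comp_card_lt z hxU
            omega
          obtain ⟨t'', g1, g2, g3, g4, g5, g6⟩ := ih (t' + 1) (comp (U \ {x}) z)
            (Function.update col x (ext m n ω x)) (ext m n ω x :: hi) h2 hzun hU' hcol' hcard
          refine ⟨t'', by omega, g2, g3, g4, ?_, ?_⟩
          · intro s hs1 hs2
            rcases Nat.lt_trichotomy s t' with h | h | h
            · exact hpre' s hs1 h
            · subst h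
              exact ⟨by rw [h4]; exact hst, fun h => hxz (by rw [← hphx, h])⟩
            · exact g5 s h hs2
          · rw [crun_step hT hst' hxz]
            exact g6

/-! ### Configurations which agree on the explored faces -/

/-- `ω'` agrees with `ω` on the faces explored at time `t` -/
def Agr (ω ω' : Fin m × Fin n → Bool) (t : ℕ) : Prop :=
  ∀ x, em x ∈ Rev (ext m n ω) p0 t → ω' x = ω x

theorem Agr.refl (ω : Fin m × Fin n → Bool) (t : ℕ) : Agr ω ω t := fun _ _ => rfl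

theorem Agr.ext {ω ω' : Fin m × Fin n → Bool} {t : ℕ} (h : Agr ω ω' t) {f : Fc}
    (hf : f ∈ Rev (Pool.Agent.H74.Tri.ext m n ω) p0 t) :
    Pool.Agent.H74.Tri.ext m n ω f = Pool.Agent.H74.Tri.ext m n ω' f :=
  ext_eq (fun x hx => (h x (hx ▸ hf)).symm)

theorem Agr.orb {ω ω' : Fin m × Fin n → Bool} {t : ℕ} (h : Agr ω ω' t) : ∀ i ≤ t,
    Pool.Agent.H74.Tri.orb (Pool.Agent.H74.Tri.ext m n ω') p0 i =
      Pool.Agent.H74.Tri.orb (Pool.Agent.H74.Tri.ext m n ω) p0 i :=
  orb_congr (fun i hi => h.ext (Rev.mono hi (Rev_succ_iff.2 (Or.inr rfl))))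

theorem Agr.rev {ω ω' : Fin m × Fin n → Bool} {t : ℕ} (h : Agr ω ω' t) {s : ℕ} (hs : s ≤ t) :
    Rev (Pool.Agent.H74.Tri.ext m n ω') p0 s = Rev (Pool.Agent.H74.Tri.ext m n ω) p0 s := by
  ext f
  constructor
  · rintro ⟨i, hi, h1⟩
    rw [h.orb i (by omega)] at h1
    exact ⟨i, hi, h1⟩
  · rintro ⟨i, hi, h1⟩
    refine ⟨i, hi, ?_⟩
    rw [h.orb i (by omega)]
    exact h1

theorem Agr.symm {ω ω' : Fin m × Fin n → Bool} {t : ℕ} (h : Agr ω ω' t) : Agr ω' ω t := by
  intro x hx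
  rw [h.rev le_rfl] at hx
  exact (h x hx).symm

theorem Agr.mono {ω ω' : Fin m × Fin n → Bool} {s t : ℕ} (h : Agr ω ω' t) (hs : s ≤ t) :
    Agr ω ω' s := fun x hx => h x (Rev.mono hs hx)

theorem Agr.un {ω ω' : Fin m × Fin n → Bool} {t : ℕ} (h : Agr ω ω' t) {s : ℕ} (hs : s ≤ t) :
    Pool.Agent.H74.Tri.un ω' s = Pool.Agent.H74.Tri.un ω s := by
  ext f
  rw [mem_un, mem_un, h.rev hs]

/-- colours of the faces touching a component of the unexplored faces -/
theorem Agr.tch {ω ω' : Fin m × Fin n → Bool} {t : ℕ} (h : Agr ω ω' t) {z f : Fc}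
    (hf : f ∉ comp (Pool.Agent.H74.Tri.un ω t) z)
    (ht : Pool.Agent.H74.Tri.tch (↑(comp (Pool.Agent.H74.Tri.un ω t) z) : Set Fc) f) :
    Pool.Agent.H74.Tri.ext m n ω f = Pool.Agent.H74.Tri.ext m n ω' f := by
  have h1 := tch_comp hf ht
  by_cases hb : f ∈ box m n
  · refine h.ext ?_
    by_contra h2
    exact h1 (mem_un.2 ⟨hb, h2⟩)
  · rw [ext_out _ hb, ext_out _ hb]

theorem Agr.exit (hm : 1 ≤ m) (hn : 1 ≤ n) {ω ω' : Fin m × Fin n → Bool} {N : ℕ}
    (h : Agr ω ω' N) (hN : ExitAt (box m n) (Pool.Agent.H74.Tri.ext m n ω) p0 N) :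
    ExitAt (box m n) (Pool.Agent.H74.Tri.ext m n ω') p0 N := by
  have horb := orb_congr (ω := Pool.Agent.H74.Tri.ext m n ω) (ω' := Pool.Agent.H74.Tri.ext m n ω')
      (p := p0) (N := N + 1) (by
    intro i hi
    rcases Nat.lt_or_ge i N with h1 | h1
    · exact h.ext (Rev.mono h1 (Rev_succ_iff.2 (Or.inr rfl)))
    · have hi' : i = N := by omega
      subst hi'
      have hb : ph (Pool.Agent.H74.Tri.orb (Pool.Agent.H74.Tri.ext m n ω) p0 i) ∉ box m n := by
        intro hb
        rcases next_cases (Pool.Agent.H74.Tri.ext m n ω) p0 i with ⟨h3, _⟩ | ⟨_, h3⟩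
        · exact hN.2.2.2.1 (by rw [h3]; exact hb)
        · exact hN.2.2.2.2.1 (by rw [h3]; exact hb)
      rw [ext_out _ hb, ext_out _ hb])
  refine ⟨hN.1, fun i h1 h2 => ?_, ?_⟩
  · rw [horb i (by omega)]; exact hN.2.1 i h1 h2
  · have h2 := hN.2.2
    have h3 := ((Pool.Agent.H11.Tri.init m n (Pool.Agent.H74.Tri.ext m n ω') hm hn
      (ext_bc ω')).2.2.2.2).orb (N + 1)
    rw [horb (N + 1) le_rfl] at h3 ⊢
    exact ⟨h2.1, h2.2.1, h2.2.2.1, h3⟩

/-- if `t` is before the exit for `ω` then also for `ω'` -/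
theorem Agr.le_exit (hm : 1 ≤ m) (hn : 1 ≤ n) {ω ω' : Fin m × Fin n → Bool} {t N N' : ℕ}
    (h : Agr ω ω' t) (ht : t ≤ N) (hN : ExitAt (box m n) (Pool.Agent.H74.Tri.ext m n ω) p0 N)
    (hN' : ExitAt (box m n) (Pool.Agent.H74.Tri.ext m n ω') p0 N') : t ≤ N' := by
  by_contra hlt
  have h1 : ExitAt (box m n) (Pool.Agent.H74.Tri.ext m n ω) p0 N' :=
    Agr.exit hm hn (h.mono (by omega)).symm hN'
  have := exit_unique hN h1
  omega

/-! ### The expectation -/

section glue

variable {α : Type*} {ι : Fin m × Fin n → α} {E S ω₀ : Finset α}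

theorem agr_of {t : ℕ} (hS : ∀ x, em x ∈ Rev (ext m n (cf ι ω₀)) p0 t → ι x ∈ S)
    {ω : Finset α} [DecidableEq α] (h : ω ∩ S = ω₀ ∩ S) : Agr (cf ι ω₀) (cf ι ω) t := by
  intro x hx
  have h1 : ι x ∈ ω ↔ ι x ∈ ω₀ := by
    have h2 := congrArg (fun s => ι x ∈ s) h
    simp only [Finset.mem_inter, hS x hx, and_true, eq_iff_iff] at h2
    exact h2
  exact decide_eq_decide.2 h1

/-- **GLUE.**  The conditional expectation, given what is explored at the time `t0`, of a functional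
which is a local function `G` of the component of `z` at the end of its chain (first time `≥ t0` with
`stop`, or with `z` ahead, or the exit) is the expectation along helper93's chain. -/
theorem glue (hm : 1 ≤ m) (hn : 1 ≤ n) (hι : Function.Injective ι) (h0 : ω₀ ⊆ E) {t0 N0 : ℕ}
    (hN0 : ExitAt (box m n) (ext m n (cf ι ω₀)) p0 N0) (ht0 : t0 ≤ N0) {z : Fc}
    (hz : z ∈ un (cf ι ω₀) t0)
    (hE : ∀ x, em x ∈ comp (un (cf ι ω₀) t0) z → ι x ∈ E ∧ ι x ∉ S)
    (hS : ∀ x, em x ∈ Rev (ext m n (cf ι ω₀)) p0 t0 → ι x ∈ S)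
    {stop : Finset Fc → (Fc → Bool) → Prop} {G : Finset Fc → (Fc → Bool) → ℝ} (hs : Loc stop)
    (hG : Loc G) {F : Finset α → ℝ}
    (hF : ∀ ω ⊆ E, Agr (cf ι ω₀) (cf ι ω) t0 → ∀ t N, t0 ≤ t → t ≤ N →
      ExitAt (box m n) (ext m n (cf ι ω)) p0 N → z ∈ un (cf ι ω) t →
      (stop (comp (un (cf ι ω) t) z) (ext m n (cf ι ω)) ∨
        ph (orb (ext m n (cf ι ω)) p0 t) = z ∨ t = N) →
      (∀ s, t0 ≤ s → s < t → ¬ stop (comp (un (cf ι ω) s) z) (ext m n (cf ι ω)) ∧
        ph (orb (ext m n (cf ι ω)) p0 s) ≠ z) →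
      F ω = G (comp (un (cf ι ω) t) z) (ext m n (cf ι ω))) :
    CX E S ω₀ F = Ev z (fun U c _ => stop U c) (fun U c _ => G U c)
      (comp (un (cf ι ω₀) t0) z) (ext m n (cf ι ω₀)) [] := by
  classical
  have hbox : comp (un (cf ι ω₀) t0) z ⊆ box m n := fun f hf =>
    (mem_un.1 (comp_sub _ _ hf)).1
  unfold Ev
  rw [← CX_crun (stop := fun U c _ => stop U c) hι (fun U c _ => G U c) E _ _ _ _ S ω₀ h0 hbox hE]
  refine CX_congr ?_
  intro ω hω hag
  have hA := agr_of hS hag
  obtain ⟨N, hN⟩ := exists_exit hm hn (cf ι ω)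
  have htN : t0 ≤ N := Agr.le_exit hm hn hA ht0 hN0 hN
  have hun : un (cf ι ω) t0 = un (cf ι ω₀) t0 := hA.un le_rfl
  obtain ⟨t', h1, h2, h3, h4, h5, h6⟩ := crun_eq (ω := cf ι ω) hm hn hs hG hN
    (comp (un (cf ι ω₀) t0) z).card t0 (comp (un (cf ι ω₀) t0) z) (ext m n (cf ι ω₀)) [] htN
    (by rw [hun]; exact hz) (by rw [hun]) (fun f hf hft => hA.tch hf hft) le_rfl
  rw [h6]
  exact hF ω hω hA t' N h1 h2 hN h3 h4 h5

end glue

/-! ### Stopping times of the exploration -/

/-- the exploration has left the box at the time `t` -/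
def Out (ω : Fin m × Fin n → Bool) (t : ℕ) : Prop :=
  ∃ N ≤ t, ExitAt (box m n) (ext m n ω) p0 N

/-- a property of the path up to the time `t` -/
def Pth (P : (Fin m × Fin n → Bool) → ℕ → Prop) : Prop :=
  ∀ ω ω' t, Agr ω ω' t → (P ω t ↔ P ω' t)

theorem pth_out (hm : 1 ≤ m) (hn : 1 ≤ n) : Pth (m := m) (n := n) Out := by
  have key : ∀ {ω ω' : Fin m × Fin n → Bool} {t : ℕ}, Agr ω ω' t → Out ω t → Out ω' t := by
    rintro ω ω' t h ⟨N, h1, h2⟩
    exact ⟨N, h1, Agr.exit hm hn (h.mono h1) h2⟩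
  exact fun ω ω' t h => ⟨key h, key h.symm⟩

open Classical in
/-- the first time with `P`, or the exit time -/
noncomputable def hit (P : (Fin m × Fin n → Bool) → ℕ → Prop) (ω : Fin m × Fin n → Bool) : ℕ :=
  if h : ∃ t, P ω t ∨ Out ω t then Nat.find h else 0

theorem hit_spec (hm : 1 ≤ m) (hn : 1 ≤ n) (P : (Fin m × Fin n → Bool) → ℕ → Prop)
    (ω : Fin m × Fin n → Bool) : (P ω (hit P ω) ∨ Out ω (hit P ω)) ∧
    ∀ s < hit P ω, ¬ P ω s ∧ ¬ Out ω s := by
  classical
  obtain ⟨N, hN⟩ := exists_exit hm hn ω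
  have h : ∃ t, P ω t ∨ Out ω t := ⟨N, Or.inr ⟨N, le_rfl, hN⟩⟩
  unfold hit
  rw [dif_pos h]
  refine ⟨Nat.find_spec h, fun s hs => ?_⟩
  have := Nat.find_min h hs
  push Not at this
  exact this

theorem hit_le {P : (Fin m × Fin n → Bool) → ℕ → Prop} {ω : Fin m × Fin n → Bool} {N : ℕ}
    (hN : ExitAt (box m n) (ext m n ω) p0 N) : hit P ω ≤ N := by
  classical
  have h : ∃ t, P ω t ∨ Out ω t := ⟨N, Or.inr ⟨N, le_rfl, hN⟩⟩
  unfold hit
  rw [dif_pos h]
  exact Nat.find_min' h (Or.inr ⟨N, le_rfl, hN⟩)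

theorem hit_le_of {P : (Fin m × Fin n → Bool) → ℕ → Prop} {ω : Fin m × Fin n → Bool} {t : ℕ}
    (ht : P ω t) : hit P ω ≤ t := by
  classical
  have h : ∃ t, P ω t ∨ Out ω t := ⟨t, Or.inl ht⟩
  unfold hit
  rw [dif_pos h]
  exact Nat.find_min' h (Or.inl ht)

/-- a stopping time of the exploration -/
def IsSt (τ : (Fin m × Fin n → Bool) → ℕ) : Prop := ∀ ω ω', Agr ω ω' (τ ω) → τ ω' = τ ω

theorem isSt_hit (hm : 1 ≤ m) (hn : 1 ≤ n) {P : (Fin m × Fin n → Bool) → ℕ → Prop} (hP : Pth P) :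
    IsSt (hit P) := by
  intro ω ω' h
  obtain ⟨h1, h2⟩ := hit_spec hm hn P ω
  obtain ⟨h3, h4⟩ := hit_spec hm hn P ω'
  have hO := pth_out (m := m) (n := n) hm hn
  rcases lt_trichotomy (hit P ω') (hit P ω) with hlt | heq | hlt
  · exfalso
    have h5 := h2 _ hlt
    have h6 := h.mono hlt.le
    rcases h3 with h3 | h3
    · exact h5.1 ((hP _ _ _ h6).2 h3)
    · exact h5.2 ((hO _ _ _ h6).2 h3)
  · exact heq
  · exfalso
    have h5 := h4 _ hlt
    rcases h1 with h1 | h1
    · exact h5.1 ((hP _ _ _ h).1 h1)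
    · exact h5.2 ((hO _ _ _ h).1 h1)

theorem hit_mono {P P' : (Fin m × Fin n → Bool) → ℕ → Prop} (hm : 1 ≤ m) (hn : 1 ≤ n)
    (ω : Fin m × Fin n → Bool) (h : ∀ t, P' ω t → ∃ s ≤ t, P ω s) : hit P ω ≤ hit P' ω := by
  obtain ⟨h1, _⟩ := hit_spec hm hn P' ω
  rcases h1 with h1 | ⟨N, h1, h2⟩
  · obtain ⟨s, hs, h3⟩ := h _ h1
    exact (hit_le_of h3).trans hs
  · exact (hit_le h2).trans h1

section region

variable {α : Type*} [Fintype α]

open Classical in
/-- the region of the variables explored at the time `τ` -/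
noncomputable def TR (ι : Fin m × Fin n → α) (τ : (Fin m × Fin n → Bool) → ℕ) (ω : Finset α) :
    Finset α :=
  Finset.univ.filter (fun a => ∃ x, ι x = a ∧ em x ∈ Rev (ext m n (cf ι ω)) p0 (τ (cf ι ω)))

theorem mem_TR {ι : Fin m × Fin n → α} {τ : (Fin m × Fin n → Bool) → ℕ} {ω : Finset α} {a : α} :
    a ∈ TR ι τ ω ↔ ∃ x, ι x = a ∧ em x ∈ Rev (ext m n (cf ι ω)) p0 (τ (cf ι ω)) := by
  classical
  unfold TR
  rw [Finset.mem_filter]
  simp

theorem agr_TR [DecidableEq α] {ι : Fin m × Fin n → α} {τ : (Fin m × Fin n → Bool) → ℕ}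
    {ω ω' : Finset α} (h : ω' ∩ TR ι τ ω = ω ∩ TR ι τ ω) : Agr (cf ι ω) (cf ι ω') (τ (cf ι ω)) :=
  agr_of (S := TR ι τ ω) (fun x hx => mem_TR.2 ⟨x, rfl, hx⟩) h

theorem isStop_TR {ι : Fin m × Fin n → α} {τ : (Fin m × Fin n → Bool) → ℕ} (hτ : IsSt τ)
    (E : Finset α) : IsStop E (TR ι τ) := by
  classical
  refine ⟨fun ω _ ω' _ h => ?_⟩
  have h1 : Agr (cf ι ω) (cf ι ω') (τ (cf ι ω)) := by
    refine agr_of (S := TR ι τ ω) (fun x hx => mem_TR.2 ⟨x, rfl, hx⟩) ?_
    convert h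
  have h2 := hτ _ _ h1
  ext a
  rw [mem_TR, mem_TR, h2, h1.rev le_rfl]

theorem TR_mono {ι : Fin m × Fin n → α} {τ τ' : (Fin m × Fin n → Bool) → ℕ} {ω : Finset α}
    (h : τ (cf ι ω) ≤ τ' (cf ι ω)) : TR ι τ ω ⊆ TR ι τ' ω := by
  intro a ha
  rw [mem_TR] at ha ⊢
  obtain ⟨x, h1, h2⟩ := ha
  exact ⟨x, h1, Rev.mono h h2⟩

end region

end Pool.Agent.H74.Tri
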