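import Pool.Agent.H74.Tri.Geo8
import Pool.Agent.H75.Lv.Site3
import Pool.Agent.H29.Lv.Cong
import Pool.Agent.H89.Per.LabA
import Pool.Agent.H89.Per.Rect2

set_option autoImplicit false

/-! MP_2e6055 (helper74), module INST: the attempts of helper75's model. -/

namespace Pool.Agent.H74.Tri

open Pool.Agent.H7.UC Pool.Agent.H89.Per Pool.Agent.H75.Lv

variable {c : Cf}

open Classical in
/-- the sites of a set of faces -/
noncomputable def sit (m n : ℕ) (S : Finset Fc) : Finset (Fin m × Fin n) :=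
  Finset.univ.filter (fun x => em x ∈ S)

theorem mem_sit {m n : ℕ} {S : Finset Fc} {x : Fin m × Fin n} : x ∈ sit m n S ↔ em x ∈ S := by
  classical
  unfold sit
  rw [Finset.mem_filter]
  exact ⟨fun h => h.2, fun h => ⟨Finset.mem_univ _, h⟩⟩

open Classical in
/-- the label data of helper75's model -/
noncomputable def lg (c : Cf) : LG c.m c.n c.Lab where
  aS := fun κ => c.aS (c.sc κ) (c.ct κ)
  gk := fun κ Ω => c.AN (c.sc κ) (c.ct κ) Ω
  Q := fun κ => Finset.univ.filter (fun x => c.sq (c.sc κ) (em x) = c.ct κ)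
  Bl := fun κ => sit c.m c.n (c.En (c.sc κ) (c.ct κ))
  Ad := fun κ D Ω _ => Adm c.g c.s3 (c.un (c.sc κ)) D Ω (c.ct κ)

theorem mem_Q {κ : c.Lab} {x : c.V} : x ∈ (lg c).Q κ ↔ c.sq (c.sc κ) (em x) = c.ct κ := by
  classical
  unfold lg
  simp

theorem mem_Bl {κ : c.Lab} {x : c.V} : x ∈ (lg c).Bl κ ↔ em x ∈ c.En (c.sc κ) (c.ct κ) := mem_sit

theorem ct_sq (κ : c.Lab) : c.ct κ = c.sq (c.sc κ) (c.ct κ) := (label_sq κ).symm

/-- the end box of a label is in the box -/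
theorem En_lab (hc : c.Ok) (κ : c.Lab) {f : Fc} (hf : f ∈ c.En (c.sc κ) (c.ct κ)) :
    f ∈ box c.m c.n := by
  rw [ct_sq κ] at hf
  exact En_box hc (label_use κ) hf

theorem ct_mem (hc : c.Ok) (κ : c.Lab) : c.ct κ ∈ c.En (c.sc κ) (c.ct κ) := by
  have h := self_En hc (c.sc κ) (c.ct κ)
  rw [← ct_sq κ] at h
  exact h

/-- a lattice box is connected -/
theorem jn_row {v : Fc} {s : ℤ} {a b : Fc} (ha : a ∈ Bx v s) (hb : b ∈ Bx v s) :
    Jn (↑(Bx v s) : Set Fc) a b := by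
  rw [mem_Bx] at ha hb
  simp only [abs_le] at ha hb
  -- move along the first coordinate
  have h1 : ∀ k : ℕ, ∀ x y z : ℤ, |x - v.1| ≤ s → |z - v.1| ≤ s → |y - v.2| ≤ s → |z - x| ≤ k →
      Jn (↑(Bx v s) : Set Fc) (x, y) (z, y) := by
    intro k
    induction k with
    | zero =>
      intro x y z _ _ _ h
      have : z = x := by
        rw [abs_le] at h
        push_cast at h
        omega
      rw [this]
      exact Jn.refl _
    | succ k ih =>
      intro x y z hx hz hy h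
      simp only [abs_le] at hx hz hy h
      push_cast at h
      rcases lt_trichotomy x z with hlt | heq | hlt
      · have m1 : ((x + 1, y) : Fc) ∈ (↑(Bx v s) : Set Fc) := by
          rw [Finset.mem_coe, mem_Bx]; simp only [abs_le]; omega
        have m2 : adjF (x, y) (x + 1, y) := (adjF_iff _ _).2 (Or.inl ⟨rfl, rfl⟩)
        exact (Jn.single m1 m2).trans (ih (x + 1) y z (by rw [abs_le]; omega)
          (by rw [abs_le]; omega) (by rw [abs_le]; omega) (by rw [abs_le]; omega))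
      · rw [heq]; exact Jn.refl _
      · have m1 : ((x - 1, y) : Fc) ∈ (↑(Bx v s) : Set Fc) := by
          rw [Finset.mem_coe, mem_Bx]; simp only [abs_le]; omega
        have m2 : adjF (x, y) (x - 1, y) := (adjF_iff _ _).2 (Or.inr (Or.inl ⟨rfl, rfl⟩))
        exact (Jn.single m1 m2).trans (ih (x - 1) y z (by rw [abs_le]; omega)
          (by rw [abs_le]; omega) (by rw [abs_le]; omega) (by rw [abs_le]; omega))
  have h2 : ∀ k : ℕ, ∀ x y z : ℤ, |x - v.2| ≤ s → |z - v.2| ≤ s → |y - v.1| ≤ s → |z - x| ≤ k →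
      Jn (↑(Bx v s) : Set Fc) (y, x) (y, z) := by
    intro k
    induction k with
    | zero =>
      intro x y z _ _ _ h
      have : z = x := by
        rw [abs_le] at h
        push_cast at h
        omega
      rw [this]
      exact Jn.refl _
    | succ k ih =>
      intro x y z hx hz hy h
      simp only [abs_le] at hx hz hy h
      push_cast at h
      rcases lt_trichotomy x z with hlt | heq | hlt
      · have m1 : ((y, x + 1) : Fc) ∈ (↑(Bx v s) : Set Fc) := by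
          rw [Finset.mem_coe, mem_Bx]; simp only [abs_le]; omega
        have m2 : adjF (y, x) (y, x + 1) := (adjF_iff _ _).2 (Or.inr (Or.inr (Or.inl ⟨rfl, rfl⟩)))
        exact (Jn.single m1 m2).trans (ih (x + 1) y z (by rw [abs_le]; omega)
          (by rw [abs_le]; omega) (by rw [abs_le]; omega) (by rw [abs_le]; omega))
      · rw [heq]; exact Jn.refl _
      · have m1 : ((y, x - 1) : Fc) ∈ (↑(Bx v s) : Set Fc) := by
          rw [Finset.mem_coe, mem_Bx]; simp only [abs_le]; omega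
        have m2 : adjF (y, x) (y, x - 1) :=
          (adjF_iff _ _).2 (Or.inr (Or.inr (Or.inr (Or.inl ⟨rfl, rfl⟩))))
        exact (Jn.single m1 m2).trans (ih (x - 1) y z (by rw [abs_le]; omega)
          (by rw [abs_le]; omega) (by rw [abs_le]; omega) (by rw [abs_le]; omega))
  have e1 := h1 ((|b.1 - a.1|).toNat) a.1 a.2 b.1 (by rw [abs_le]; omega) (by rw [abs_le]; omega)
    (by rw [abs_le]; omega) (by rw [Int.toNat_of_nonneg (abs_nonneg _)])
  have e2 := h2 ((|b.2 - a.2|).toNat) a.2 b.1 b.2 (by rw [abs_le]; omega) (by rw [abs_le]; omega)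
    (by rw [abs_le]; omega) (by rw [Int.toNat_of_nonneg (abs_nonneg _)])
  exact e1.trans e2

/-- the label data satisfy the hypotheses -/
theorem lg_ok (hc : c.Ok) : (lg c).Ok where
  dj := by
    intro κ x hx h
    rw [mem_Bl] at hx
    obtain ⟨_, h2⟩ := ann_far hc (show em x ∈ c.aS (c.sc κ) (c.ct κ) from h)
    obtain ⟨A, B, eA, eB, a1, a2, a3, a4, a5, a6⟩ := scale_num hc (c.sc κ)
    unfold Cf.En at hx
    rw [mem_Bx, eA] at hx
    rw [eB] at h2
    rcases h2 with h2 | h2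
    · linarith [hx.1]
    · linarith [hx.2]
  conn := by
    intro κ x hx y hy
    rw [mem_Bl] at hx hy
    refine (jn_row hx hy).mono ?_
    intro f hf
    have hf' : f ∈ c.En (c.sc κ) (c.ct κ) := by exact_mod_cast hf
    obtain ⟨z, rfl⟩ := exists_em (En_lab hc κ hf')
    exact ⟨z, mem_Bl.2 hf', rfl⟩
  nest := by
    intro κ1 κ2 v h1 h2
    rw [mem_Q] at h1 h2
    rcases lt_trichotomy (c.sc κ1) (c.sc κ2) with h | h | h
    · -- `κ1` smaller
      left
      intro x hx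
      rw [mem_Bl] at hx ⊢
      rw [← h1] at hx
      rw [← h2]
      exact En_big hc h hx (Or.inr rfl)
    · left
      have e : c.ct κ1 = c.ct κ2 := by rw [← h1, ← h2, h]
      rw [label_eq h e]
    · -- `κ2` smaller
      right
      intro x hx
      rw [mem_Bl]
      obtain ⟨h3, _⟩ := ann_far hc (show em x ∈ c.aS (c.sc κ2) (c.ct κ2) from hx)
      obtain ⟨A, B, eA, eB, a1, a2, a3, a4, a5, a6⟩ := scale_num hc (c.sc κ2)
      obtain ⟨A', B', eA', eB', b1, b2, b3, b4, b5, b6⟩ := scale_num hc (c.sc κ1)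
      rw [eB] at h3
      have n1 := Pool.Agent.H89.Per.sq_near hc (c.sc κ1) (em v)
      have n2 := Pool.Agent.H89.Per.sq_near hc (c.sc κ2) (em v)
      rw [h1, b5] at n1
      rw [h2, a5] at n2
      have hB : 64 * B ≤ c.un (c.sc κ1) := by
        have h4 := hc.un_step (c.sc κ2)
        have h5 := un_le hc (show c.sc κ2 + 1 ≤ c.sc κ1 from h)
        have h6 : 64 * c.L * c.g.N * c.g.h * c.un (c.sc κ2) = c.L * (64 * B) := by
          rw [← eB]; ring
        have h7 := hc.L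
        have h8 : 64 * B ≤ c.L * (64 * B) := by nlinarith
        linarith
      unfold Cf.En
      rw [mem_Bx, eA']
      simp only [abs_le] at h3 n1 n2 ⊢
      omega
  own := by
    intro κ x hx
    rw [mem_Q] at hx
    rw [mem_Bl, ← hx]
    exact self_En hc _ _
  ne := by
    intro κ
    refine ⟨κ.1.2, mem_Q.2 ?_⟩
    exact label_sq κ
  loc := by
    intro κ D Ω Ω' q h hA
    exact (Pool.Agent.H29.Lv.admc c.g c.s3 (c.un (c.sc κ)) D (c.ct κ) Ω Ω'
      (fun f h1 h2 => h f h2 h1)).1 hA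
  h6 := by
    intro κ D Ω q hDb hSt hq hBl hph hAd Ω' hg hΩ
    obtain ⟨_, ⟨d, hP⟩, _⟩ := hAd
    set C : Set Fc := {z | z ∈ annS (c.pc d (c.sc κ) (c.ct κ)) (c.un (c.sc κ)) ∧ Ω' z = true}
      with hC
    have hCs : C ⊆ annS (c.pc d (c.sc κ) (c.ct κ)) (c.un (c.sc κ)) := fun z hz => hz.1
    have hCa : C ⊆ c.aS (c.sc κ) (c.ct κ) := fun z hz => ⟨d, hz.1⟩
    refine ⟨C, hCa, fun f hf hfc => by rw [← hΩ f hf]; exact hfc.2, ?_⟩
    have h1 := hP C hCs (bls_ann (hg d))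
    -- the component of the tip face is the component of the centre
    have hdj : ∀ x ∈ (lg c).Bl κ, em x ∉ C := by
      intro x hx hxC
      rw [mem_Bl] at hx
      obtain ⟨_, h2⟩ := ann_far hc (hCa hxC)
      obtain ⟨A, B, eA, eB, a1, a2, a3, a4, a5, a6⟩ := scale_num hc (c.sc κ)
      unfold Cf.En at hx
      rw [mem_Bx, eA] at hx
      rw [eB] at h2
      rcases h2 with h2 | h2
      · linarith [hx.1]
      · linarith [hx.2]
    have hBK : ∀ f ∈ c.En (c.sc κ) (c.ct κ), f ∈ D \ KC D Ω C := by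
      intro f hf
      obtain ⟨x, rfl⟩ := exists_em (En_lab hc κ hf)
      have hx : x ∈ (lg c).Bl κ := mem_Bl.2 hf
      exact Finset.mem_sdiff.2 ⟨hBl x hx, fun h => hdj x hx (mem_KC.1 h).2.1⟩
    obtain ⟨y, hy, hyq⟩ := hph
    rw [mem_Bl] at hy
    have hct := ct_mem hc κ
    have hmem : ph q ∈ comp (D \ KC D Ω C) (c.ct κ) := by
      rw [← hyq]
      refine mem_comp.2 ⟨hBK _ hy, (jn_row hct hy).mono ?_⟩
      intro f hf
      have hf' : f ∈ c.En (c.sc κ) (c.ct κ) := by exact_mod_cast hf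
      exact_mod_cast hBK f hf'
    have e := comp_eq_of_mem (hBK _ hct) hmem
    rw [e]
    intro f hf
    have h2 := h1 hf
    obtain ⟨A, B, eA, eB, a1, a2, a3, a4, a5, a6⟩ := scale_num hc (c.sc κ)
    have h3 : 17 * c.g.N * c.g.h * c.un (c.sc κ) = 17 * B := by rw [← eB]; ring
    rw [h3, mem_Bx] at h2
    simp only [abs_le] at h2
    intro hfm
    have h4 : ((f.1 + 1, f.2) : Fc) ∈ box c.m c.n := by
      refine (label_use κ).2.2 ?_
      rw [← ct_sq κ, mem_Bx, a6]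
      simp only [abs_le]
      omega
    rw [mem_box'] at h4
    simp only at h4
    omega

/-- the annuli are in the box -/
theorem ann_box (hc : c.Ok) (κ : c.Lab) (d : Fin 8) :
    3 * (c.un (c.sc κ) : ℤ) ≤ (c.pc d (c.sc κ) (c.ct κ)).1 ∧
    (c.pc d (c.sc κ) (c.ct κ)).1 + 3 * c.un (c.sc κ) < c.m ∧
    3 * (c.un (c.sc κ) : ℤ) ≤ (c.pc d (c.sc κ) (c.ct κ)).2 ∧
    (c.pc d (c.sc κ) (c.ct κ)).2 + 3 * c.un (c.sc κ) < c.n := by
  obtain ⟨A, B, eA, eB, a1, a2, a3, a4, a5, a6⟩ := scale_num hc (c.sc κ)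
  have hpu : ∃ (p : Fc) (u : ℕ), c.pc d (c.sc κ) (c.ct κ) = p ∧ c.un (c.sc κ) = u := ⟨_, _, rfl, rfl⟩
  obtain ⟨p, u, hp, hu⟩ := hpu
  -- two corners of the annulus
  have c1 : ((p.1 - 3 * u, p.2 - 3 * u) : Fc) ∈ c.aS (c.sc κ) (c.ct κ) := by
    refine ⟨d, ?_⟩
    rw [hp, hu]
    unfold annS
    rw [Set.mem_ofPred_eq]
    simp only
    omega
  have c2 : ((p.1 + 3 * u, p.2 + 3 * u) : Fc) ∈ c.aS (c.sc κ) (c.ct κ) := by
    refine ⟨d, ?_⟩
    rw [hp, hu]
    unfold annS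
    rw [Set.mem_ofPred_eq]
    simp only
    omega
  have hb : ∀ f : Fc, f ∈ c.aS (c.sc κ) (c.ct κ) → f ∈ box c.m c.n := by
    intro f hf
    obtain ⟨h3, _⟩ := ann_far hc hf
    refine (label_use κ).2.2 ?_
    rw [← ct_sq κ, mem_Bx, a6]
    rw [eB] at h3
    constructor
    · linarith [h3.1]
    · linarith [h3.2]
  have e1 := mem_box'.1 (hb _ c1)
  have e2 := mem_box'.1 (hb _ c2)
  simp only at e1 e2
  rw [hp, hu]
  omega

/-- the launches are the launches of the model -/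
theorem tr_launch (hc : c.Ok) (τ : c.Lab → DT c.V) {ω : c.V → Bool} {t : ℕ} {h : List (MS c.m c.n)}
    (hh : (mainE c.m c.n).hist ω t = some h) (κ : c.Lab) :
    κ ∈ ((lg c).att τ).tr h ↔ c.Launch ω t (c.sc κ) (c.ct κ) := by
  obtain ⟨_, rfl⟩ := hist_iff.1 hh
  show κ ∈ (lg c).tr (stL ω t) ↔ _
  rw [LG.mem_tr (lg_ok hc).loc]
  have h1 : (∃ x ∈ (lg c).Bl κ, em x = ph (orb (ext c.m c.n ω) p0 t)) ↔
      ph (orb (ext c.m c.n ω) p0 t) ∈ c.En (c.sc κ) (c.ct κ) := by
    constructor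
    · rintro ⟨x, hx, e⟩
      rw [← e]
      exact mem_Bl.1 hx
    · intro h
      obtain ⟨x, hx⟩ := exists_em (En_lab hc κ h)
      exact ⟨x, mem_Bl.2 (hx ▸ h), hx⟩
  have h2 : (∀ x ∈ (lg c).Bl κ, em x ∉ Rev (ext c.m c.n ω) p0 t) ↔
      ∀ f ∈ c.En (c.sc κ) (c.ct κ), f ∉ Rev (ext c.m c.n ω) p0 t := by
    constructor
    · intro h f hf
      obtain ⟨x, rfl⟩ := exists_em (En_lab hc κ hf)
      exact h x (mem_Bl.2 hf)
    · intro h x hx
      exact h _ (mem_Bl.1 hx)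
  unfold Cf.Launch
  rw [h1, h2]
  refine and_congr_right (fun g1 => and_congr_right (fun g2 => ?_))
  have hun : ∀ f ∈ c.En (c.sc κ) (c.ct κ), f ∈ un ω t := fun f hf =>
    mem_un.2 ⟨En_lab hc κ hf, g2 f hf⟩
  have hct := ct_mem hc κ
  have hmem : ph (orb (ext c.m c.n ω) p0 t) ∈ comp (un ω t) (c.ct κ) := by
    refine mem_comp.2 ⟨hun _ g1, (jn_row hct g1).mono ?_⟩
    intro f hf
    have hf' : f ∈ c.En (c.sc κ) (c.ct κ) := by exact_mod_cast hf
    exact_mod_cast hun f hf'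
  rw [comp_eq_of_mem (hun _ hct) hmem]
  exact Iff.rfl

/-- **The attempts of the model** with their trees. -/
theorem exists_att (hc : c.Ok) {B : c.Lab → ℝ}
    (hB : ∀ κ : c.Lab, Has (6 * c.un (c.sc κ) + 1) (2 * c.un (c.sc κ) + 1) (B κ)) :
    ∃ (T : Att c.V c.Lab (mainE c.m c.n)) (N0 : ℕ), c.Spec T ∧
      (∀ N, N0 ≤ N → T.Hyp (crF c.m c.n) N) ∧
      (∀ κ, avg (fun ω => (qcount (T.τ κ) ω : ℝ)) ≤ 8 * (4 * B κ)) := by
  classical
  have hcen : ∀ κ : c.Lab, ∃ τ : DT c.V,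
      Decides τ (fun ω => c.AN (c.sc κ) (c.ct κ) (ext c.m c.n ω)) ∧ Once ((lg c).AS κ) τ ∧
      avg (fun ω => (qcount τ ω : ℝ)) ≤ 8 * (4 * B κ) := by
    intro κ
    obtain ⟨τ, h1, h2, h3⟩ := anns_dt hc.m hc.n (c.un (c.sc κ)) (hB κ)
      (List.ofFn (fun d : Fin 8 => c.pc d (c.sc κ) (c.ct κ))) ((lg c).AS κ) (by
        intro p hp x hx
        obtain ⟨d, rfl⟩ := (List.mem_ofFn' _ _).1 hp
        rw [LG.mem_AS]
        exact ⟨d, mem_annF'.1 hx⟩) (by
        intro p hp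
        obtain ⟨d, rfl⟩ := (List.mem_ofFn' _ _).1 hp
        exact ann_box hc κ d)
    refine ⟨τ, decides_congr h1 (fun ω => ?_), h2, ?_⟩
    · unfold Cf.AN
      constructor
      · intro h p hp
        obtain ⟨d, rfl⟩ := (List.mem_ofFn' _ _).1 hp
        exact h d
      · intro h d
        exact h _ ((List.mem_ofFn' _ _).2 ⟨d, rfl⟩)
    · rw [List.length_ofFn] at h3
      exact_mod_cast h3
  choose τ hτ1 hτ2 hτ3 using hcen
  obtain ⟨N0, hN0⟩ := exists_Nmn hc.m hc.n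
  refine ⟨(lg c).att τ, N0, ⟨?_, ?_, ?_, ?_⟩, ?_, hτ3⟩
  · exact fun ω t h κ hh => tr_launch hc τ hh κ
  · exact fun h => (lg c).nodup h
  · exact fun κ x => mem_Q
  · exact fun κ ω => Iff.rfl
  · intro N hN
    exact geo_hyp8 (lg_ok hc) hc.m hc.n hτ1 hτ2 (fun ω => by
      obtain ⟨N1, h1, h2⟩ := hN0 ω
      exact ⟨N1, h1.trans hN, h2⟩)

end Pool.Agent.H74.Tri
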