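import Pool.Agent.H74.Tri.LDI
import Pool.Agent.H89.Per.Size

set_option autoImplicit false

/-! MP_2e6055 (helper74): helper89's Prop AT. -/

namespace Pool.Agent.H74.Tri

open Pool.Agent.H89.Per

/-- AT: the attempts and their trees. -/
theorem at_holds : AT := by
  intro c hc B hB
  obtain ⟨T, N0, h1, h2, h3⟩ := exists_att hc hB
  exact ⟨T, h1, ⟨N0, h2⟩, fun κ => (h3 κ).trans (by linarith)⟩

end Pool.Agent.H74.Tri
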