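import Pool.Agent.H74.Tri.Ext
import Pool.Agent.H93.SM.Ev
import Pool.Agent.H75.Per.Cond

set_option autoImplicit false

/-! MP_2e6055 (helper74): the chain of helper93 driven by a configuration. -/

namespace Pool.Agent.H74.Tri

open Pool.Agent.H7.UC Pool.Agent.H93.SM Pool.Agent.H75.Per

section split
open Finset Classical

variable {α : Type*}

/-- conditioning on one more variable -/
theorem CX_split {E S ω₀ : Finset α} {a : α} (haE : a ∈ E) (haS : a ∉ S) (F : Finset α → ℝ) :
    CX E S ω₀ F = (CX E (insert a S) (insert a ω₀) F + CX E (insert a S) (ω₀.erase a) F) / 2 := by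
  unfold CX
  have hcard : (E \ S).card = (E \ insert a S).card + 1 := by
    have h1 : E \ S = insert a (E \ insert a S) := by
      ext x
      simp only [mem_sdiff, mem_insert]
      by_cases hx : x = a
      · subst hx; simp [haE, haS]
      · simp [hx]
    rw [h1, card_insert_of_notMem (by simp)]
  have hmem : ∀ {ω : Finset α}, (ω ∩ S = ω₀ ∩ S) ↔ ∀ x ∈ S, (x ∈ ω ↔ x ∈ ω₀) := fun {ω} => agree_iff
  have h1 : (E.powerset.filter (fun ω => ω ∩ S = ω₀ ∩ S)).filter (fun ω => a ∈ ω) =
      E.powerset.filter (fun ω => ω ∩ insert a S = insert a ω₀ ∩ insert a S) := by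
    ext ω
    rw [mem_filter, mem_filter, mem_filter, agree_iff, agree_iff]
    constructor
    · rintro ⟨⟨h2, h3⟩, h4⟩
      refine ⟨h2, fun x hx => ?_⟩
      rcases mem_insert.1 hx with h | h
      · subst h; simp [h4]
      · rw [h3 x h, mem_insert]
        have : x ≠ a := fun e => haS (e ▸ h)
        simp [this]
    · rintro ⟨h2, h3⟩
      refine ⟨⟨h2, fun x hx => ?_⟩, (h3 a (mem_insert_self _ _)).2 (mem_insert_self _ _)⟩
      rw [h3 x (mem_insert_of_mem hx), mem_insert]
      have : x ≠ a := fun e => haS (e ▸ hx)
      simp [this]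
  have h2 : (E.powerset.filter (fun ω => ω ∩ S = ω₀ ∩ S)).filter (fun ω => ¬ a ∈ ω) =
      E.powerset.filter (fun ω => ω ∩ insert a S = ω₀.erase a ∩ insert a S) := by
    ext ω
    rw [mem_filter, mem_filter, mem_filter, agree_iff, agree_iff]
    constructor
    · rintro ⟨⟨h2, h3⟩, h4⟩
      refine ⟨h2, fun x hx => ?_⟩
      rcases mem_insert.1 hx with h | h
      · subst h; simp [h4]
      · rw [h3 x h, mem_erase]
        have : x ≠ a := fun e => haS (e ▸ h)
        simp [this]
    · rintro ⟨h2, h3⟩
      refine ⟨⟨h2, fun x hx => ?_⟩, fun h4 => ?_⟩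
      · rw [h3 x (mem_insert_of_mem hx), mem_erase]
        have : x ≠ a := fun e => haS (e ▸ hx)
        simp [this]
      · exact absurd ((h3 a (mem_insert_self _ _)).1 h4) (by simp)
  rw [← sum_filter_add_sum_filter_not _ (fun ω => a ∈ ω), h1, h2, hcard, pow_succ]
  ring

end split

/-- the chain of the face `z` driven by the colours `Ω` -/
noncomputable def crun (z : Fc) (stop : Finset Fc → (Fc → Bool) → List Bool → Prop)
    (Ω : Fc → Bool) : ℕ → Finset Fc → (Fc → Bool) → List Bool →
    Finset Fc × (Fc → Bool) × List Bool
  | 0, U, col, hi => (U, col, hi)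
  | n + 1, U, col, hi => by
      classical exact
        match tipF U col with
        | none => (U, col, hi)
        | some s =>
          if stop U col hi ∨ s = z then (U, col, hi)
          else crun z stop Ω n (comp (U \ {s}) z) (Function.update col s (Ω s)) (Ω s :: hi)

variable {z : Fc} {stop : Finset Fc → (Fc → Bool) → List Bool → Prop} {Ω : Fc → Bool}

theorem crun_none {n : ℕ} {U : Finset Fc} {col : Fc → Bool} {hi : List Bool}
    (h : tipF U col = none) : crun z stop Ω n U col hi = (U, col, hi) := by
  cases n with
  | zero => rfl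
  | succ n => unfold crun; rw [h]

theorem crun_stop {n : ℕ} {U : Finset Fc} {col : Fc → Bool} {hi : List Bool} {s : Fc}
    (h : tipF U col = some s) (h1 : stop U col hi ∨ s = z) :
    crun z stop Ω n U col hi = (U, col, hi) := by
  cases n with
  | zero => rfl
  | succ n =>
    unfold crun
    rw [h]
    simp only
    rw [if_pos h1]

theorem crun_step {n : ℕ} {U : Finset Fc} {col : Fc → Bool} {hi : List Bool} {s : Fc}
    (h : tipF U col = some s) (h1 : ¬ stop U col hi) (h2 : s ≠ z) :
    crun z stop Ω (n + 1) U col hi =
      crun z stop Ω n (comp (U \ {s}) z) (Function.update col s (Ω s)) (Ω s :: hi) := by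
  conv_lhs => unfold crun
  rw [h]
  simp only
  rw [if_neg (by tauto)]

open Classical in
/-- the configuration of the sites read in a set of variables -/
noncomputable def cf {α V : Type*} (ι : V → α) (ω : Finset α) : V → Bool := fun x => decide (ι x ∈ ω)

variable {m n : ℕ} {α : Type*} {ι : Fin m × Fin n → α}

/-- the expectation along the chain is the average over the configurations -/
theorem CX_crun (hι : Function.Injective ι)
    (G : Finset Fc → (Fc → Bool) → List Bool → ℝ) (E : Finset α) :
    ∀ (k : ℕ) (U : Finset Fc) (col : Fc → Bool) (hi : List Bool) (S ω₀ : Finset α), ω₀ ⊆ E →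
    U ⊆ box m n → (∀ x, em x ∈ U → ι x ∈ E ∧ ι x ∉ S) →
    CX E S ω₀ (fun ω => G (crun z stop (ext m n (cf ι ω)) k U col hi).1
      (crun z stop (ext m n (cf ι ω)) k U col hi).2.1
      (crun z stop (ext m n (cf ι ω)) k U col hi).2.2) = EV z stop G k U col hi := by
  classical
  intro k
  induction k with
  | zero =>
    intro U col hi S ω₀ h0 _ _
    show CX E S ω₀ (fun _ => G U col hi) = G U col hi
    exact CX_const h0 _
  | succ k ih =>
    intro U col hi S ω₀ h0 hU hx
    cases hT : tipF U col with
    | none =>
      rw [EV_none hT]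
      simp only [crun_none hT]
      exact CX_const h0 _
    | some s =>
      by_cases hs : stop U col hi ∨ s = z
      · rw [EV_stop hT hs]
        simp only [crun_stop hT hs]
        exact CX_const h0 _
      · have hs' := hs
        push Not at hs'
        have hsU : s ∈ U := tipF_mem hT
        obtain ⟨x, rfl⟩ := exists_em (hU hsU)
        obtain ⟨hxE, hxS⟩ := hx x hsU
        have hsub : comp (U \ {em x}) z ⊆ U := (comp_sub _ _).trans Finset.sdiff_subset
        have hx' : ∀ (S' : Finset α), S' = insert (ι x) S → ∀ y, em y ∈ comp (U \ {em x}) z →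
            ι y ∈ E ∧ ι y ∉ S' := by
          rintro S' rfl y hy
          obtain ⟨h1, h2⟩ := hx y (hsub hy)
          refine ⟨h1, fun h3 => ?_⟩
          rcases Finset.mem_insert.1 h3 with h4 | h4
          · have h5 := (Finset.mem_sdiff.1 (comp_sub _ _ hy)).2
            rw [hι h4] at h5
            exact h5 (Finset.mem_singleton_self _)
          · exact h2 h4
        rw [EV_step hT hs'.1 hs'.2, CX_split hxE hxS,
          ← ih (comp (U \ {em x}) z) (Function.update col (em x) true) (true :: hi)
            (insert (ι x) S) (insert (ι x) ω₀) (Finset.insert_subset hxE h0) (hsub.trans hU)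
            (hx' _ rfl),
          ← ih (comp (U \ {em x}) z) (Function.update col (em x) false) (false :: hi)
            (insert (ι x) S) (ω₀.erase (ι x)) ((Finset.erase_subset _ _).trans h0) (hsub.trans hU)
            (hx' _ rfl)]
        congr 2
        · refine CX_congr ?_
          intro ω _ h1
          have h2 : ι x ∈ ω := ((agree_iff.1 h1) (ι x) (Finset.mem_insert_self _ _)).2
            (Finset.mem_insert_self _ _)
          have h3 : ext m n (cf ι ω) (em x) = true := by
            rw [ext_em]; unfold cf; simpa using h2
          simp only [crun_step hT hs'.1 hs'.2, h3]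
        · refine CX_congr ?_
          intro ω _ h1
          have h2 : ι x ∉ ω := fun h => absurd
            (((agree_iff.1 h1) (ι x) (Finset.mem_insert_self _ _)).1 h) (by simp)
          have h3 : ext m n (cf ι ω) (em x) = false := by
            rw [ext_em]; unfold cf; simpa using h2
          simp only [crun_step hT hs'.1 hs'.2, h3]

end Pool.Agent.H74.Tri
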