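import Pool.Agent.H74.Tri.Geo

set_option autoImplicit false

/-! MP_2e6055 (helper74), module GEO in general form: the region `aS` and the success event `gk` of an
attempt are arbitrary. -/

namespace Pool.Agent.H74.Tri

open Pool.Agent.H7.UC Pool.Agent.H89.Per

variable {m n : ℕ} {Lab : Type}

/-- data of the labels -/
structure LG (m n : ℕ) (Lab : Type) : Type where
  /-- region of the attempt -/
  aS : Lab → Set Fc
  /-- success -/
  gk : Lab → (Fc → Bool) → Prop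
  Q : Lab → Finset (Fin m × Fin n)
  Bl : Lab → Finset (Fin m × Fin n)
  Ad : Lab → Finset Fc → (Fc → Bool) → Pos → Prop

/-- the hypotheses -/
structure LG.Ok (L : LG m n Lab) : Prop where
  dj : ∀ κ, ∀ x ∈ L.Bl κ, em x ∉ L.aS κ
  conn : ∀ κ, ∀ x ∈ L.Bl κ, ∀ y ∈ L.Bl κ, Jn {f | ∃ z ∈ L.Bl κ, em z = f} (em x) (em y)
  nest : ∀ κ1 κ2 v, v ∈ L.Q κ1 → v ∈ L.Q κ2 → L.Bl κ1 ⊆ L.Bl κ2 ∨
    (∀ x, em x ∈ L.aS κ2 → x ∈ L.Bl κ1)
  own : ∀ κ, L.Q κ ⊆ L.Bl κ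
  ne : ∀ κ, (L.Q κ).Nonempty
  loc : ∀ (κ : Lab) (D : Finset Fc) (Ω Ω' : Fc → Bool) (q : Pos),
    (∀ f, f ∉ D → tch ↑D f → Ω f = Ω' f) → L.Ad κ D Ω q → L.Ad κ D Ω' q
  /-- success from an admissible state: some black set in the region closes the pocket -/
  h6 : ∀ κ D Ω q, D ⊆ box m n → St D Ω → IsTip D Ω q → (∀ x ∈ L.Bl κ, em x ∈ D) →
    (∃ x ∈ L.Bl κ, em x = ph q) → L.Ad κ D Ω q → ∀ Ω', L.gk κ Ω' → (∀ f ∈ D, Ω' f = Ω f) →
    ∃ c ⊆ L.aS κ, (∀ f ∈ D, f ∈ c → Ω f = true) ∧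
      ∀ f ∈ comp (D \ KC D Ω c) (ph q), f.1 ≠ (m : ℤ) - 1

/-- the attempts launched at a history -/
noncomputable def LG.tr [Fintype Lab] (L : LG m n Lab) : List (MS m n) → List Lab
  | [] => []
  | s :: _ => by
      classical exact (Finset.univ.filter (fun κ => (∃ x ∈ L.Bl κ, em x = ph s.1) ∧
        (∀ x ∈ L.Bl κ, s.2 x = none) ∧
        L.Ad κ (comp (unS s.2) (ph s.1)) (colS s.2) s.1)).toList

theorem LG.nodup [Fintype Lab] (L : LG m n Lab) (h : List (MS m n)) : (L.tr h).Nodup := by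
  cases h with
  | nil => exact List.nodup_nil
  | cons s l => exact Finset.nodup_toList _

theorem LG.mem_tr [Fintype Lab] {L : LG m n Lab}
    (hloc : ∀ (κ : Lab) (D : Finset Fc) (Ω Ω' : Fc → Bool) (q : Pos),
      (∀ f, f ∉ D → tch ↑D f → Ω f = Ω' f) → L.Ad κ D Ω q → L.Ad κ D Ω' q)
    {ω : Fin m × Fin n → Bool} {t : ℕ} {κ : Lab} : κ ∈ L.tr (stL ω t) ↔
      (∃ x ∈ L.Bl κ, em x = ph (orb (ext m n ω) p0 t)) ∧
      (∀ x ∈ L.Bl κ, em x ∉ Rev (ext m n ω) p0 t) ∧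
      L.Ad κ (comp (un ω t) (ph (orb (ext m n ω) p0 t))) (ext m n ω) (orb (ext m n ω) p0 t) := by
  classical
  obtain ⟨l, hl⟩ := stL_cons ω t
  rw [hl]
  unfold LG.tr
  rw [Finset.mem_toList, Finset.mem_filter]
  show _ ∧ ((∃ x ∈ L.Bl κ, em x = ph (orb (ext m n ω) p0 t)) ∧ (∀ x ∈ L.Bl κ, rho ω t x = none) ∧
    L.Ad κ (comp (unS (rho ω t)) (ph (orb (ext m n ω) p0 t))) (colS (rho ω t))
      (orb (ext m n ω) p0 t)) ↔ _
  rw [unS_rho]
  have h1 : (∀ x ∈ L.Bl κ, rho ω t x = none) ↔ ∀ x ∈ L.Bl κ, em x ∉ Rev (ext m n ω) p0 t := by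
    refine forall_congr' (fun x => imp_congr_right (fun _ => ?_))
    constructor
    · intro h h1
      rw [rho_some h1] at h
      exact absurd h (by simp)
    · exact rho_none
  have h2 : L.Ad κ (comp (un ω t) (ph (orb (ext m n ω) p0 t))) (colS (rho ω t))
      (orb (ext m n ω) p0 t) ↔ L.Ad κ (comp (un ω t) (ph (orb (ext m n ω) p0 t))) (ext m n ω)
      (orb (ext m n ω) p0 t) := by
    constructor
    · exact hloc _ _ _ _ _ (fun f hf ht => colS_rho (tch_comp hf ht))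
    · exact hloc _ _ _ _ _ (fun f hf ht => (colS_rho (tch_comp hf ht)).symm)
  rw [h1, h2]
  simp

open Classical in
/-- the sites of the region -/
noncomputable def LG.AS (L : LG m n Lab) (κ : Lab) : Finset (Fin m × Fin n) :=
  Finset.univ.filter (fun x => em x ∈ L.aS κ)

theorem LG.mem_AS {L : LG m n Lab} {κ : Lab} {x : Fin m × Fin n} : x ∈ L.AS κ ↔ em x ∈ L.aS κ := by
  classical
  unfold LG.AS
  rw [Finset.mem_filter]
  exact ⟨fun h => h.2, fun h => ⟨Finset.mem_univ _, h⟩⟩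

/-- the data of helper89 -/
noncomputable def LG.att [Fintype Lab] (L : LG m n Lab) (τ : Lab → DT (Fin m × Fin n)) :
    Att (Fin m × Fin n) Lab (mainE m n) where
  tr := L.tr
  A := L.AS
  Q := L.Q
  Bl := L.Bl
  g := fun κ ω => L.gk κ (ext m n ω)
  τ := τ

/-- the blocked sites are in the peeled component of the tip face -/
theorem bl_in_comp8 {Bl : Finset (Fin m × Fin n)} (hconn : ∀ x ∈ Bl, ∀ y ∈ Bl,
    Jn {f | ∃ z ∈ Bl, em z = f} (em x) (em y)) {W : Finset Fc} (hW : ∀ x ∈ Bl, em x ∈ W)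
    {y : Fin m × Fin n} (hy : y ∈ Bl) : ∀ x ∈ Bl, em x ∈ comp W (em y) := by
  intro x hx
  refine mem_comp.2 ⟨hW x hx, (hconn y hy x hx).mono ?_⟩
  rintro f ⟨z, hz, rfl⟩
  exact hW z hz

/-- **GEO**, general form. -/
theorem geo_hyp8 [Fintype Lab] {L : LG m n Lab} (hL : L.Ok) (hm : 1 ≤ m) (hn : 1 ≤ n)
    {τ : Lab → DT (Fin m × Fin n)} (hτ : ∀ κ, Decides (τ κ) (fun ω => L.gk κ (ext m n ω)))
    (ho : ∀ κ, Once (L.AS κ) (τ κ)) {N : ℕ}
    (hN : ∀ ω : Fin m × Fin n → Bool, ∃ N0 ≤ N, ExitAt (box m n) (ext m n ω) p0 N0) :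
    (L.att τ).Hyp (crF m n) N where
  dec := hτ
  once := ho
  geo := by
    intro ω η t h κ hh hκ hg x hx hxe
    obtain ⟨hns, rfl⟩ := hist_iff.1 hh
    obtain ⟨⟨y, hy, hyq⟩, hfree, hAd⟩ := (LG.mem_tr hL.loc).1 hκ
    set Ω := ext m n ω with hΩ
    set q := orb Ω p0 t with hq
    set D := comp (un ω t) (ph q) with hD
    have hBun : ∀ x ∈ L.Bl κ, em x ∈ un ω t := fun x hx => mem_un.2 ⟨em_mem x, hfree x hx⟩
    have hqun : ph q ∈ un ω t := hyq ▸ hBun y hy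
    have hStD : St D Ω := St_un hm hn ω t _ hqun
    have hqT : IsTip D Ω q := tip_un hm hn ω t hqun
    have hBD : ∀ x ∈ L.Bl κ, em x ∈ D := by
      rw [hD, ← hyq]
      exact bl_in_comp8 (hL.conn κ) hBun hy
    have hDun : ∀ a ∈ D, a ∈ un ω t := fun a ha => comp_sub _ _ ha
    have hDbox : D ⊆ box m n := fun a ha => (mem_un.1 (hDun a ha)).1
    obtain ⟨c, hcA, hcD, hright⟩ := hL.h6 κ D Ω q hDbox hStD hqT hBD ⟨y, hy, hyq⟩ hAd
      (ext m n (mix ((mainE m n).expl (stL ω t)) ω η)) hg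
      (fun f hf => ext_mix hh (hDun f hf))
    have hcB : ∀ x ∈ L.Bl κ, em x ∉ c := fun x hx h => hL.dj κ x hx (hcA h)
    set Z := comp (D \ KC D Ω c) (ph q) with hZ
    have hBK : ∀ x ∈ L.Bl κ, em x ∈ D \ KC D Ω c := fun x hx =>
      Finset.mem_sdiff.2 ⟨hBD x hx, fun h => hcB x hx (mem_KC.1 h).2.1⟩
    have hqc : ph q ∉ KC D Ω c := by
      rw [← hyq]
      exact (Finset.mem_sdiff.1 (hBK y hy)).2
    have hStZ : St Z Ω := St_KC hStD hcD hqT.1 hqc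
    have hZD : ∀ a ∈ Z, a ∈ D := fun a ha => (Finset.mem_sdiff.1 (comp_sub _ _ ha)).1
    have hxZ : em x ∈ Z := by
      rw [hZ, ← hyq]
      exact bl_in_comp8 (hL.conn κ) hBK hy x hx
    have key : ∀ u : Fin m × Fin n → Bool, (∀ z, z ≠ x → u z = ω z) →
        (crF m n ω ↔ crF m n u) := by
      intro u hu
      refine irr m n Ω (ext m n u) hm hn (ext_bc _) (ext_bc _) ↑Z ?_ ?_ ?_
      · intro f hf
        have hf' : f ∈ Z := by exact_mod_cast hf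
        exact ⟨hDbox (hZD f hf'), hright f hf'⟩
      · intro f hf
        refine ext_eq (fun z hz => (hu z ?_).symm)
        rintro rfl
        exact hf (by rw [← hz]; exact_mod_cast hxZ)
      · intro f g hf hg h1 h2 h3 h4
        have h5 := hStZ.cc f g (fun h => hf (by exact_mod_cast h)) (fun h => hg (by exact_mod_cast h))
          h1 h2 (by rw [h3, h4])
        refine h5.mono ?_
        rintro a ⟨ha, hb⟩
        exact ⟨fun h => ha (by exact_mod_cast h), by rw [hb]; exact h3⟩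
    refine (key _ (fun z hz => ?_)).symm.trans (key _ (fun z hz => ?_))
    · unfold Function.update; rw [dif_neg hz]
    · unfold Function.update; rw [dif_neg hz]
  det := fun ω ω' h => main_det hm hn (hN ω) h
  inj := main_inj
  disj := by
    intro ω t' t h' h κ1 κ2 v htt hh' hh h1 h2 hv1 hv2 x hx1 hx2
    obtain ⟨_, rfl⟩ := hist_iff.1 hh'
    obtain ⟨_, rfl⟩ := hist_iff.1 hh
    obtain ⟨⟨y, hy, hyq⟩, _, _⟩ := (LG.mem_tr hL.loc).1 h1
    obtain ⟨_, hfree, _⟩ := (LG.mem_tr hL.loc).1 h2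
    have hx1' : em x ∈ L.aS κ1 := LG.mem_AS.1 hx1
    have hx2' : em x ∈ L.aS κ2 := LG.mem_AS.1 hx2
    rcases hL.nest κ1 κ2 v hv1 hv2 with h3 | h3
    · exact hfree y (h3 hy) (launched hyq htt)
    · exact hL.dj κ1 x (h3 x hx2') hx1'
  enc := by
    intro ω η t' t h' h κ1 κ2 v htt hh' hh h1 h2 hv1 hv2 _ x hx _
    obtain ⟨_, rfl⟩ := hist_iff.1 hh'
    obtain ⟨_, rfl⟩ := hist_iff.1 hh
    obtain ⟨⟨y, hy, hyq⟩, _, _⟩ := (LG.mem_tr hL.loc).1 h1
    obtain ⟨_, hfree, _⟩ := (LG.mem_tr hL.loc).1 h2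
    have hx' : em x ∈ L.aS κ2 := LG.mem_AS.1 hx
    rcases hL.nest κ1 κ2 v hv1 hv2 with h3 | h3
    · exact absurd (launched hyq htt) (hfree y (h3 hy))
    · exact h3 x hx'
  own := hL.own
  ne := hL.ne

end Pool.Agent.H74.Tri
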