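import Pool.Agent.H74.Tri.Comp

set_option autoImplicit false

/-! MP_2e6055, topology of exploration on the triangular lattice (helper74), 2: the hexagon of a
face, chains, parity. -/

namespace Pool.Agent.H74.Tri

open Pool.Agent.H7.UC

/-- the six neighbours, counterclockwise -/
def nbr : Fc → Fin 6 → Fc
  | (i, j), 0 => (i + 1, j)
  | (i, j), 1 => (i, j + 1)
  | (i, j), 2 => (i - 1, j + 1)
  | (i, j), 3 => (i - 1, j)
  | (i, j), 4 => (i, j - 1)
  | (i, j), 5 => (i + 1, j - 1)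

/-- the vertex between `f`, `nbr f m`, `nbr f (m+1)` -/
def vtx : Fc → Fin 6 → Vx
  | (i, j), 0 => (i, j, false)
  | (i, j), 1 => (i - 1, j, true)
  | (i, j), 2 => (i - 1, j, false)
  | (i, j), 3 => (i - 1, j - 1, true)
  | (i, j), 4 => (i, j - 1, false)
  | (i, j), 5 => (i, j - 1, true)

/-- the edge between `f` and `nbr f m` -/
def eg : Fc → Fin 6 → Ed
  | (i, j), 0 => (i, j, 0)
  | (i, j), 1 => (i, j, 2)
  | (i, j), 2 => (i - 1, j, 1)
  | (i, j), 3 => (i - 1, j, 0)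
  | (i, j), 4 => (i, j - 1, 2)
  | (i, j), 5 => (i, j - 1, 1)

def kx : Fin 6 → Fin 3 := ![1, 0, 2, 1, 0, 2]

theorem vtx_fc (s : Fc) (m : Fin 6) : fc (vtx s m) (kx m) = s ∧
    fc (vtx s m) (kx m + 1) = nbr s m ∧ fc (vtx s m) (kx m + 2) = nbr s (m + 1) := by
  obtain ⟨i, j⟩ := s
  fin_cases m <;> simp [vtx, kx, nbr, fc] <;> rfl

theorem vtx_ed (s : Fc) (m : Fin 6) : ed (vtx s m) (kx m + 1) = eg s (m + 1) ∧
    ed (vtx s m) (kx m + 2) = eg s m := by
  obtain ⟨i, j⟩ := s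
  fin_cases m <;> simp [vtx, kx, eg, ed] <;> rfl

theorem vtx_nb (s : Fc) (m : Fin 6) : nb (vtx s m) (kx m + 1) = vtx s (m + 1) := by
  obtain ⟨i, j⟩ := s
  fin_cases m <;> simp [vtx, kx, nb] <;> rfl

theorem eq_vtx (v : Vx) (k : Fin 3) : ∃ m, v = vtx (fc v k) m ∧ k = kx m := by
  obtain ⟨i, j, b⟩ := v
  fin_cases k <;> cases b
  · exact ⟨4, by simp [vtx, fc], rfl⟩
  · exact ⟨1, by simp [vtx, fc], rfl⟩
  · exact ⟨0, by simp [vtx, fc], rfl⟩
  · exact ⟨3, by simp [vtx, fc], rfl⟩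
  · exact ⟨2, by simp [vtx, fc], rfl⟩
  · exact ⟨5, by simp [vtx, fc], rfl⟩

theorem eg_faces (s : Fc) (m : Fin 6) : (lf (eg s m) = s ∧ rf (eg s m) = nbr s m) ∨
    (lf (eg s m) = nbr s m ∧ rf (eg s m) = s) := by
  obtain ⟨i, j⟩ := s
  fin_cases m <;> simp [eg, nbr, lf, rf, fc]

theorem adj_nbr (s : Fc) (m : Fin 6) : adjF s (nbr s m) := ⟨eg s m, eg_faces s m⟩

theorem adjF_nbr {s f : Fc} (h : adjF s f) : ∃ m, f = nbr s m := by
  rw [adjF_iff] at h
  obtain ⟨i, j⟩ := s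
  obtain ⟨a, b⟩ := f
  simp only at h
  rcases h with ⟨h1, h2⟩ | ⟨h1, h2⟩ | ⟨h1, h2⟩ | ⟨h1, h2⟩ | ⟨h1, h2⟩ | ⟨h1, h2⟩
  · exact ⟨0, by simp [nbr, h1, h2]⟩
  · exact ⟨3, by simp [nbr, h1, h2]⟩
  · exact ⟨1, by simp [nbr, h1, h2]⟩
  · exact ⟨4, by simp [nbr, h1, h2]⟩
  · exact ⟨5, by simp [nbr, h1, h2]⟩
  · exact ⟨2, by simp [nbr, h1, h2]⟩

/-- faces of `ed v k`, without order -/
theorem ed_faces (v : Vx) (k : Fin 3) : (lf (ed v k) = fc v (k + 1) ∧ rf (ed v k) = fc v (k + 2)) ∨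
    (lf (ed v k) = fc v (k + 2) ∧ rf (ed v k) = fc v (k + 1)) := by
  rcases faces_ed v k with ⟨_, h1, h2⟩ | ⟨_, h1, h2⟩
  · exact Or.inl ⟨h1, h2⟩
  · exact Or.inr ⟨h1, h2⟩

/-- every edge is `ed v k` for an up vertex -/
theorem eq_ed (e : Ed) : e = ed (e.1, e.2.1, false) e.2.2 := by
  obtain ⟨i, j, k⟩ := e
  simp [ed]

/-- an edge is determined by its faces -/
theorem edge_eq {e e' : Ed} (h : (lf e = lf e' ∧ rf e = rf e') ∨ (lf e = rf e' ∧ rf e = lf e')) :
    e = e' := by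
  obtain ⟨i, j, k⟩ := e
  obtain ⟨i', j', k'⟩ := e'
  fin_cases k <;> fin_cases k' <;> simp [lf, rf, fc] at h ⊢ <;> omega

theorem inE_iff_ed (U : Finset Fc) (v : Vx) (k : Fin 3) :
    inE U (ed v k) ↔ fc v (k + 1) ∈ U ∨ fc v (k + 2) ∈ U := by
  unfold inE
  rcases ed_faces v k with ⟨h1, h2⟩ | ⟨h1, h2⟩
  · rw [h1, h2]
  · rw [h1, h2]; exact Or.comm

theorem inE_eg (U : Finset Fc) (s : Fc) (m : Fin 6) : inE U (eg s m) ↔ s ∈ U ∨ nbr s m ∈ U := by
  unfold inE
  rcases eg_faces s m with ⟨h1, h2⟩ | ⟨h1, h2⟩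
  · rw [h1, h2]
  · rw [h1, h2]; exact Or.comm

theorem inV_of_inE {U : Finset Fc} {v : Vx} {k : Fin 3} (h : inE U (ed v k)) :
    inV U v ∧ inV U (nb v k) := by
  rw [inE_iff_ed] at h
  rcases h with h | h
  · exact ⟨⟨_, h⟩, ⟨k + 2, by rw [fc_nb2]; exact h⟩⟩
  · exact ⟨⟨_, h⟩, ⟨k + 1, by rw [fc_nb1]; exact h⟩⟩

theorem ind_mem {α : Type*} {s : Set α} {a : α} (h : a ∈ s) : ind s a = 1 := by
  unfold ind; rw [if_pos h]

theorem ind_not {α : Type*} {s : Set α} {a : α} (h : a ∉ s) : ind s a = 0 := by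
  unfold ind; rw [if_neg h]

theorem two_zmod (a : ZMod 2) : a + a = 0 := by
  have : ∀ a : ZMod 2, a + a = 0 := by decide
  exact this a

theorem zmod_cases (a : ZMod 2) : a = 0 ∨ a = 1 := by
  have : ∀ a : ZMod 2, a = 0 ∨ a = 1 := by decide
  exact this a

/-- degree of a single edge -/
theorem dv_single (v : Vx) (k : Fin 3) (w : Vx) :
    dv (ind ({ed v k} : Set Ed)) w = ind ({v} : Set Vx) w + ind ({nb v k} : Set Vx) w := by
  have hne := nb_ne v k
  have key : ∀ l : Fin 3, ind ({ed v k} : Set Ed) (ed w l) =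
      if l = k ∧ (w = v ∨ w = nb v k) then 1 else 0 := by
    intro l
    by_cases h : l = k ∧ (w = v ∨ w = nb v k)
    · rw [if_pos h, ind_mem]
      rw [Set.mem_singleton_iff]
      exact ((ed_eq_iff v w k l).2 ⟨h.1.symm, h.2⟩).symm
    · rw [if_neg h, ind_not]
      rw [Set.mem_singleton_iff]
      intro h'
      have := (ed_eq_iff v w k l).1 h'.symm
      exact h ⟨this.1.symm, this.2⟩
  unfold dv
  rw [key, key, key]
  by_cases h1 : w = v
  · subst h1
    rw [ind_mem (by simp), ind_not (by simpa using hne.symm)]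
    fin_cases k <;> simp
  · by_cases h2 : w = nb v k
    · rw [ind_not (by simpa using h1), ind_mem (by simpa using h2)]
      fin_cases k <;> simp [h2]
    · rw [ind_not (by simpa using h1), ind_not (by simpa using h2)]
      simp [h1, h2]

theorem dv_add (x y : Ed → ZMod 2) (v : Vx) : dv (fun e => x e + y e) v = dv x v + dv y v := by
  unfold dv; ring

/-- `p` and `q` are joined by a chain in the edges of `W` -/
def Rp (W : Finset Fc) (p q : Vx) : Prop := ∃ P : Ed → ZMod 2, (∀ e, P e ≠ 0 → inE W e) ∧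
  ∀ v, dv P v = ind ({p} : Set Vx) v + ind ({q} : Set Vx) v

theorem Rp.refl (W : Finset Fc) (p : Vx) : Rp W p p :=
  ⟨fun _ => 0, fun _ h => absurd rfl h, fun v => by rw [two_zmod]; simp [dv]⟩

theorem Rp.symm {W : Finset Fc} {p q : Vx} (h : Rp W p q) : Rp W q p := by
  obtain ⟨P, h1, h2⟩ := h
  exact ⟨P, h1, fun v => by rw [h2, add_comm]⟩

theorem Rp.trans {W : Finset Fc} {p q r : Vx} (h : Rp W p q) (h' : Rp W q r) : Rp W p r := by
  obtain ⟨P, h1, h2⟩ := h
  obtain ⟨Q, h3, h4⟩ := h'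
  refine ⟨fun e => P e + Q e, ?_, ?_⟩
  · intro e he
    by_contra hn
    have e1 : P e = 0 := by by_contra h; exact hn (h1 e h)
    have e2 : Q e = 0 := by by_contra h; exact hn (h3 e h)
    exact he (by show P e + Q e = 0; rw [e1, e2, add_zero])
  · intro v
    rw [dv_add, h2, h4]
    have := two_zmod (ind ({q} : Set Vx) v)
    linear_combination this

theorem Rp.edge {W : Finset Fc} {v : Vx} {k : Fin 3} (h : inE W (ed v k)) : Rp W v (nb v k) := by
  refine ⟨ind ({ed v k} : Set Ed), ?_, dv_single v k⟩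
  intro e he
  by_cases h' : e = ed v k
  · rw [h']; exact h
  · exact absurd (ind_not (by simpa using h')) he

theorem Rp.mono {W W' : Finset Fc} (hW : W ⊆ W') {p q : Vx} (h : Rp W p q) : Rp W' p q := by
  obtain ⟨P, h1, h2⟩ := h
  exact ⟨P, fun e he => (h1 e he).imp (fun h => hW h) (fun h => hW h), h2⟩

theorem Rp.hex {W : Finset Fc} {s : Fc} (hs : s ∈ W) (m l : Fin 6) : Rp W (vtx s m) (vtx s l) := by
  have h1 : ∀ m : Fin 6, Rp W (vtx s m) (vtx s (m + 1)) := by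
    intro m
    have := Rp.edge (W := W) (v := vtx s m) (k := kx m + 1)
      (by rw [(vtx_ed s m).1, inE_eg]; exact Or.inl hs)
    rwa [vtx_nb] at this
  have h0 : ∀ m : Fin 6, Rp W (vtx s 0) (vtx s m) := by
    intro m
    have a1 := h1 0
    have a2 := h1 1
    have a3 := h1 2
    have a4 := h1 3
    have a5 := h1 4
    fin_cases m
    · exact Rp.refl _ _
    · exact a1
    · exact a1.trans a2
    · exact (a1.trans a2).trans a3
    · exact ((a1.trans a2).trans a3).trans a4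
    · exact (((a1.trans a2).trans a3).trans a4).trans a5
  exact (h0 m).symm.trans (h0 l)

theorem Rp.face {W : Finset Fc} {p q : Vx} {k l : Fin 3} (hp : fc p k ∈ W) (h : fc q l = fc p k) :
    Rp W p q := by
  obtain ⟨m, h1, _⟩ := eq_vtx p k
  obtain ⟨m', h2, _⟩ := eq_vtx q l
  rw [h1, h2, h]
  exact Rp.hex hp m m'

/-- in a connected set all vertices are joined by chains -/
theorem Rp.conn {W : Finset Fc} {s : Fc} (hs : s ∈ W) (hc : ∀ f ∈ W, Jn (↑W : Set Fc) s f)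
    {p q : Vx} (hp : inV W p) (hq : inV W q) : Rp W p q := by
  have key : ∀ f, Jn (↑W : Set Fc) s f → f ∈ W → Rp W (vtx s 0) (vtx f 0) := by
    intro f hf
    induction hf with
    | refl => intro _; exact Rp.refl _ _
    | @tail a b h1 h2 ih =>
      intro hb
      have ha : a ∈ W := by
        have : a ∈ (↑W : Set Fc) := Jn.mem h1 (by exact_mod_cast hs)
        exact_mod_cast this
      refine (ih ha).trans ?_
      obtain ⟨m, hm⟩ := adjF_nbr h2.2
      have h3 := (vtx_fc a m).2.1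
      have h4 : Rp W (vtx a 0) (vtx a m) := Rp.hex ha 0 m
      refine h4.trans (Rp.face (k := kx m + 1) (l := kx 0) ?_ ?_)
      · rw [h3, ← hm]; exact hb
      · rw [h3, ← hm]; exact (vtx_fc b 0).1
  have key2 : ∀ p, inV W p → Rp W (vtx s 0) p := by
    rintro p ⟨k, hk⟩
    exact (key _ (hc _ hk) hk).trans (Rp.face (k := kx 0) (l := k) (by rw [(vtx_fc _ 0).1]; exact hk)
      (vtx_fc _ 0).1.symm)
  exact (key2 p hp).symm.trans (key2 q hq)

/-- the vertices of `U` -/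
noncomputable def verts (U : Finset Fc) : Finset Vx := by
  classical exact U.biUnion (fun s => Finset.univ.image (vtx s))

theorem mem_verts {U : Finset Fc} {v : Vx} : v ∈ verts U ↔ inV U v := by
  classical
  unfold verts
  simp only [Finset.mem_biUnion, Finset.mem_image, Finset.mem_univ, true_and]
  constructor
  · rintro ⟨s, hs, m, rfl⟩
    exact ⟨kx m, by rw [(vtx_fc s m).1]; exact hs⟩
  · rintro ⟨k, hk⟩
    obtain ⟨m, h1, _⟩ := eq_vtx v k
    exact ⟨_, hk, m, h1.symm⟩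

/-- the degrees of a chain in the edges of `U` have even sum -/
theorem sum_dv {U : Finset Fc} {x : Ed → ZMod 2} (hx : ∀ e, x e ≠ 0 → inE U e) :
    ∑ v ∈ verts U, dv x v = 0 := by
  classical
  have h1 : ∑ v ∈ verts U, dv x v =
      ∑ p ∈ (verts U ×ˢ (Finset.univ : Finset (Fin 3))), x (ed p.1 p.2) := by
    rw [Finset.sum_product]
    refine Finset.sum_congr rfl fun v _ => ?_
    rw [Fin.sum_univ_three]
    rfl
  have h2 : ∑ p ∈ (verts U ×ˢ (Finset.univ : Finset (Fin 3))), x (ed p.1 p.2) =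
      ∑ p ∈ (verts U ×ˢ (Finset.univ : Finset (Fin 3))).filter (fun p => x (ed p.1 p.2) ≠ 0),
        x (ed p.1 p.2) := by
    rw [Finset.sum_filter_ne_zero]
  rw [h1, h2]
  refine Finset.sum_involution (fun p _ => (nb p.1 p.2, p.2)) ?_ ?_ ?_ ?_
  · intro p _
    rw [ed_nb]
    exact two_zmod _
  · intro p _ _ h
    exact nb_ne p.1 p.2 (congrArg Prod.fst h)
  · intro p hp
    rw [Finset.mem_filter] at hp ⊢
    rw [ed_nb]
    refine ⟨Finset.mem_product.2 ⟨mem_verts.2 ?_, Finset.mem_univ _⟩, hp.2⟩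
    exact (inV_of_inE (hx _ hp.2)).2
  · intro p _
    simp only [nb_nb]

/-- chain of edges around the face `s` -/
def arc (s : Fc) (T : Fin 6 → ZMod 2) (e : Ed) : ZMod 2 := ∑ m, if e = eg s m then T m else 0

theorem eg_inj (s : Fc) {m l : Fin 6} (h : eg s m = eg s l) : m = l := by
  obtain ⟨i, j⟩ := s
  fin_cases m <;> fin_cases l <;> simp [eg] at h ⊢ <;> omega

theorem arc_eg (s : Fc) (T : Fin 6 → ZMod 2) (m : Fin 6) : arc s T (eg s m) = T m := by
  unfold arc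
  rw [Finset.sum_eq_single m]
  · simp
  · intro l _ hl
    rw [if_neg]
    intro h
    exact hl (eg_inj s h).symm
  · intro h
    exact absurd (Finset.mem_univ _) h

theorem arc_other {s : Fc} (T : Fin 6 → ZMod 2) {e : Ed} (h : ∀ m, e ≠ eg s m) : arc s T e = 0 := by
  unfold arc
  exact Finset.sum_eq_zero fun m _ => if_neg (h m)

theorem arc_supp {U : Finset Fc} {s : Fc} (hs : s ∈ U) (T : Fin 6 → ZMod 2) (e : Ed)
    (he : arc s T e ≠ 0) : inE U e := by
  by_cases h : ∃ m, e = eg s m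
  · obtain ⟨m, rfl⟩ := h
    rw [inE_eg]
    exact Or.inl hs
  · push Not at h
    exact absurd (arc_other T h) he

theorem arc_dv (s : Fc) (T : Fin 6 → ZMod 2) (v : Vx) :
    dv (arc s T) v = ∑ m, (T m + T (m + 1)) * ind ({vtx s m} : Set Vx) v := by
  have h1 : ∀ e, arc s T e = ∑ m : Fin 6, T m * ind ({eg s m} : Set Ed) e := by
    intro e
    unfold arc
    refine Finset.sum_congr rfl fun m _ => ?_
    by_cases h : e = eg s m
    · rw [if_pos h, ind_mem (by simpa using h), mul_one]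
    · rw [if_neg h, ind_not (by simpa using h), mul_zero]
  have h2 : ∀ m : Fin 6, dv (ind ({eg s (m + 1)} : Set Ed)) v =
      ind ({vtx s m} : Set Vx) v + ind ({vtx s (m + 1)} : Set Vx) v := by
    intro m
    have := dv_single (vtx s m) (kx m + 1) v
    rwa [(vtx_ed s m).1, vtx_nb] at this
  have h3 : dv (arc s T) v = ∑ m : Fin 6, T m * dv (ind ({eg s m} : Set Ed)) v := by
    unfold dv
    rw [h1, h1, h1, ← Finset.sum_add_distrib, ← Finset.sum_add_distrib]
    refine Finset.sum_congr rfl fun m _ => ?_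
    ring
  have a0 := h2 5
  have a1 := h2 0
  have a2 := h2 1
  have a3 := h2 2
  have a4 := h2 3
  have a5 := h2 4
  have e1 : (5 : Fin 6) + 1 = 0 := rfl
  have e2 : (0 : Fin 6) + 1 = 1 := rfl
  have e3 : (1 : Fin 6) + 1 = 2 := rfl
  have e4 : (2 : Fin 6) + 1 = 3 := rfl
  have e5 : (3 : Fin 6) + 1 = 4 := rfl
  have e6 : (4 : Fin 6) + 1 = 5 := rfl
  rw [e1] at a0
  rw [e2] at a1
  rw [e3] at a2
  rw [e4] at a3
  rw [e5] at a4
  rw [e6] at a5
  rw [h3, Fin.sum_univ_six, Fin.sum_univ_six, a0, a1, a2, a3, a4, a5, e1, e2, e3, e4, e5, e6]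
  ring

end Pool.Agent.H74.Tri
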