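import Pool.Agent.H74.Tri.Defs

set_option autoImplicit false

/-! MP_2e6055, module TOP (helper74): closed statements.  Colours: true = black, false = white. -/

namespace Pool.Agent.H74.Tri

open Pool.Agent.H7.UC

/-- PEEL: `s` in `U` touches an outer face of its own colour; every component of `U - s` is a state. -/
def Peel : Prop := ∀ (U : Finset Fc) (ω : Fc → Bool), St U ω → ∀ s ∈ U, ∀ x ∉ U, adjF s x →
  ω s = ω x → ∀ z ∈ U, z ≠ s → St (comp (U \ {s}) z) ω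

/-- PEELK: the same for a one-coloured set `K` attached to outer faces of its colour. -/
def PeelK : Prop := ∀ (U : Finset Fc) (ω : Fc → Bool), St U ω → ∀ (K : Finset Fc) (c : Bool),
  K ⊆ U → (∀ f ∈ K, ω f = c) → (∀ f ∈ K, ∃ g, Jn (↑K : Set Fc) f g ∧ ∃ x, x ∉ U ∧ adjF g x ∧ ω x = c) →
  ∀ z ∈ U, z ∉ K → St (comp (U \ K) z) ω

/-- TIP: at most one entrance. -/
def TipU : Prop := ∀ (U : Finset Fc) (ω : Fc → Bool), St U ω → ∀ p q, IsTip U ω p → IsTip U ω q → p = q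

/-- INT1: the interface from a tip leaves `U` (no hypothesis on `U`). -/
def Int1 : Prop := ∀ (U : Finset Fc) (ω : Fc → Bool) (p : Pos), IsTip U ω p → ∃ n, ExitAt U ω p n

/-- INT2: after the exit every component of the rest of `U` is touched by one colour only. -/
def Int2 : Prop := ∀ (U : Finset Fc) (ω : Fc → Bool), St U ω → ∀ (p : Pos) (n : ℕ), IsTip U ω p →
  ExitAt U ω p n → ∀ W : Finset Fc, W ⊆ U → (∀ f ∈ W, f ∉ Rev ω p n) →
  (∀ f ∈ W, ∀ g ∈ W, Jn (↑W : Set Fc) f g) → (∀ f ∈ U, f ∉ W → tch ↑W f → f ∈ Rev ω p n) →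
  ∀ f g, f ∉ W → g ∉ W → tch ↑W f → tch ↑W g → ω f = ω g

/-- NE: a set touched by one colour only is never entered. -/
def NE : Prop := ∀ (W : Set Fc) (ω : Fc → Bool) (c : Bool), (∀ f, f ∉ W → tch W f → ω f = c) →
  ∀ p : Pos, Bi ω p → pl p ∉ W → pr p ∉ W → ∀ n, pl (orb ω p n) ∉ W ∧ pr (orb ω p n) ∉ W

/-- ARC: the faces of `U` next to outer faces of colour `c` are joined by such faces. -/
def ArcC : Prop := ∀ (U : Finset Fc) (ω : Fc → Bool), St U ω → ∀ p, IsTip U ω p → ∀ c : Bool,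
  ∀ f g, f ∈ U → g ∈ U → (∃ x, x ∉ U ∧ adjF f x ∧ ω x = c) → (∃ x, x ∉ U ∧ adjF g x ∧ ω x = c) →
  Jn {a | a ∈ U ∧ ∃ x, x ∉ U ∧ adjF a x ∧ ω x = c} f g

/-- LR: `Cb` black, `Cw` white in `U`; the tip is next to the component of `v` in `U - Cb`; the
interface reveals `e`, which is not in this component and is separated from `Cb` by `Cw`.  Then all
faces of the component that it ever touches have been touched before. -/
def LR : Prop := ∀ (U : Finset Fc) (ω : Fc → Bool), St U ω → ∀ (Cb Cw : Set Fc),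
  (∀ f ∈ U, f ∈ Cb → ω f = true) → (∀ f ∈ U, f ∈ Cw → ω f = false) →
  ∀ (p : Pos) (v e : Fc), IsTip U ω p → v ∈ U → v ∉ Cb → e ∈ U → e ∉ Cb → e ∉ Cw →
  Jn {a | a ∈ U ∧ a ∉ Cb} v (ph p) → ¬ Jn {a | a ∈ U ∧ a ∉ Cb} v e →
  (∀ f, Jn {a | a ∈ U ∧ a ∉ Cw} e f → f ∉ Cb) →
  ∀ t n, ExitAt U ω p n → t ≤ n → ph (orb ω p t) = e → ∀ f, Jn {a | a ∈ U ∧ a ∉ Cb} v f →
  ∀ i, (f = pl (orb ω p i) ∨ f = pr (orb ω p i)) → f ∈ Rev ω p t

/-- the box with `m` columns and `n` rows -/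
noncomputable def box (m n : ℕ) : Finset Fc := Finset.Ico (0 : ℤ) m ×ˢ Finset.Ico (0 : ℤ) n

/-- boundary condition: the left side is black, the other sides are white -/
def BC (m n : ℕ) (ω : Fc → Bool) : Prop := ∀ f, f ∉ box m n → ω f = decide (f.1 < 0)

/-- black crossing from the left column to the right column -/
def CR (m n : ℕ) (ω : Fc → Bool) : Prop := ∃ u v, u ∈ box m n ∧ v ∈ box m n ∧ u.1 = 0 ∧
  v.1 = (m : ℤ) - 1 ∧ ω u = true ∧ Jn {a | a ∈ box m n ∧ ω a = true} u v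

/-- the start of the interface: lower left corner, ahead the face `(0,0)` -/
def p0 : Pos := ((-1, -1, true), 1)

/-- INIT: the box is a state, `p0` is its tip. -/
def Init : Prop := ∀ (m n : ℕ) (ω : Fc → Bool), 1 ≤ m → 1 ≤ n → BC m n ω →
  St (box m n) ω ∧ IsTip (box m n) ω p0

/-- IRR: `Z` without faces of the right column, the black faces touching `Z` are joined by black faces
off `Z`: the colours in `Z` do not matter. -/
def Irr : Prop := ∀ (m n : ℕ) (ω ω' : Fc → Bool), 1 ≤ m → 1 ≤ n → BC m n ω → BC m n ω' →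
  ∀ Z : Set Fc, (∀ f ∈ Z, f ∈ box m n ∧ f.1 ≠ (m : ℤ) - 1) → (∀ f, f ∉ Z → ω f = ω' f) →
  (∀ f g, f ∉ Z → g ∉ Z → tch Z f → tch Z g → ω f = true → ω g = true →
    Jn {a | a ∉ Z ∧ ω a = true} f g) → (CR m n ω ↔ CR m n ω')

/-- DET: the complete interface determines the crossing. -/
def Det : Prop := ∀ (m n : ℕ) (ω ω' : Fc → Bool), 1 ≤ m → 1 ≤ n → BC m n ω → BC m n ω' →
  ∀ N, ExitAt (box m n) ω p0 N → (∀ f ∈ Rev ω p0 N, ω f = ω' f) → (CR m n ω ↔ CR m n ω')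

end Pool.Agent.H74.Tri
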